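import Mathlib

/-!
# Conjugates, commensurate and commensurated subgroups, orbits on cosets
-/

namespace Pool.Agent.KS6_52.Bas

open Subgroup

variable {G : Type*} [Group G]

/-- the conjugate subgroup `g H g⁻¹` -/
def cj (g : G) (H : Subgroup G) : Subgroup G := H.map (MulAut.conj g).toMonoidHom

lemma mem_cj {g x : G} {H : Subgroup G} : x ∈ cj g H ↔ g⁻¹ * x * g ∈ H := by
  unfold cj
  rw [Subgroup.mem_map]
  constructor
  · rintro ⟨y, hy, rfl⟩
    simpa [mul_assoc] using hy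
  · intro h
    exact ⟨_, h, by simp [mul_assoc]⟩

lemma conj_mem_cj {g x : G} {H : Subgroup G} (hx : x ∈ H) : g * x * g⁻¹ ∈ cj g H := by
  rw [mem_cj]; simpa [mul_assoc] using hx

lemma cj_one (H : Subgroup G) : cj 1 H = H := by
  ext x; rw [mem_cj]; simp

lemma cj_mul (g h : G) (H : Subgroup G) : cj (g * h) H = cj g (cj h H) := by
  ext x; rw [mem_cj, mem_cj, mem_cj]; simp [mul_assoc]

lemma cj_mono (g : G) {H K : Subgroup G} (h : H ≤ K) : cj g H ≤ cj g K := by
  intro x hx; rw [mem_cj] at *; exact h hx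

lemma cj_relIndex (g : G) (H K : Subgroup G) : (cj g H).relIndex (cj g K) = H.relIndex K :=
  relIndex_map_map_of_injective H K (MulAut.conj g).injective

lemma cj_of_mem {g : G} {H : Subgroup G} (hg : g ∈ H) : cj g H = H := by
  ext x
  rw [mem_cj]
  constructor
  · intro h
    have := H.mul_mem (H.mul_mem hg h) (H.inv_mem hg)
    simpa [mul_assoc] using this
  · intro h
    exact H.mul_mem (H.mul_mem (H.inv_mem hg) h) hg

lemma cj_normal {N : Subgroup G} (hN : N.Normal) (g : G) : cj g N = N := by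
  ext x
  rw [mem_cj]
  constructor
  · intro h
    have := hN.conj_mem _ h g
    simpa [mul_assoc] using this
  · intro h
    have := hN.conj_mem _ h g⁻¹
    simpa [mul_assoc] using this

lemma normal_of_cj_le {N : Subgroup G} (h : ∀ g, cj g N ≤ N) : N.Normal :=
  ⟨fun _ hn g => h g (conj_mem_cj hn)⟩

/-- A subgroup whose conjugates by the elements of a generating set closed under inverses lie in it
is normal. -/
lemma normal_of_gen {S : Set G} (hS : closure S = ⊤) (hinv : ∀ s ∈ S, s⁻¹ ∈ S) {N : Subgroup G}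
    (h : ∀ s ∈ S, cj s N ≤ N) : N.Normal := by
  apply normal_of_cj_le
  intro g
  have hg : g ∈ closure S := by rw [hS]; trivial
  refine closure_induction (p := fun g _ => cj g N ≤ N ∧ cj g⁻¹ N ≤ N) ?_ ?_ ?_ ?_ hg |>.1
  · intro x hx; exact ⟨h x hx, h _ (hinv x hx)⟩
  · simp [cj_one]
  · rintro x y - - ⟨hx, hx'⟩ ⟨hy, hy'⟩
    refine ⟨?_, ?_⟩
    · rw [cj_mul]; exact (cj_mono x hy).trans hx
    · rw [mul_inv_rev, cj_mul]; exact (cj_mono _ hx').trans hy'
  · rintro x - ⟨hx, hx'⟩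
    exact ⟨hx', by simpa using hx⟩

/-- commensurate subgroups -/
def Cm (H K : Subgroup G) : Prop := H.relIndex K ≠ 0 ∧ K.relIndex H ≠ 0

lemma Cm.refl (H : Subgroup G) : Cm H H := by simp [Cm]

lemma Cm.symm {H K : Subgroup G} (h : Cm H K) : Cm K H := ⟨h.2, h.1⟩

lemma Cm.trans {H K L : Subgroup G} (h : Cm H K) (h' : Cm K L) : Cm H L :=
  ⟨relIndex_ne_zero_trans h.1 h'.1, relIndex_ne_zero_trans h'.2 h.2⟩

lemma Cm.cj {H K : Subgroup G} (h : Cm H K) (g : G) : Cm (cj g H) (cj g K) := by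
  unfold Cm; rw [cj_relIndex, cj_relIndex]; exact h

lemma Cm.of_le {H K : Subgroup G} (h : H ≤ K) (h' : H.relIndex K ≠ 0) : Cm H K :=
  ⟨h', by rw [relIndex_eq_one.2 h]; exact one_ne_zero⟩

/-- commensurated subgroups -/
def Cd (H : Subgroup G) : Prop := ∀ g, (cj g H).relIndex H ≠ 0

lemma Cd.cm {H : Subgroup G} (h : Cd H) (g : G) : Cm (cj g H) H := by
  refine ⟨h g, ?_⟩
  have := h g⁻¹
  rw [← cj_relIndex g, ← cj_mul] at this
  simpa [cj_one] using this

lemma Cd.of_cm {H K : Subgroup G} (h : Cd H) (hK : Cm H K) : Cd K := fun g =>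
  (((hK.cj g).symm.trans (h.cm g)).trans hK).1

lemma Cd.cjd {H : Subgroup G} (h : Cd H) (g : G) : Cd (cj g H) := h.of_cm (h.cm g).symm

lemma Cd.inf {H K : Subgroup G} (h : Cd H) (hK : Cm H K) : Cd (H ⊓ K) := by
  refine h.of_cm ⟨?_, ?_⟩
  · rw [relIndex_eq_one.2 inf_le_left]; exact one_ne_zero
  · rw [inf_relIndex_left]; exact hK.2

lemma Cm.inf_right {H K : Subgroup G} (hK : Cm H K) : Cm H (H ⊓ K) := by
  refine ⟨?_, ?_⟩
  · rw [relIndex_eq_one.2 inf_le_left]; exact one_ne_zero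
  · rw [inf_relIndex_left]; exact hK.2

lemma Cm.finite_iff {H K : Subgroup G} (h : Cm H K) : Nat.card H ≠ 0 ↔ Nat.card K ≠ 0 := by
  rw [← relIndex_bot_left, ← relIndex_bot_left]
  exact ⟨fun h1 => relIndex_ne_zero_trans h1 h.1, fun h1 => relIndex_ne_zero_trans h1 h.2⟩

/-! ### orbits on cosets -/

lemma smul_mk (x g : G) (H : Subgroup G) : x • (g : G ⧸ H) = ((x * g : G) : G ⧸ H) := rfl

lemma relIndex_cj (g : G) (H A : Subgroup G) :
    (cj g H).relIndex A = (MulAction.orbit A (g : G ⧸ H)).ncard := by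
  rw [← MulAction.index_stabilizer]
  unfold relIndex
  congr 1
  ext x
  rw [mem_subgroupOf, MulAction.mem_stabilizer_iff, mem_cj]
  change _ ↔ ((x : G) • (g : G ⧸ H)) = g
  rw [smul_mk, eq_comm, QuotientGroup.eq, mul_assoc]

lemma orbit_finite {H : Subgroup G} (h : Cd H) (x : G ⧸ H) : (MulAction.orbit H x).Finite := by
  induction x using QuotientGroup.induction_on with
  | H g =>
    apply Set.finite_of_ncard_ne_zero
    rw [← relIndex_cj]
    exact h g

lemma relIndex_ne_zero_iff (H A : Subgroup G) :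
    H.relIndex A ≠ 0 ↔ {x : G ⧸ H | ∃ a ∈ A, x = a • ((1 : G) : G ⧸ H)}.Finite := by
  have h1 : {x : G ⧸ H | ∃ a ∈ A, x = a • ((1 : G) : G ⧸ H)} =
      MulAction.orbit A ((1 : G) : G ⧸ H) := by
    ext x
    rw [MulAction.mem_orbit_iff]
    constructor
    · rintro ⟨a, ha, rfl⟩; exact ⟨⟨a, ha⟩, rfl⟩
    · rintro ⟨a, rfl⟩; exact ⟨a, a.2, rfl⟩
  have h2 := relIndex_cj 1 H A
  rw [cj_one] at h2
  rw [h1, h2]
  constructor
  · exact Set.finite_of_ncard_ne_zero
  · intro hf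
    exact Set.ncard_ne_zero_of_mem (MulAction.mem_orbit_self _) hf

lemma mem_sup_of_comm {A C : Subgroup G} (hc : ∀ a ∈ A, ∀ c ∈ C, a * c = c * a) {g : G}
    (hg : g ∈ A ⊔ C) : ∃ a ∈ A, ∃ c ∈ C, g = a * c := by
  let P : Subgroup G :=
    { carrier := {g | ∃ a ∈ A, ∃ c ∈ C, g = a * c}
      mul_mem' := by
        rintro _ _ ⟨a, ha, c, hcc, rfl⟩ ⟨a', ha', c', hcc', rfl⟩
        refine ⟨a * a', A.mul_mem ha ha', c * c', C.mul_mem hcc hcc', ?_⟩
        calc a * c * (a' * c') = a * (c * a') * c' := by group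
          _ = a * (a' * c) * c' := by rw [hc a' ha' c hcc]
          _ = _ := by group
      one_mem' := ⟨1, A.one_mem, 1, C.one_mem, by simp⟩
      inv_mem' := by
        rintro _ ⟨a, ha, c, hcc, rfl⟩
        refine ⟨a⁻¹, A.inv_mem ha, c⁻¹, C.inv_mem hcc, ?_⟩
        rw [mul_inv_rev, hc _ (A.inv_mem ha) _ (C.inv_mem hcc)] }
  have h1 : A ⊔ C ≤ P := sup_le (fun a ha => ⟨a, ha, 1, C.one_mem, by simp⟩)
    (fun c hcc => ⟨1, A.one_mem, c, hcc, by simp⟩)
  exact h1 hg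

/-- If two subgroups commute elementwise and meet `H` in subgroups of finite index, the same holds
for the subgroup they generate. -/
lemma relIndex_sup_of_comm {H A C : Subgroup G} (hc : ∀ a ∈ A, ∀ c ∈ C, a * c = c * a)
    (hA : H.relIndex A ≠ 0) (hC : H.relIndex C ≠ 0) : H.relIndex (A ⊔ C) ≠ 0 := by
  rw [relIndex_ne_zero_iff] at *
  set SA := {x : G ⧸ H | ∃ a ∈ A, x = a • ((1 : G) : G ⧸ H)} with hSA
  set SC := {x : G ⧸ H | ∃ a ∈ C, x = a • ((1 : G) : G ⧸ H)} with hSC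
  have h1 : ∀ y : G ⧸ H, ∃ a : G, y ∈ SA → a ∈ A ∧ y = a • ((1 : G) : G ⧸ H) := by
    intro y
    by_cases hy : y ∈ SA
    · obtain ⟨a, ha, h⟩ := hy
      exact ⟨a, fun _ => ⟨ha, h⟩⟩
    · exact ⟨1, fun h => absurd h hy⟩
  choose r hr using h1
  have key : {x : G ⧸ H | ∃ a ∈ A ⊔ C, x = a • ((1 : G) : G ⧸ H)} ⊆
      ⋃ y ∈ SA, (fun z => r y • z) '' SC := by
    rintro x ⟨g, hg, rfl⟩
    obtain ⟨a, ha, c, hcc, rfl⟩ := mem_sup_of_comm hc hg
    have hy : a • ((1 : G) : G ⧸ H) ∈ SA := ⟨a, ha, rfl⟩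
    obtain ⟨h2, h3⟩ := hr _ hy
    rw [Set.mem_iUnion₂]
    refine ⟨_, hy, c • ((1 : G) : G ⧸ H), ⟨c, hcc, rfl⟩, ?_⟩
    show r (a • ((1 : G) : G ⧸ H)) • c • ((1 : G) : G ⧸ H) = _
    rw [smul_smul, hc _ h2 c hcc, mul_smul, ← h3, smul_smul, hc a ha c hcc]
  exact (hA.biUnion fun y _ => hC.image _).subset key

lemma relIndex_sup_of_comm' {ι : Type*} {H : Subgroup G} (M : ι → Subgroup G) (s : Finset ι)
    (hc : ∀ i ∈ s, ∀ j ∈ s, i ≠ j → ∀ a ∈ M i, ∀ c ∈ M j, a * c = c * a)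
    (hM : ∀ i ∈ s, H.relIndex (M i) ≠ 0) :
    H.relIndex (s.sup M) ≠ 0 := by
  classical
  induction s using Finset.induction_on with
  | empty =>
    rw [Finset.sup_empty, relIndex_bot_right]; exact one_ne_zero
  | insert i s hi ih =>
    rw [Finset.sup_insert]
    refine relIndex_sup_of_comm ?_ (hM i (Finset.mem_insert_self _ _))
      (ih (fun a ha b hb => hc a (Finset.mem_insert_of_mem ha) b (Finset.mem_insert_of_mem hb))
        (fun a ha => hM a (Finset.mem_insert_of_mem ha)))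
    intro a ha c hcc
    have h1 : s.sup M ≤ Subgroup.centralizer {a} := by
      rw [Finset.sup_le_iff]
      intro j hj x hx
      rw [Subgroup.mem_centralizer_singleton_iff]
      exact (hc i (Finset.mem_insert_self _ _) j (Finset.mem_insert_of_mem hj)
        (by rintro rfl; exact hi hj) a ha x hx).symm
    have := h1 hcc
    rw [Subgroup.mem_centralizer_singleton_iff] at this
    exact this.symm

lemma relIndex_ne_zero_mono_right {H K L : Subgroup G} (h : K ≤ L) (hL : H.relIndex L ≠ 0) :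
    H.relIndex K ≠ 0 := by
  rw [relIndex_ne_zero_iff] at *
  exact hL.subset (by rintro x ⟨a, ha, rfl⟩; exact ⟨a, h ha, rfl⟩)

lemma relIndex_ne_zero_mono_left {H K L : Subgroup G} (h : H ≤ K) (hL : H.relIndex L ≠ 0) :
    K.relIndex L ≠ 0 := fun h0 => hL (relIndex_eq_zero_of_le_left h h0)

lemma relIndex_of_index {H : Subgroup G} (h : H.index ≠ 0) (K : Subgroup G) :
    H.relIndex K ≠ 0 := fun h0 => h (index_eq_zero_of_relIndex_eq_zero h0)

/-- `[H M : H]` is finite if `[M : M ∩ H]` is, for normal `M`. -/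
lemma relIndex_sup_normal {H M : Subgroup G} (hM : M.Normal) (h : H.relIndex M ≠ 0) :
    H.relIndex (H ⊔ M) ≠ 0 := by
  rw [relIndex_ne_zero_iff] at *
  refine h.subset ?_
  rintro x ⟨a, ha, rfl⟩
  rw [sup_comm, ← SetLike.mem_coe, Subgroup.normal_mul] at ha
  obtain ⟨m, hm, k, hk, rfl⟩ := ha
  refine ⟨m, hm, ?_⟩
  show (m * k) • ((1 : G) : G ⧸ H) = _
  rw [mul_smul]
  congr 1
  rw [smul_mk, mul_one, QuotientGroup.eq]
  simpa using hk

end Pool.Agent.KS6_52.Bas
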