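import Mathlib

/-!
# The Basilica group
-/

namespace Pool.Agent.KS6_52.Bas

mutual
/-- `a (0 w) = 0 w`, `a (1 w) = 1 b(w)` (`0` is `false`, `1` is `true`) -/
def aF : List Bool → List Bool
  | [] => []
  | false :: w => false :: w
  | true :: w => true :: bF w
/-- `b (0 w) = 1 w`, `b (1 w) = 0 a(w)` -/
def bF : List Bool → List Bool
  | [] => []
  | false :: w => true :: w
  | true :: w => false :: aF w
end

mutual
/-- the inverse of `a` -/
def aI : List Bool → List Bool
  | [] => []
  | false :: w => false :: w
  | true :: w => true :: bI w
/-- the inverse of `b` -/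
def bI : List Bool → List Bool
  | [] => []
  | true :: w => false :: w
  | false :: w => true :: aI w
end

lemma inv_left (w : List Bool) : aI (aF w) = w ∧ bI (bF w) = w := by
  induction w with
  | nil => simp [aF, bF, aI, bI]
  | cons x w ih => cases x <;> simp [aF, bF, aI, bI, ih.1, ih.2]

lemma inv_right (w : List Bool) : aF (aI w) = w ∧ bF (bI w) = w := by
  induction w with
  | nil => simp [aF, bF, aI, bI]
  | cons x w ih => cases x <;> simp [aF, bF, aI, bI, ih.1, ih.2]

/-- the generator `a` as a permutation of the words -/
def a : Equiv.Perm (List Bool) := ⟨aF, aI, fun w => (inv_left w).1, fun w => (inv_right w).1⟩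

/-- the generator `b` as a permutation of the words -/
def b : Equiv.Perm (List Bool) := ⟨bF, bI, fun w => (inv_left w).2, fun w => (inv_right w).2⟩

/-- the Basilica group -/
def Basilica : Subgroup (Equiv.Perm (List Bool)) := Subgroup.closure {a, b}

end Pool.Agent.KS6_52.Bas
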