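import Pool.Agent.KS6_52.Bas.Limit

/-!
# Commensurated subgroups: the abstract theorem
-/

namespace Pool.Agent.KS6_52.Bas

open Subgroup Filter
open scoped commutatorElement

set_option linter.unusedSectionVars false

/-- the derived subgroup of a subgroup -/
def D {G : Type*} [Group G] (K : Subgroup G) : Subgroup G := ⁅K, K⁆

lemma D_mono {G : Type*} [Group G] {K L : Subgroup G} (h : K ≤ L) : D K ≤ D L :=
  commutator_mono h h

lemma D_le {G : Type*} [Group G] (K : Subgroup G) : D K ≤ K := by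
  unfold D
  rw [commutator_le]
  intro x hx y hy
  rw [commutatorElement_def]
  exact K.mul_mem (K.mul_mem (K.mul_mem hx hy) (K.inv_mem hx)) (K.inv_mem hy)

lemma cj_D {G : Type*} [Group G] (g : G) (K : Subgroup G) : cj g (D K) = D (cj g K) := by
  unfold cj D
  rw [map_commutator]

variable (G : Type*) [Group G] [MulAction G W] [TreeAct G] [FaithfulSMul G W]

/-- the hypotheses of the abstract theorem -/
structure Hyp : Prop where
  fg : ∃ S : Finset G, (∀ s ∈ S, s⁻¹ ∈ S) ∧ closure (S : Set G) = ⊤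
  germ : ∀ (g : G) (ξ : ℕ → W) (h : Ray ξ), (∀ j, g • ξ j = ξ j) → g ∈ Zn h
  cent : ∀ n, ∃ E : Finset G, (∀ e ∈ E, ∃ w : W, w.length = n ∧ e ∈ Rist G w) ∧
    ∃ m, ∀ h ∈ St G m, (∀ e ∈ E, h * e = e * h) → h = 1
  zfin : ∀ (N : Subgroup G), N.Normal → N ≠ ⊥ → ∀ ξ (h : Ray ξ), (N ⊔ Zn h).index ≠ 0
  nonsolv : ∀ u : W, D (D (D (Rist G u))) ≠ ⊥
  poly : ∀ M : Subgroup G, M.Normal → M ≠ ⊥ → ∀ H, M ≤ H → Cd H → ∃ N : Subgroup G,
    N.Normal ∧ Cm H N

variable {G}

lemma relIndex_cj_inf {H : Subgroup G} (hH : Cd H) (E : Finset G) :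
    (E.inf fun e => cj e⁻¹ H).relIndex H ≠ 0 := by
  classical
  induction E using Finset.induction_on with
  | empty => rw [Finset.inf_empty, relIndex_top_left]; exact one_ne_zero
  | insert e E he ih =>
    rw [Finset.inf_insert]
    exact relIndex_inf_ne_zero (hH _) ih

lemma exists_rist (hyp : Hyp G) {H : Subgroup G} (hH : Cd H) (hinf : Nat.card H = 0) (n : ℕ) :
    ∃ w : W, w.length = n ∧ ∃ x ∈ H, x ∈ Rist G w ∧ x ≠ 1 := by
  by_contra hcon
  push Not at hcon
  obtain ⟨E, hE, m, hm⟩ := hyp.cent n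
  have h0 : (St G m ⊓ (St G n ⊓ (E.inf fun e => cj e⁻¹ H))).relIndex H ≠ 0 :=
    relIndex_inf_ne_zero (relIndex_of_index (St_index m) _)
      (relIndex_inf_ne_zero (relIndex_of_index (St_index n) _) (relIndex_cj_inf hH E))
  have h1 : (St G m ⊓ (St G n ⊓ (E.inf fun e => cj e⁻¹ H))) ⊓ H = ⊥ := by
    rw [eq_bot_iff]
    rintro h ⟨⟨h2, h3, h4⟩, h5⟩
    rw [Subgroup.mem_bot]
    refine hm h h2 fun e he => ?_
    obtain ⟨w, hw, hew⟩ := hE e he
    have h6 : h ∈ cj e⁻¹ H := (Finset.inf_le (f := fun e => cj e⁻¹ H) he) h4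
    rw [mem_cj, inv_inv] at h6
    have h7 : e * h * e⁻¹ * h⁻¹ ∈ H := H.mul_mem h6 (H.inv_mem h5)
    have h8 : h * e⁻¹ * h⁻¹ ∈ Rist G w := by
      have := conj_mem_cj (g := h) ((Rist G w).inv_mem hew)
      rwa [cj_Rist, h3 w hw] at this
    have h9 : e * h * e⁻¹ * h⁻¹ ∈ Rist G w := by
      have := (Rist G w).mul_mem hew h8
      simpa [mul_assoc] using this
    have h10 := hcon w hw _ h7 h9
    have h11 : e * h = h * e := by
      have : e * h * e⁻¹ * h⁻¹ * (h * e) = 1 * (h * e) := by rw [h10]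
      simpa [mul_assoc] using this
    exact h11.symm
  rw [← inf_relIndex_right, h1, relIndex_bot_left] at h0
  exact h0 hinf

/-- case one -/
lemma caseI (hyp : Hyp G) {H : Subgroup G} (hH : Cd H) (hinf : Nat.card H = 0) {S : Finset G}
    (hS1 : ∀ s ∈ S, s⁻¹ ∈ S) (hS2 : closure (S : Set G) = ⊤) {n : ℕ}
    (hn : ∀ s ∈ S, ∀ w : W, w.length = n → ∀ x ∈ H, x ∈ Rist G w → x ∈ cj s H) :
    ∃ M : Subgroup G, M.Normal ∧ M ≠ ⊥ ∧ M ≤ H := by
  let M : Subgroup G := ⨆ (w : W) (_ : w.length = n), H ⊓ Rist G w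
  have hMH : M ≤ H := iSup₂_le fun w _ => inf_le_left
  refine ⟨M, ?_, ?_, hMH⟩
  · refine normal_of_gen hS2 (by simpa using hS1) fun s hs => ?_
    have h1 : M ≤ cj s⁻¹ M := by
      refine iSup₂_le fun w hw => ?_
      rintro x ⟨hx1, hx2⟩
      rw [mem_cj, inv_inv]
      have h2 : s * x * s⁻¹ ∈ H := by
        have := hn s⁻¹ (hS1 s hs) w hw x hx1 hx2
        rwa [mem_cj, inv_inv] at this
      have h3 : s * x * s⁻¹ ∈ Rist G (s • w) := by rw [← cj_Rist]; exact conj_mem_cj hx2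
      have h4 : H ⊓ Rist G (s • w) ≤ M :=
        le_iSup₂_of_le (s • w) (by rw [TreeAct.len, hw]) le_rfl
      exact h4 ⟨h2, h3⟩
    have h5 := cj_mono s h1
    rwa [← cj_mul, mul_inv_cancel, cj_one] at h5
  · obtain ⟨w, hw, x, hx1, hx2, hx3⟩ := exists_rist hyp hH hinf n
    intro h
    have h4 : H ⊓ Rist G w ≤ M := le_iSup₂_of_le w hw le_rfl
    have h5 := h4 ⟨hx1, hx2⟩
    rw [h, Subgroup.mem_bot] at h5
    exact hx3 h5

namespace Lim

variable {H : Subgroup G} (L : Lim H)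
variable (germ : ∀ (g : G) (ξ : ℕ → W) (h : Ray ξ), (∀ j, g • ξ j = ξ j) → g ∈ Zn h)

include germ in
lemma Y_Hp_orbit {h : G} (hh : h ∈ L.Hp) (g : G) :
    L.Y (h * g) (o H) ∈ MulAction.orbit H (L.Y g (o H)) := by
  obtain ⟨p, hp, h1, h2⟩ := L.Hp_approx hh
  obtain ⟨h', hh', h3⟩ := h2 (L.Y g (o H))
  refine ⟨⟨h', hh'⟩, ?_⟩
  show h' • L.Y g (o H) = _
  rw [h3]
  have h4 : h • L.Y g (o H) = L.Y (h * g) (h • o H) := by
    rw [← lamY]
    show _ = h • L.Y g (h⁻¹ • h • o H)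
    rw [inv_smul_smul]
  rw [h4, h1]
  have h5 := L.commP germ (L.Y_mem (h * g)) hp
  have h6 : L.Y (h * g) (p (o H)) = p (L.Y (h * g) (o H)) := congrArg (fun f => f (o H)) h5
  rw [h6]; simp

include germ in
lemma Y_congr {h : G} (hh : h ∈ L.Hp) {g g' : G} (hg : L.Y g (o H) = L.Y g' (o H)) :
    L.Y (h * g) (o H) = L.Y (h * g') (o H) := by
  obtain ⟨p, hp, h1⟩ := L.Hp.inv_mem hh
  have h2 : ∀ g, L.Y (h * g) (o H) = h • p (L.Y g (o H)) := by
    intro g
    rw [← lamY]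
    show h • L.Y g (h⁻¹ • o H) = _
    rw [h1]
    have h5 := L.commP germ (L.Y_mem g) hp
    have h6 : L.Y g (p (o H)) = p (L.Y g (o H)) := congrArg (fun f => f (o H)) h5
    rw [h6]
  rw [h2, h2, hg]

/-- the elements of `Hp` which act trivially on the orbit of the base point under `P` -/
def F : Subgroup G where
  carrier := {h | h ∈ L.Hp ∧ ∀ g, L.Y (h * g) (o H) = L.Y g (o H)}
  mul_mem' := by
    rintro a b ⟨ha, ha'⟩ ⟨hb, hb'⟩
    exact ⟨L.Hp.mul_mem ha hb, fun g => by rw [mul_assoc, ha', hb']⟩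
  one_mem' := ⟨one_mem _, fun g => by rw [one_mul]⟩
  inv_mem' := by
    rintro a ⟨ha, ha'⟩
    exact ⟨L.Hp.inv_mem ha, fun g => by rw [← ha' (a⁻¹ * g), mul_inv_cancel_left]⟩

lemma F_le : L.F ≤ L.Hp := fun _ h => h.1

include germ in
lemma F_index (hfin : (Set.range fun g : G => L.Y g (o H)).Finite) : L.F.relIndex L.Hp ≠ 0 := by
  classical
  set V := Set.range fun g : G => L.Y g (o H) with hV
  have hVf : Finite V := hfin
  have h1 : ∀ v : V, ∃ g : G, L.Y g (o H) = v := fun v => v.2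
  choose r hr using h1
  let f : L.Hp → (V → V) := fun h v => ⟨L.Y (h * r v) (o H), ⟨_, rfl⟩⟩
  have : (L.F.subgroupOf L.Hp).FiniteIndex := by
    rw [Subgroup.finiteIndex_iff_finite_quotient]
    apply Finite.of_injective (β := V → V) (fun x : L.Hp ⧸ (L.F.subgroupOf L.Hp) => f x.out)
    intro x y hxy
    rw [← Quotient.out_eq' x, ← Quotient.out_eq' y]
    apply QuotientGroup.eq.2
    rw [mem_subgroupOf]
    refine ⟨SetLike.coe_mem _, fun g => ?_⟩
    have h2 := congrFun hxy ⟨L.Y g (o H), ⟨g, rfl⟩⟩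
    have h3 : L.Y ((x.out : G) * r ⟨L.Y g (o H), ⟨g, rfl⟩⟩) (o H) =
        L.Y ((y.out : G) * r ⟨L.Y g (o H), ⟨g, rfl⟩⟩) (o H) := congrArg Subtype.val h2
    have h4 : L.Y (r ⟨L.Y g (o H), ⟨g, rfl⟩⟩) (o H) = L.Y g (o H) := hr _
    rw [L.Y_congr germ (x.out).2 h4, L.Y_congr germ (y.out).2 h4] at h3
    have h5 := L.Y_congr germ (L.Hp.inv_mem (x.out).2) h3
    rw [inv_mul_cancel_left] at h5
    rw [h5]
    congr 1
    push_cast
    group
  exact this.index_ne_zero

include germ in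
lemma F_comm {h h' : G} (hh : h ∈ L.F) (hh' : h' ∈ L.F) : ⁅h, h'⁆ ∈ H := by
  have key : ∀ h ∈ L.F, ∀ p ∈ L.P, (lam H h * p * (lam H h)⁻¹) (o H) = p (o H) := by
    intro h hh p hp
    refine closure_induction
      (p := fun p _ => (lam H h * p * (lam H h)⁻¹) (o H) = p (o H)) ?_ ?_ ?_ ?_ hp
    · rintro _ ⟨g, rfl⟩
      rw [lamY]; exact hh.2 g
    · simp
    · intro p q hp hq h1 h2
      have h3 : lam H h * (p * q) * (lam H h)⁻¹ =
          (lam H h * p * (lam H h)⁻¹) * (lam H h * q * (lam H h)⁻¹) := by group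
      rw [h3, Equiv.Perm.mul_apply, h2]
      have h4 := L.commP germ (L.lamP h hp) hq
      have h5 : (lam H h * p * (lam H h)⁻¹) (q (o H)) = q ((lam H h * p * (lam H h)⁻¹) (o H)) :=
        congrArg (fun f => f (o H)) h4
      rw [h5, h1]
      have h6 := L.commP germ hp hq
      exact (congrArg (fun f => f (o H)) h6).symm
    · intro p hp h1
      have h3 : lam H h * p⁻¹ * (lam H h)⁻¹ = (lam H h * p * (lam H h)⁻¹)⁻¹ := by group
      rw [h3, Equiv.Perm.inv_eq_iff_eq]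
      have h4 := L.commP germ (L.lamP h hp) (L.P.inv_mem hp)
      have h5 : (lam H h * p * (lam H h)⁻¹) (p⁻¹ (o H)) =
          p⁻¹ ((lam H h * p * (lam H h)⁻¹) (o H)) := congrArg (fun f => f (o H)) h4
      rw [h5, h1]; simp
  have key2 : ∀ h ∈ L.F, ∀ h' ∈ L.F, ∀ p ∈ L.P, ∀ p' ∈ L.P, h • o H = p (o H) →
      h' • o H = p' (o H) → (h * h') • o H = p (p' (o H)) := by
    intro h hh h' hh' p hp p' hp' h1 h2
    rw [mul_smul, h2]
    have h3 : h • p' (o H) = (lam H h * p' * (lam H h)⁻¹) (h • o H) := by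
      show _ = h • p' (h⁻¹ • h • o H)
      rw [inv_smul_smul]
    rw [h3, h1]
    have h4 := L.commP germ (L.lamP h hp') hp
    have h5 : (lam H h * p' * (lam H h)⁻¹) (p (o H)) = p ((lam H h * p' * (lam H h)⁻¹) (o H)) :=
      congrArg (fun f => f (o H)) h4
    rw [h5, key h hh p' hp']
  have key3 : ∀ h ∈ L.F, ∀ h' ∈ L.F, (h' * h)⁻¹ * (h * h') ∈ H := by
    intro h hh h' hh'
    obtain ⟨p, hp, h1⟩ := hh.1
    obtain ⟨p', hp', h2⟩ := hh'.1
    have h3 := key2 h hh h' hh' p hp p' hp' h1 h2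
    have h4 := key2 h' hh' h hh p' hp' p hp h2 h1
    have h5 : p (p' (o H)) = p' (p (o H)) := congrArg (fun f => f (o H)) (L.commP germ hp hp')
    rw [← smul_o_eq_iff, mul_smul, inv_smul_eq_iff, h3, h4, h5]
  have := key3 h⁻¹ (L.F.inv_mem hh) h'⁻¹ (L.F.inv_mem hh')
  rw [commutatorElement_def]
  convert this using 1
  group

include germ in
/-- the conjugates of the limit move the base point to finitely many points -/
lemma range_finite (hH : Cd H) {N : Subgroup G} (hN : N.Normal) (hc : Cm L.Hp N)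
    (hz : (N ⊔ Zn L.ray).index ≠ 0) : (Set.range fun g : G => L.Y g (o H)).Finite := by
  classical
  have hQ : (N ⊔ Zn L.ray).FiniteIndex := ⟨hz⟩
  have hQ' : Finite (G ⧸ (N ⊔ Zn L.ray)) := Subgroup.finiteIndex_iff_finite_quotient.1 hQ
  have hK : ((L.Hp ⊓ N).subgroupOf N).FiniteIndex := ⟨by
    have := hc.1
    rw [← inf_relIndex_right] at this
    exact this⟩
  have hK' : Finite (N ⧸ (L.Hp ⊓ N).subgroupOf N) := Subgroup.finiteIndex_iff_finite_quotient.1 hK
  have hcover : (Set.range fun g : G => L.Y g (o H)) ⊆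
      ⋃ (a : G ⧸ (N ⊔ Zn L.ray)), ⋃ (b : N ⧸ (L.Hp ⊓ N).subgroupOf N),
        MulAction.orbit H (L.Y ((b.out : G)⁻¹ * a.out) (o H)) := by
    rintro _ ⟨g, rfl⟩
    have h1 : ((g : G ⧸ (N ⊔ Zn L.ray)).out)⁻¹ * g ∈ N ⊔ Zn L.ray := by
      rw [← QuotientGroup.eq]; exact Quotient.out_eq' _
    set r := (g : G ⧸ (N ⊔ Zn L.ray)).out with hr
    rw [← SetLike.mem_coe, Subgroup.normal_mul] at h1
    obtain ⟨n, hn, z, hzz, hnz⟩ := h1
    have hn' : r * n * r⁻¹ ∈ N := hN.conj_mem n hn r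
    let c : N := ⟨(r * n * r⁻¹)⁻¹, N.inv_mem hn'⟩
    have h2 : ((c : N ⧸ (L.Hp ⊓ N).subgroupOf N).out)⁻¹ * c ∈ (L.Hp ⊓ N).subgroupOf N := by
      rw [← QuotientGroup.eq]; exact Quotient.out_eq' _
    set t := (c : N ⧸ (L.Hp ⊓ N).subgroupOf N).out with ht
    rw [mem_subgroupOf] at h2
    have h3 := L.Hp.inv_mem h2.1
    rw [Set.mem_iUnion]
    refine ⟨(g : G ⧸ (N ⊔ Zn L.ray)), ?_⟩
    rw [Set.mem_iUnion]
    refine ⟨(c : N ⧸ (L.Hp ⊓ N).subgroupOf N), ?_⟩
    rw [← hr, ← ht]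
    have h4 := L.Y_Hp_orbit germ h3 ((t : G)⁻¹ * r)
    have h5 : g = ((t⁻¹ * c : N) : G)⁻¹ * ((t : G)⁻¹ * r) * z := by
      have h6 : g = r * (n * z) := by
        have : n * z = r⁻¹ * g := hnz
        rw [this]; group
      rw [h6]
      push_cast
      show _ = ((t : G)⁻¹ * (r * n * r⁻¹)⁻¹)⁻¹ * ((t : G)⁻¹ * r) * z
      group
    have h7 : L.Y g = L.Y (((t⁻¹ * c : N) : G)⁻¹ * ((t : G)⁻¹ * r)) := by
      rw [h5]; exact L.Y_mul_of_triv hzz
    show L.Y g (o H) ∈ _
    rw [h7]; exact h4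
  refine Set.Finite.subset ?_ hcover
  exact Set.finite_iUnion fun a => Set.finite_iUnion fun b => orbit_finite hH _

end Lim

/-- A commensurated subgroup which contains, up to finite index, a nontrivial normal subgroup is
commensurate to a normal subgroup. -/
lemma of_normal (hyp : Hyp G) {H M : Subgroup G} (hH : Cd H) (hM : M.Normal) (hM1 : M ≠ ⊥)
    (h : H.relIndex M ≠ 0) : ∃ N : Subgroup G, N.Normal ∧ Cm H N := by
  have h1 : Cm H (H ⊔ M) := Cm.of_le le_sup_left (relIndex_sup_normal hM h)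
  obtain ⟨N, hN, h2⟩ := hyp.poly M hM hM1 (H ⊔ M) le_sup_right (hH.of_cm h1)
  exact ⟨N, hN, h1.trans h2⟩

/-- from one vertex to a normal subgroup -/
lemma of_vertex {H N : Subgroup G} (hH : Cd H) (hN : N.Normal) (u : W)
    (h : D (D (N ⊓ Rist G u)) ≤ H) (h1 : D (D (N ⊓ Rist G u)) ≠ ⊥) :
    ∃ M : Subgroup G, M.Normal ∧ M ≠ ⊥ ∧ H.relIndex M ≠ 0 := by
  classical
  let Mv : W → Subgroup G := fun v => D (D (N ⊓ Rist G v))
  have hcj : ∀ (g : G) (v : W), cj g (Mv v) = Mv (g • v) := by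
    intro g v
    show cj g (D (D (N ⊓ Rist G v))) = _
    rw [cj_D, cj_D]
    congr 2
    unfold cj
    rw [map_inf _ _ _ (MulAut.conj g).injective]
    congr 1
    · exact cj_normal hN g
    · exact cj_Rist g v
  have hfin : (MulAction.orbit G u).Finite := by
    refine (level_finite u.length).subset ?_
    rintro _ ⟨g, rfl⟩
    exact TreeAct.len g u
  refine ⟨hfin.toFinset.sup Mv, ?_, ?_, ?_⟩
  · apply normal_of_cj_le
    intro g
    have h2 : hfin.toFinset.sup Mv ≤ cj g⁻¹ (hfin.toFinset.sup Mv) := by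
      refine Finset.sup_le fun v hv => ?_
      have h3 : Mv (g • v) ≤ hfin.toFinset.sup Mv := by
        apply Finset.le_sup (f := Mv)
        rw [Set.Finite.mem_toFinset] at *
        exact (MulAction.smul_orbit g u ▸ Set.smul_mem_smul_set hv : g • v ∈ MulAction.orbit G u)
      rw [← hcj] at h3
      have h4 := cj_mono g⁻¹ h3
      rwa [← cj_mul, inv_mul_cancel, cj_one] at h4
    have h5 := cj_mono g h2
    rwa [← cj_mul, mul_inv_cancel, cj_one] at h5
  · intro h2
    apply h1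
    rw [eq_bot_iff, ← h2]
    exact Finset.le_sup (f := Mv) (by rw [Set.Finite.mem_toFinset]; exact MulAction.mem_orbit_self u)
  · apply relIndex_sup_of_comm'
    · intro v hv v' hv' hne a ha c hc
      rw [Set.Finite.mem_toFinset] at hv hv'
      obtain ⟨g, rfl⟩ := hv
      obtain ⟨g', rfl⟩ := hv'
      have h2 : ∀ v, Mv v ≤ Rist G v := fun v => ((D_le _).trans (D_le _)).trans inf_le_right
      exact comm_Rist' (by
        show (g • u).length = (g' • u).length
        rw [TreeAct.len, TreeAct.len]) hne (h2 _ ha) (h2 _ hc)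
    · intro v hv
      rw [Set.Finite.mem_toFinset] at hv
      obtain ⟨g, rfl⟩ := hv
      show H.relIndex (Mv (g • u)) ≠ 0
      rw [← hcj]
      exact relIndex_ne_zero_mono_right (cj_mono g h) (hH.cm g).2

/-- the abstract theorem -/
theorem abstract_main (hyp : Hyp G) {H : Subgroup G} (hH : Cd H) :
    ∃ N : Subgroup G, N.Normal ∧ Cm H N := by
  classical
  obtain ⟨S, hS1, hS2⟩ := hyp.fg
  obtain ⟨m, hm⟩ : ∃ m, m = ∑ s ∈ S, (cj s H).relIndex H := ⟨_, rfl⟩
  induction m using Nat.strong_induction_on generalizing H with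
  | _ m ih =>
    by_cases hinf : Nat.card H = 0
    swap
    · refine ⟨⊥, inferInstance, ?_, ?_⟩
      · rw [relIndex_bot_right]; exact one_ne_zero
      · rwa [relIndex_bot_left]
    by_cases hcase : ∃ n, ∀ s ∈ S, ∀ w : W, w.length = n → ∀ x ∈ H, x ∈ Rist G w → x ∈ cj s H
    · obtain ⟨n, hn⟩ := hcase
      obtain ⟨M, hM, hM1, hM2⟩ := caseI hyp hH hinf hS1 hS2 hn
      refine of_normal hyp hH hM hM1 ?_
      rw [relIndex_eq_one.2 hM2]; exact one_ne_zero
    · push Not at hcase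
      choose s hsS w hw k hkH hkR hks using hcase
      obtain ⟨L, t, htS, ht⟩ := exists_lim hH k w hkH hkR hw S s hsS hks
      have hlt : ∑ s ∈ S, (cj s L.Hp).relIndex L.Hp < ∑ s ∈ S, (cj s H).relIndex H :=
        Finset.sum_lt_sum (fun s _ => L.relIndex_le hH s) ⟨t, htS, L.relIndex_lt hH ht⟩
      obtain ⟨N, hN, hc⟩ := ih _ (hm ▸ hlt) (L.Hp_cd hH) rfl
      have hcard : Nat.card L.Hp = 0 := by
        by_contra h0
        have : (⊥ : Subgroup G).relIndex H ≠ 0 :=
          relIndex_ne_zero_mono_right L.le_Hp (by rwa [relIndex_bot_left])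
        rw [relIndex_bot_left] at this
        exact this hinf
      have hNcard : Nat.card N = 0 := by
        by_contra h0
        exact (hc.finite_iff.2 h0) hcard
      have hN1 : N ≠ ⊥ := by
        rintro rfl
        simp at hNcard
      have hfin := L.range_finite hyp.germ hH hN hc (hyp.zfin N hN hN1 _ _)
      have hF1 := L.F_index hyp.germ hfin
      have hF2 : L.F.relIndex N ≠ 0 := relIndex_ne_zero_trans hF1 hc.1
      -- the core of `F ∩ N` in `N`
      set C0 : Subgroup N := (L.F.subgroupOf N).normalCore with hC0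
      have hC0i : C0.FiniteIndex := by
        have : (L.F.subgroupOf N).FiniteIndex := ⟨hF2⟩
        infer_instance
      have hCne : ∃ f ∈ C0, f ≠ 1 := by
        by_contra hcon
        push Not at hcon
        have h1 : C0 = ⊥ := by
          rw [eq_bot_iff]; intro f hf; rw [Subgroup.mem_bot]; exact hcon f hf
        have h2 := hC0i.index_ne_zero
        rw [h1, index_bot] at h2
        exact h2 hNcard
      obtain ⟨f, hf, hf1⟩ := hCne
      obtain ⟨u, hu⟩ : ∃ u : W, (f : G) • u ≠ u := by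
        by_contra hcon
        push Not at hcon
        apply hf1
        apply Subtype.ext
        apply FaithfulSMul.eq_of_smul_eq_smul (α := W)
        intro u
        rw [hcon u]; simp
      have hC1 : ∀ x ∈ C0, (x : G) ∈ L.F := fun x hx => by
        have := normalCore_le _ hx
        rwa [mem_subgroupOf] at this
      have h1 : D (N ⊓ Rist G u) ≤ C0.map N.subtype := by
        refine comm_le_of_moved (F := C0.map N.subtype) inf_le_right ?_ (f := (f : G))
          ⟨f, hf, rfl⟩ hu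
        rintro k ⟨hk1, hk2⟩ _ ⟨c, hc1, rfl⟩
        refine ⟨⟨k, hk1⟩ * c * ⟨k, hk1⟩⁻¹, ?_, rfl⟩
        exact (normalCore_normal _).conj_mem c hc1 _
      have h2 : D (D (N ⊓ Rist G u)) ≤ H := by
        unfold D at h1 ⊢
        rw [commutator_le]
        intro p hp q hq
        obtain ⟨p', hp', rfl⟩ := h1 hp
        obtain ⟨q', hq', rfl⟩ := h1 hq
        exact L.F_comm hyp.germ (hC1 p' hp') (hC1 q' hq')
      have h3 : D (D (N ⊓ Rist G u)) ≠ ⊥ := by
        intro h0
        apply hyp.nonsolv u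
        rw [eq_bot_iff, ← h0]
        apply D_mono
        apply D_mono
        refine le_inf ?_ (D_le _)
        exact comm_le_of_moved (F := N) le_rfl (fun k _ f hf => hN.conj_mem f hf k) f.2 hu
      obtain ⟨M, hM, hM1, hM2⟩ := of_vertex hH hN u h2 h3
      exact of_normal hyp hH hM hM1 hM2

end Pool.Agent.KS6_52.Bas
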