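import Pool.Agent.KS6_52.Bas.Poly

/-!
# Commensurated subgroups and steps of a normal series, II
-/

namespace Pool.Agent.KS6_52.Bas

open Subgroup
open scoped commutatorElement

universe u

variable {G : Type u} [Group G]

/-- every commensurated subgroup which contains `A` has a normal subgroup of finite index which
contains `A` -/
def PP (A : Subgroup G) : Prop :=
  ∀ H : Subgroup G, A ≤ H → Cd H → ∃ N : Subgroup G, N.Normal ∧ A ≤ N ∧ N ≤ H ∧ N.relIndex H ≠ 0

/-- every subgroup which contains `A` is finitely generated modulo `A` -/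
def FGm (A : Subgroup G) : Prop :=
  ∀ U : Subgroup G, A ≤ U → ∃ F : Finset G, (F : Set G) ⊆ U ∧ U ≤ closure (F : Set G) ⊔ A

/-- `K / L` is abelian, generated by a finite set which is permuted by `G` -/
structure Step (L K : Subgroup G) : Prop where
  nL : L.Normal
  nK : K.Normal
  le : L ≤ K
  comm : ⁅K, K⁆ ≤ L
  gen : ∃ X : Finset G, (∀ x ∈ X, x ∈ K) ∧ K ≤ closure (X : Set G) ⊔ L ∧
    ∀ g : G, ∀ x ∈ X, ∃ x' ∈ X, x'⁻¹ * (g * x * g⁻¹) ∈ L

lemma FGm_step {L K : Subgroup G} (hs : Step L K) (hK : FGm K) : FGm L := by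
  classical
  intro U hU
  obtain ⟨F, hF1, hF2⟩ := hK (U ⊔ K) le_sup_right
  have h1 : ∀ f : G, ∃ u : G, f ∈ F → u ∈ U ∧ u⁻¹ * f ∈ K := by
    intro f
    by_cases hf : f ∈ F
    · obtain ⟨u, hu, k, hk, h⟩ := mem_sup_normal hs.nK (hF1 hf)
      exact ⟨u, fun _ => ⟨hu, by rw [h]; simpa using hk⟩⟩
    · exact ⟨1, fun h => absurd h hf⟩
  choose r hr using h1
  obtain ⟨X, hX1, hX2, hX3⟩ := hs.gen
  obtain ⟨F', hF1', hF2'⟩ := sub_fg hs.comm hs.le (X := X) hX1 hX2 (V := U ⊓ K) inf_le_right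
  refine ⟨F.image r ∪ F', ?_, ?_⟩
  · intro x hx
    rw [Finset.coe_union, Set.mem_union, Finset.coe_image] at hx
    rcases hx with ⟨f, hf, rfl⟩ | hx
    · exact (hr f hf).1
    · exact (hF1' hx).1
  · intro u hu
    have h2 : closure (F : Set G) ⊔ K ≤ closure ((F.image r : Finset G) : Set G) ⊔ K := by
      refine sup_le ?_ le_sup_right
      rw [closure_le]
      intro f hf
      obtain ⟨h3, h4⟩ := hr f hf
      have h5 : f = r f * ((r f)⁻¹ * f) := by group
      rw [h5]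
      refine (Subgroup.closure _ ⊔ K).mul_mem (le_sup_left (α := Subgroup G) (subset_closure ?_))
        (le_sup_right (α := Subgroup G) h4)
      rw [Finset.coe_image]; exact ⟨f, hf, rfl⟩
    have h6 := h2 (hF2 (le_sup_left (α := Subgroup G) hu))
    obtain ⟨v, hv, k, hk, huv⟩ := mem_sup_normal hs.nK h6
    have hvU : v ∈ U := by
      have : closure ((F.image r : Finset G) : Set G) ≤ U := by
        rw [closure_le, Finset.coe_image]
        rintro _ ⟨f, hf, rfl⟩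
        exact (hr f hf).1
      exact this hv
    have hkU : k ∈ U ⊓ K := ⟨by
      have : k = v⁻¹ * u := by rw [huv]; group
      rw [this]; exact U.mul_mem (U.inv_mem hvU) hu, hk⟩
    rw [huv]
    refine (Subgroup.closure _ ⊔ L).mul_mem (le_sup_left (α := Subgroup G) (Subgroup.closure_mono ?_ hv)) ?_
    · rw [Finset.coe_union]; exact Set.subset_union_left
    · have h7 : closure (F' : Set G) ⊔ L ≤ closure ((F.image r ∪ F' : Finset G) : Set G) ⊔ L := by
        refine sup_le_sup_right (Subgroup.closure_mono ?_) _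
        rw [Finset.coe_union]; exact Set.subset_union_right
      exact h7 (hF2' hkU)

/-- the centralizer of `K` modulo `L` -/
def cent (L K : Subgroup G) [L.Normal] : Subgroup G where
  carrier := {g | ∀ x ∈ K, (g : G ⧸ L) * (x : G ⧸ L) = (x : G ⧸ L) * (g : G ⧸ L)}
  mul_mem' := by
    intro a b ha hb x hx
    rw [QuotientGroup.mk_mul, mul_assoc, hb x hx, ← mul_assoc, ha x hx, mul_assoc]
  one_mem' := by
    intro x _
    simp
  inv_mem' := by
    intro a ha x hx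
    rw [QuotientGroup.mk_inv, inv_mul_eq_iff_eq_mul, ← mul_assoc, ha x hx, mul_inv_cancel_right]

lemma cent_normal (L K : Subgroup G) [L.Normal] (hK : K.Normal) : (cent L K).Normal := by
  refine ⟨fun g hg a x hx => ?_⟩
  have h1 := hg _ (hK.conj_mem x hx a⁻¹)
  rw [inv_inv] at h1
  have h2 : (a : G ⧸ L) * ((g : G ⧸ L) * ((a⁻¹ * x * a : G) : G ⧸ L)) * (a : G ⧸ L)⁻¹ =
      (a : G ⧸ L) * (((a⁻¹ * x * a : G) : G ⧸ L) * (g : G ⧸ L)) * (a : G ⧸ L)⁻¹ := by rw [h1]
  simp only [QuotientGroup.mk_mul, QuotientGroup.mk_inv] at h2 ⊢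
  calc (a : G ⧸ L) * g * (a : G ⧸ L)⁻¹ * x
      = (a : G ⧸ L) * ((g : G ⧸ L) * ((a : G ⧸ L)⁻¹ * x * a)) * (a : G ⧸ L)⁻¹ := by group
    _ = _ := h2
    _ = _ := by group

lemma mk_conj_eq {L : Subgroup G} [L.Normal] {x' y : G} (h : x'⁻¹ * y ∈ L) :
    (y : G ⧸ L) = (x' : G ⧸ L) := (QuotientGroup.eq.2 h).symm

lemma cent_index {L K : Subgroup G} [L.Normal] (hs : Step L K) : (cent L K).index ≠ 0 := by
  classical
  obtain ⟨X, hX1, hX2, hX3⟩ := hs.gen
  have h1 : ∀ (g : G) (x : X), ∃ x' : X, (x' : G)⁻¹ * (g * x * g⁻¹) ∈ L := by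
    rintro g ⟨x, hx⟩
    obtain ⟨x', hx', h⟩ := hX3 g x hx
    exact ⟨⟨x', hx'⟩, h⟩
  choose f hf using h1
  have : (cent L K).FiniteIndex := by
    rw [Subgroup.finiteIndex_iff_finite_quotient]
    apply Finite.of_injective (β := X → X) (fun y : G ⧸ (cent L K) => f y.out)
    intro y z hyz
    rw [← Quotient.out_eq' y, ← Quotient.out_eq' z]
    apply QuotientGroup.eq.2
    set g := y.out
    set g' := z.out
    -- commutes with the generators
    let T : Subgroup G := (centralizer {((g⁻¹ * g' : G) : G ⧸ L)}).comap (QuotientGroup.mk' L)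
    have key : closure (X : Set G) ⊔ L ≤ T := by
      refine sup_le ?_ ?_
      · rw [closure_le]
        intro x hx
        have h2 := mk_conj_eq (hf g ⟨x, hx⟩)
        have h3 := mk_conj_eq (hf g' ⟨x, hx⟩)
        have h4 : f g = f g' := hyz
        rw [← h4, ← h2] at h3
        show QuotientGroup.mk' L x ∈ centralizer _
        rw [mem_centralizer_singleton_iff]
        simp only [QuotientGroup.mk_mul, QuotientGroup.mk_inv, QuotientGroup.mk'_apply] at h3 ⊢
        calc (x : G ⧸ L) * ((g : G ⧸ L)⁻¹ * g')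
            = (g : G ⧸ L)⁻¹ * ((g : G ⧸ L) * x * (g : G ⧸ L)⁻¹) * g' := by group
          _ = (g : G ⧸ L)⁻¹ * g' * x := by rw [← h3]; group
      · intro x hx
        show QuotientGroup.mk' L x ∈ centralizer _
        rw [mem_centralizer_singleton_iff, QuotientGroup.mk'_apply,
          (QuotientGroup.eq_one_iff x).2 hx]
        simp
    intro x hx
    have h2 := key (hX2 hx)
    have h3 : QuotientGroup.mk' L x ∈ centralizer _ := h2
    rw [mem_centralizer_singleton_iff, QuotientGroup.mk'_apply] at h3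
    exact h3.symm
  exact this.index_ne_zero

lemma le_cent {L K : Subgroup G} [L.Normal] (h : ⁅K, K⁆ ≤ L) : K ≤ cent L K := by
  intro a ha x hx
  rw [← QuotientGroup.mk_mul, ← QuotientGroup.mk_mul, QuotientGroup.eq]
  have h1 := h (commutator_mem_commutator (K.inv_mem hx) (K.inv_mem ha))
  rw [commutatorElement_def] at h1
  simpa [mul_assoc] using h1

lemma L_le_cent {L K : Subgroup G} [L.Normal] : L ≤ cent L K := by
  intro a ha x _
  rw [(QuotientGroup.eq_one_iff a).2 ha]; simp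

/-- the power of a product, for elements which commute modulo `L` -/
lemma mul_pow_mem {L H : Subgroup G} [L.Normal] (hLH : L ≤ H) {h a : G}
    (hc : (h : G ⧸ L) * (a : G ⧸ L) = (a : G ⧸ L) * (h : G ⧸ L)) (k : ℕ) :
    (h * a) ^ k ∈ H ↔ h ^ k * a ^ k ∈ H := by
  have h1 : (((h * a) ^ k : G) : G ⧸ L) = ((h ^ k * a ^ k : G) : G ⧸ L) := by
    rw [QuotientGroup.mk_pow, QuotientGroup.mk_mul, QuotientGroup.mk_mul, QuotientGroup.mk_pow,
      QuotientGroup.mk_pow]
    exact (show Commute (h : G ⧸ L) (a : G ⧸ L) from hc).mul_pow k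
  rw [QuotientGroup.eq] at h1
  constructor
  · intro h2
    have := H.mul_mem h2 (hLH h1)
    rwa [mul_inv_cancel_left] at this
  · intro h2
    have := H.mul_mem h2 (H.inv_mem (hLH h1))
    rw [mul_inv_rev, inv_inv, mul_inv_cancel_left] at this
    exact this

lemma Cd.sup_normal {H K : Subgroup G} (hH : Cd H) (hK : K.Normal) : Cd (H ⊔ K) := by
  intro g
  have h1 : cj g (H ⊔ K) = cj g H ⊔ K := by
    conv_rhs => rw [← cj_normal hK g]
    unfold cj
    rw [Subgroup.map_sup]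
  rw [h1]
  have h2 : (cj g H ⊔ K).relIndex H ≠ 0 := relIndex_ne_zero_mono_left le_sup_left (hH g)
  rw [relIndex_ne_zero_iff] at *
  refine h2.subset ?_
  rintro x ⟨a, ha, rfl⟩
  obtain ⟨h, hh, k, hk, rfl⟩ := mem_sup_normal hK ha
  refine ⟨h, hh, ?_⟩
  rw [mul_smul]
  congr 1
  rw [smul_mk, mul_one, QuotientGroup.eq]
  simpa using (le_sup_right (α := Subgroup G) hk : k ∈ cj g H ⊔ K)

/-- the roots of `H` in `K` -/
def roots (L K H : Subgroup G) [L.Normal] (hK : ⁅K, K⁆ ≤ L) (hLH : L ≤ H) : Subgroup G where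
  carrier := {a | a ∈ K ∧ ∃ k : ℕ, 0 < k ∧ a ^ k ∈ H}
  mul_mem' := by
    rintro a b ⟨ha, k, hk, hak⟩ ⟨hb, l, hl, hbl⟩
    refine ⟨K.mul_mem ha hb, k * l, Nat.mul_pos hk hl, ?_⟩
    rw [mul_pow_mem hLH (le_cent hK ha b hb)]
    refine H.mul_mem ?_ ?_
    · rw [pow_mul]; exact H.pow_mem hak _
    · rw [mul_comm, pow_mul]; exact H.pow_mem hbl _
  one_mem' := ⟨K.one_mem, 1, one_pos, by simp⟩
  inv_mem' := by
    rintro a ⟨ha, k, hk, hak⟩
    exact ⟨K.inv_mem ha, k, hk, by rw [inv_pow]; exact H.inv_mem hak⟩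

theorem PP_step {L K : Subgroup G} (hs : Step L K) (hK : PP K) (hFL : FGm L) : PP L := by
  classical
  have := hs.nL
  intro H hLH hH
  obtain ⟨M, hM, hKM, hMH, hMi⟩ := hK (H ⊔ K) le_sup_right (hH.sup_normal hs.nK)
  let C := cent L K
  have hC : C.Normal := cent_normal L K hs.nK
  have hCi : C.index ≠ 0 := cent_index hs
  have hKC : K ≤ C := le_cent hs.comm
  let I := roots L K H hs.comm hLH
  have hIK : I ≤ K := fun a ha => ha.1
  have hLI : L ≤ I := fun a ha => ⟨hs.le ha, 1, one_pos, by simpa using hLH ha⟩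
  have hIn : I.Normal := by
    refine ⟨fun a ha g => ⟨hs.nK.conj_mem a ha.1 g, ?_⟩⟩
    obtain ⟨-, k, hk, hak⟩ := ha
    have h1 : g * a ^ k * g⁻¹ ∈ cj g H := conj_mem_cj hak
    obtain ⟨n, hn, -, h2⟩ := exists_pow_mem_of_relIndex_ne_zero (hH.cm g).2 h1
    refine ⟨k * n, Nat.mul_pos hk hn, ?_⟩
    have h3 := h2.1
    rw [← conj_pow, ← pow_mul] at h3
    exact h3
  let H0 := H ⊓ (M ⊓ C)
  have hLH0 : L ≤ H0 := le_inf hLH (le_inf (hs.le.trans hKM) (hs.le.trans hKC))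
  let R := H0 ⊔ I
  -- decomposition of the elements of `M ⊓ C`
  have hdec : ∀ x ∈ M ⊓ C, ∀ k : ℕ, 0 < k → x ^ k ∈ H → x ∈ R := by
    rintro x ⟨hx1, hx2⟩ k hk hxk
    obtain ⟨h, hh, a, ha, rfl⟩ := mem_sup_normal hs.nK (hMH hx1)
    have hhM : h ∈ M := by
      have := M.mul_mem hx1 (M.inv_mem (hKM ha))
      rwa [mul_inv_cancel_right] at this
    have hhC : h ∈ C := by
      have := C.mul_mem hx2 (C.inv_mem (hKC ha))
      rwa [mul_inv_cancel_right] at this
    rw [mul_pow_mem hLH (hhC a ha)] at hxk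
    have h1 : a ^ k ∈ H := by
      have := H.mul_mem (H.inv_mem (H.pow_mem hh k)) hxk
      rwa [inv_mul_cancel_left] at this
    exact R.mul_mem (le_sup_left (α := Subgroup G) (show h ∈ H0 from ⟨hh, hhM, hhC⟩))
      (le_sup_right (α := Subgroup G) (show a ∈ I from ⟨ha, k, hk, h1⟩))
  have hRMC : R ≤ M ⊓ C := sup_le inf_le_right (hIK.trans (le_inf hKM hKC))
  have hRpow : ∀ x ∈ R, ∃ k : ℕ, 0 < k ∧ x ^ k ∈ H := by
    intro x hx
    obtain ⟨h, hh, a, ha, rfl⟩ := mem_sup_normal hIn hx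
    obtain ⟨haK, k, hk, hak⟩ := ha
    refine ⟨k, hk, ?_⟩
    rw [mul_pow_mem hLH (hh.2.2 a haK)]
    exact H.mul_mem (H.pow_mem hh.1 k) hak
  have hRn : R.Normal := by
    refine ⟨fun x hx g => ?_⟩
    obtain ⟨k, hk, hxk⟩ := hRpow x hx
    have h1 : g * x ^ k * g⁻¹ ∈ cj g H := conj_mem_cj hxk
    obtain ⟨n, hn, -, h2⟩ := exists_pow_mem_of_relIndex_ne_zero (hH.cm g).2 h1
    have h3 := h2.1
    rw [← conj_pow, ← pow_mul] at h3
    refine hdec _ ?_ (k * n) (Nat.mul_pos hk hn) h3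
    exact ⟨hM.conj_mem _ (hRMC hx).1 g, hC.conj_mem _ (hRMC hx).2 g⟩
  -- index of `H0` in `R`
  obtain ⟨X, hX1, hX2, hX3⟩ := hs.gen
  have hIfin : (I ⊓ H).relIndex I ≠ 0 := by
    obtain ⟨F, hF1, hF2⟩ := sub_fg hs.comm hs.le (X := X) hX1 hX2 (V := I) hIK
    refine torsion_finite (X := F) ?_ inf_le_left hF1 ?_ ?_
    · refine le_inf ?_ ?_
      · exact ((commutator_mono hIK hIK).trans hs.comm).trans hLI
      · exact ((commutator_mono hIK hIK).trans hs.comm).trans hLH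
    · exact hF2.trans (sup_le_sup_left (le_inf hLI hLH) _)
    · rintro a ha
      obtain ⟨k, hk, hak⟩ := ha.2
      exact ⟨k, hk, I.pow_mem ha k, hak⟩
  have hH0I : H0.relIndex I ≠ 0 := by
    have h1 : H0 ⊓ I = I ⊓ H := by
      ext x
      constructor
      · rintro ⟨hx1, hx2⟩; exact ⟨hx2, hx1.1⟩
      · rintro ⟨hx1, hx2⟩; exact ⟨⟨hx2, hKM (hIK hx1), hKC (hIK hx1)⟩, hx1⟩
    rw [← inf_relIndex_right, h1]; exact hIfin
  have hH0R : H0.relIndex R ≠ 0 := relIndex_sup_normal hIn hH0I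
  -- commutators of `R`
  have hRcomm : ⁅R, R⁆ ≤ H0 := by
    rw [commutator_le]
    intro x hx y hy
    obtain ⟨h, hh, a, ha, rfl⟩ := mem_sup_normal hIn hx
    obtain ⟨h', hh', a', ha', rfl⟩ := mem_sup_normal hIn hy
    have e1 : Commute (h : G ⧸ L) (a : G ⧸ L) := hh.2.2 a ha.1
    have e2 : Commute (h : G ⧸ L) (a' : G ⧸ L) := hh.2.2 a' ha'.1
    have e3 : Commute (h' : G ⧸ L) (a : G ⧸ L) := hh'.2.2 a ha.1
    have e4 : Commute (h' : G ⧸ L) (a' : G ⧸ L) := hh'.2.2 a' ha'.1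
    have e5 : Commute (a : G ⧸ L) (a' : G ⧸ L) := hKC ha.1 a' ha'.1
    have h1 : ((⁅h * a, h' * a'⁆ : G) : G ⧸ L) = ((⁅h, h'⁆ : G) : G ⧸ L) := by
      simp only [commutatorElement_def, QuotientGroup.mk_mul, QuotientGroup.mk_inv]
      generalize (h : G ⧸ L) = p at *
      generalize (h' : G ⧸ L) = p' at *
      generalize (a : G ⧸ L) = q at *
      generalize (a' : G ⧸ L) = q' at *
      calc p * q * (p' * q') * (p * q)⁻¹ * (p' * q')⁻¹
          = p * (q * p') * q' * (q⁻¹ * p⁻¹) * (q'⁻¹ * p'⁻¹) := by group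
        _ = p * (p' * q) * q' * (q⁻¹ * p⁻¹) * (q'⁻¹ * p'⁻¹) := by rw [e3.eq]
        _ = p * p' * (q * q') * q⁻¹ * p⁻¹ * (q'⁻¹ * p'⁻¹) := by group
        _ = p * p' * (q' * q) * q⁻¹ * p⁻¹ * (q'⁻¹ * p'⁻¹) := by rw [e5.eq]
        _ = p * p' * q' * (p⁻¹ * q'⁻¹) * p'⁻¹ := by group
        _ = p * p' * q' * (q'⁻¹ * p⁻¹) * p'⁻¹ := by rw [(e2.inv_inv).eq]
        _ = p * p' * p⁻¹ * p'⁻¹ := by group
    rw [eq_comm, QuotientGroup.eq] at h1
    have h2 := H0.mul_mem (H0.mul_mem (H0.mul_mem (H0.mul_mem hh hh') (H0.inv_mem hh))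
      (H0.inv_mem hh')) (hLH0 h1)
    rw [← commutatorElement_def, mul_inv_cancel_left] at h2
    exact h2
  set n0 := H0.relIndex R with hn0
  have hpow : ∀ x ∈ R, x ^ n0 ∈ H0 := by
    intro x hx
    have := subgroupOf_normal hRcomm
    have h1 := pow_index_mem (H0.subgroupOf R) ⟨x, hx⟩
    rw [mem_subgroupOf] at h1
    exact h1
  let N : Subgroup G := closure {y | ∃ x ∈ R, y = x ^ n0} ⊔ (⁅R, R⁆ ⊔ L)
  have hNH0 : N ≤ H0 := by
    refine sup_le ?_ (sup_le hRcomm hLH0)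
    rw [closure_le]
    rintro _ ⟨x, hx, rfl⟩
    exact hpow x hx
  have hNn : N.Normal := by
    have h1 : (closure {y | ∃ x ∈ R, y = x ^ n0}).Normal := by
      apply normal_of_cj_le
      intro g
      unfold cj
      rw [MonoidHom.map_closure, closure_le]
      rintro _ ⟨_, ⟨x, hx, rfl⟩, rfl⟩
      apply Subgroup.subset_closure
      refine ⟨g * x * g⁻¹, hRn.conj_mem x hx g, ?_⟩
      rw [conj_pow]
      rfl
    have := hRn
    infer_instance
  obtain ⟨F, hF1, hF2⟩ := hFL R (hLI.trans le_sup_right)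
  have hNR : N.relIndex R ≠ 0 := by
    have hR : R ≤ R := le_rfl
    refine torsion_finite (X := F) ?_ ?_ hF1 ?_ ?_
    · exact le_sup_of_le_right le_sup_left
    · exact hNH0.trans le_sup_left
    · exact hF2.trans (sup_le_sup_left (le_sup_of_le_right le_sup_right) _)
    · intro a ha
      exact ⟨n0, Nat.pos_of_ne_zero hH0R, le_sup_left (α := Subgroup G)
        (Subgroup.subset_closure ⟨a, ha, rfl⟩)⟩
  refine ⟨N, hNn, le_sup_of_le_right le_sup_right, hNH0.trans inf_le_left, ?_⟩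
  have h1 : N.relIndex H0 ≠ 0 := relIndex_ne_zero_mono_right le_sup_left hNR
  have h2 : H0.relIndex H ≠ 0 := by
    rw [show H0 = (M ⊓ C) ⊓ H from inf_comm _ _, inf_relIndex_right]
    exact relIndex_inf_ne_zero (relIndex_ne_zero_mono_right le_sup_left hMi)
      (relIndex_of_index hCi _)
  exact relIndex_ne_zero_trans h1 h2

lemma PP_top : PP (⊤ : Subgroup G) := fun H hH _ => ⟨⊤, inferInstance, le_rfl, hH, by
  rw [top_le_iff.1 hH, relIndex_self]; exact one_ne_zero⟩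

lemma FGm_top : FGm (⊤ : Subgroup G) := fun U _ => ⟨∅, by simp, by simp⟩

end Pool.Agent.KS6_52.Bas
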