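import Pool.Agent.KS6_52.Bas.Defs
import Pool.Agent.KS6_52.Bas.Main
import Pool.Agent.KS6_52.Bas.Step

/-!
# The Basilica group: sections
-/

namespace Pool.Agent.KS6_52.Bas

open Subgroup
open scoped commutatorElement

/-- permutations of the words -/
abbrev Pm := Equiv.Perm (List Bool)

/-- auxiliary -/
def dlF (x : Bool) (z : List Bool → List Bool) : List Bool → List Bool
  | [] => []
  | y :: u => if y = x then y :: z u else y :: u

/-- the permutation which acts as `z` on the subtree of the letter `x` and trivially elsewhere -/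
def dl (x : Bool) (z : Pm) : Pm where
  toFun := dlF x z
  invFun := dlF x z.symm
  left_inv u := by
    cases u with
    | nil => rfl
    | cons y u => by_cases h : y = x <;> simp [dlF, h]
  right_inv u := by
    cases u with
    | nil => rfl
    | cons y u => by_cases h : y = x <;> simp [dlF, h]

@[simp] lemma dl_nil (x : Bool) (z : Pm) : dl x z [] = [] := rfl
@[simp] lemma dl_self (x : Bool) (z : Pm) (u : List Bool) : dl x z (x :: u) = x :: z u := by
  show dlF x z (x :: u) = _
  simp [dlF]
lemma dl_ne {x y : Bool} (h : y ≠ x) (z : Pm) (u : List Bool) : dl x z (y :: u) = y :: u := by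
  show dlF x z (y :: u) = _
  simp [dlF, h]
@[simp] lemma dl_ft (z : Pm) (u : List Bool) : dl false z (true :: u) = true :: u :=
  dl_ne (by decide) z u
@[simp] lemma dl_tf (z : Pm) (u : List Bool) : dl true z (false :: u) = false :: u :=
  dl_ne (by decide) z u

lemma pm_ext {g h : Pm} (h0 : g [] = h []) (h1 : ∀ u, g (false :: u) = h (false :: u))
    (h2 : ∀ u, g (true :: u) = h (true :: u)) : g = h := by
  ext1 u
  cases u with
  | nil => exact h0
  | cons x u => cases x
                · exact h1 u
                · exact h2 u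

lemma dl_mul (x : Bool) (z z' : Pm) : dl x (z * z') = dl x z * dl x z' := by
  cases x <;> exact pm_ext (by simp) (by simp) (by simp)

@[simp] lemma dl_one (x : Bool) : dl x 1 = 1 := by
  cases x <;> exact pm_ext (by simp) (by simp) (by simp)

lemma dl_inv (x : Bool) (z : Pm) : dl x z⁻¹ = (dl x z)⁻¹ := by
  rw [eq_inv_iff_mul_eq_one, ← dl_mul, inv_mul_cancel, dl_one]

lemma dl_inj {x : Bool} {z z' : Pm} (h : dl x z = dl x z') : z = z' := by
  ext1 u
  have := congrArg (fun f : Pm => f (x :: u)) h
  simpa using this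

lemma dl_comm (z z' : Pm) : dl false z * dl true z' = dl true z' * dl false z := by
  exact pm_ext (by simp) (by simp) (by simp)

@[simp] lemma a_nil : a [] = [] := rfl
@[simp] lemma a_f (u : List Bool) : a (false :: u) = false :: u := rfl
@[simp] lemma a_t (u : List Bool) : a (true :: u) = true :: b u := rfl
@[simp] lemma b_nil : b [] = [] := rfl
@[simp] lemma b_f (u : List Bool) : b (false :: u) = true :: u := rfl
@[simp] lemma b_t (u : List Bool) : b (true :: u) = false :: a u := rfl
@[simp] lemma ai_nil : (Equiv.symm a) [] = [] := rfl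
@[simp] lemma ai_f (u : List Bool) : (Equiv.symm a) (false :: u) = false :: u := rfl
@[simp] lemma ai_t (u : List Bool) : (Equiv.symm a) (true :: u) = true :: (Equiv.symm b) u := rfl
@[simp] lemma bi_nil : (Equiv.symm b) [] = [] := rfl
@[simp] lemma bi_t (u : List Bool) : (Equiv.symm b) (true :: u) = false :: u := rfl
@[simp] lemma bi_f (u : List Bool) : (Equiv.symm b) (false :: u) = true :: (Equiv.symm a) u := rfl

lemma a_eq : a = dl true b := pm_ext (by simp) (by simp) (by simp)

lemma R2 (z : Pm) : b * dl false z * b⁻¹ = dl true z := pm_ext (by simp) (by simp) (by simp)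

lemma R3 (z : Pm) : b * dl true z * b⁻¹ = dl false (a * z * a⁻¹) :=
  pm_ext (by simp) (by simp) (by simp)

lemma R4 : b * b = dl false a * dl true a := pm_ext (by simp) (by simp) (by simp)

/-- the commutator `[a, b]` -/
def c : Pm := a * b * a⁻¹ * b⁻¹

lemma c_eq : c = dl false (a * b⁻¹ * a⁻¹) * dl true b := by
  unfold c
  exact pm_ext (by simp) (by simp) (by simp)

@[simp] lemma c_nil : c [] = [] := rfl
@[simp] lemma c_f (u : List Bool) :
    c (false :: u) = false :: a ((Equiv.symm b) ((Equiv.symm a) u)) := by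
  rw [c_eq]; simp
@[simp] lemma c_t (u : List Bool) : c (true :: u) = true :: b u := by
  rw [c_eq]; simp

lemma ac : a * c = c * a := pm_ext (by simp) (by simp) (by simp)

@[simp] lemma ci_nil : (Equiv.symm c) [] = [] := by rw [Equiv.symm_apply_eq]; simp
@[simp] lemma ci_f (u : List Bool) :
    (Equiv.symm c) (false :: u) = false :: a (b ((Equiv.symm a) u)) := by
  rw [Equiv.symm_apply_eq]; simp
@[simp] lemma ci_t (u : List Bool) : (Equiv.symm c) (true :: u) = true :: (Equiv.symm b) u := by
  rw [Equiv.symm_apply_eq]; simp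

lemma bcb : b * c * b⁻¹ = c⁻¹ * (dl true c)⁻¹ := by
  rw [← dl_inv]
  refine pm_ext (by simp) (by simp) ?_
  intro u
  have h : c⁻¹ = b * a * b⁻¹ * a⁻¹ := by unfold c; group
  simp [h]

/-- `[a, b²] = dl true c⁻¹` -/
lemma ab2 : a * (b * b) * a⁻¹ * (b * b)⁻¹ = dl true c⁻¹ := by
  have h : c⁻¹ = b * a * b⁻¹ * a⁻¹ := by unfold c; group
  rw [h, R4, mul_inv_rev, ← dl_inv, ← dl_inv]
  exact pm_ext (by simp) (by simp) (by simp)

/-! ### word length -/

/-- generators and their inverses -/
def gen (s : Pm) : Prop := s = a ∨ s = a⁻¹ ∨ s = b ∨ s = b⁻¹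

/-- products of at most `n` generators -/
inductive WL : ℕ → Pm → Prop
  | one (n : ℕ) : WL n 1
  | mul {n : ℕ} {s g : Pm} : gen s → WL n g → WL (n + 1) (s * g)

lemma WL.mono {n m : ℕ} {g : Pm} (h : WL n g) (hnm : n ≤ m) : WL m g := by
  induction h generalizing m with
  | one n => exact WL.one m
  | mul hs _ ih =>
    obtain ⟨m, rfl⟩ : ∃ m', m = m' + 1 := ⟨m - 1, by omega⟩
    exact WL.mul hs (ih (by omega))

lemma WL.zero {g : Pm} (h : WL 0 g) : g = 1 := by
  generalize hn : 0 = n at h
  cases h with
  | one => rfl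
  | mul => omega

lemma a_mem : a ∈ Basilica := Subgroup.subset_closure (by simp)
lemma b_mem : b ∈ Basilica := Subgroup.subset_closure (by simp)

lemma gen_mem {s : Pm} (h : gen s) : s ∈ Basilica := by
  rcases h with rfl | rfl | rfl | rfl
  · exact a_mem
  · exact inv_mem a_mem
  · exact b_mem
  · exact inv_mem b_mem

lemma WL.mem {n : ℕ} {g : Pm} (h : WL n g) : g ∈ Basilica := by
  induction h with
  | one => exact one_mem _
  | mul hs _ ih => exact mul_mem (gen_mem hs) ih

lemma exists_WL {g : Pm} (h : g ∈ Basilica) : ∃ n, WL n g := by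
  refine Subgroup.closure_induction_left (p := fun g _ => ∃ n, WL n g) ⟨0, WL.one 0⟩ ?_ ?_ h
  · rintro x hx y - ⟨n, hn⟩
    refine ⟨n + 1, WL.mul ?_ hn⟩
    rcases hx with rfl | hx
    · exact Or.inl rfl
    · rw [Set.mem_singleton_iff] at hx; subst hx; exact Or.inr (Or.inr (Or.inl rfl))
  · rintro x hx y - ⟨n, hn⟩
    refine ⟨n + 1, WL.mul ?_ hn⟩
    rcases hx with rfl | hx
    · exact Or.inr (Or.inl rfl)
    · rw [Set.mem_singleton_iff] at hx; subst hx; exact Or.inr (Or.inr (Or.inr rfl))

/-- the sections of an element, with the lengths -/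
lemma WL.sec {n : ℕ} {g : Pm} (h : WL n g) : ∃ (p q : Bool) (g0 g1 : Pm) (n0 n1 : ℕ),
    WL n0 g0 ∧ WL n1 g1 ∧ n0 + n1 ≤ n ∧ p ≠ q ∧ g [] = [] ∧
    (∀ u, g (false :: u) = p :: g0 u) ∧ (∀ u, g (true :: u) = q :: g1 u) := by
  induction h with
  | one n =>
    exact ⟨false, true, 1, 1, 0, 0, WL.one 0, WL.one 0, by omega, by decide, rfl,
      fun u => rfl, fun u => rfl⟩
  | @mul n s g hs _ ih =>
    obtain ⟨p, q, g0, g1, n0, n1, h0, h1, hn, hpq, hnil, hf, ht⟩ := ih
    have ga : gen a := Or.inl rfl
    have gai : gen a⁻¹ := Or.inr (Or.inl rfl)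
    have gb : gen b := Or.inr (Or.inr (Or.inl rfl))
    have gbi : gen b⁻¹ := Or.inr (Or.inr (Or.inr rfl))
    have hpq' : (p = false ∧ q = true) ∨ (p = true ∧ q = false) := by
      cases p <;> cases q <;> simp_all
    rcases hpq' with ⟨rfl, rfl⟩ | ⟨rfl, rfl⟩ <;> rcases hs with rfl | rfl | rfl | rfl
    · exact ⟨false, true, g0, b * g1, n0, n1 + 1, h0, WL.mul gb h1, by omega, by decide,
        by simp [hnil], fun u => by simp [hf], fun u => by simp [ht]⟩
    · exact ⟨false, true, g0, b⁻¹ * g1, n0, n1 + 1, h0, WL.mul gbi h1, by omega, by decide,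
        by simp [hnil], fun u => by simp [hf], fun u => by simp [ht]⟩
    · exact ⟨true, false, g0, a * g1, n0, n1 + 1, h0, WL.mul ga h1, by omega, by decide,
        by simp [hnil], fun u => by simp [hf], fun u => by simp [ht]⟩
    · exact ⟨true, false, a⁻¹ * g0, g1, n0 + 1, n1, WL.mul gai h0, h1, by omega, by decide,
        by simp [hnil], fun u => by simp [hf], fun u => by simp [ht]⟩
    · exact ⟨true, false, b * g0, g1, n0 + 1, n1, WL.mul gb h0, h1, by omega, by decide,
        by simp [hnil], fun u => by simp [hf], fun u => by simp [ht]⟩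
    · exact ⟨true, false, b⁻¹ * g0, g1, n0 + 1, n1, WL.mul gbi h0, h1, by omega, by decide,
        by simp [hnil], fun u => by simp [hf], fun u => by simp [ht]⟩
    · exact ⟨false, true, a * g0, g1, n0 + 1, n1, WL.mul ga h0, h1, by omega, by decide,
        by simp [hnil], fun u => by simp [hf], fun u => by simp [ht]⟩
    · exact ⟨false, true, g0, a⁻¹ * g1, n0, n1 + 1, h0, WL.mul gai h1, by omega, by decide,
        by simp [hnil], fun u => by simp [hf], fun u => by simp [ht]⟩

lemma B_nil {g : Pm} (h : g ∈ Basilica) : g [] = [] := by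
  obtain ⟨n, hn⟩ := exists_WL h
  obtain ⟨p, q, g0, g1, n0, n1, -, -, -, -, hnil, -⟩ := hn.sec
  exact hnil

lemma B_sec {g : Pm} (h : g ∈ Basilica) (x : Bool) :
    ∃ (y : Bool) (k : Pm), k ∈ Basilica ∧ ∀ u, g (x :: u) = y :: k u := by
  obtain ⟨n, hn⟩ := exists_WL h
  obtain ⟨p, q, g0, g1, n0, n1, h0, h1, -, -, -, hf, ht⟩ := hn.sec
  cases x
  · exact ⟨p, g0, h0.mem, hf⟩
  · exact ⟨q, g1, h1.mem, ht⟩

lemma B_len {g : Pm} (h : g ∈ Basilica) (u : List Bool) : (g u).length = u.length := by
  induction u generalizing g with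
  | nil => rw [B_nil h]
  | cons x u ih =>
    obtain ⟨y, k, hk, hs⟩ := B_sec h x
    rw [hs, List.length_cons, List.length_cons, ih hk]

lemma B_pre {g : Pm} (h : g ∈ Basilica) {u v : List Bool} (huv : u <+: v) : g u <+: g v := by
  induction u generalizing g v with
  | nil => rw [B_nil h]; exact List.nil_prefix
  | cons x u ih =>
    obtain ⟨y, k, hk, hs⟩ := B_sec h x
    cases v with
    | nil => simp at huv
    | cons x' v =>
      rw [List.cons_prefix_cons] at huv
      obtain ⟨rfl, huv⟩ := huv
      rw [hs, hs, List.cons_prefix_cons]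
      exact ⟨rfl, ih hk huv⟩

/-- the Basilica group as a type -/
abbrev BG := ↥Basilica

instance : TreeAct BG where
  len g u := B_len g.2 u
  pre g _ _ huv := B_pre g.2 huv

lemma smul_eq (g : BG) (u : W) : g • u = (g : Pm) u := rfl

instance : FaithfulSMul BG W where
  eq_of_smul_eq_smul {_ _} hgh := Subtype.ext (Equiv.ext hgh)

/-- conjugates of `dl x k` -/
lemma conj_dl {g : Pm} (h : g ∈ Basilica) {x y : Bool} {k : Pm} (hs : ∀ u, g (x :: u) = y :: k u)
    (z : Pm) : g * dl x z * g⁻¹ = dl y (k * z * k⁻¹) := by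
  rw [mul_inv_eq_iff_eq_mul]
  ext1 u
  cases u with
  | nil => simp [B_nil h]
  | cons x' u =>
    by_cases hx : x' = x
    · subst hx; simp [hs]
    · obtain ⟨y', k', hk', hs'⟩ := B_sec h x'
      have hy : y' ≠ y := by
        rintro rfl
        -- `g` maps both subtrees into the same
        obtain ⟨n, hn⟩ := exists_WL h
        obtain ⟨p, q, g0, g1, n0, n1, -, -, -, hpq, -, hf, ht⟩ := hn.sec
        have e1 := hs []
        have e2 := hs' []
        cases x <;> cases x'
        · exact hx rfl
        · rw [hf] at e1; rw [ht] at e2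
          exact hpq ((List.cons.inj e1).1.trans (List.cons.inj e2).1.symm)
        · rw [ht] at e1; rw [hf] at e2
          exact hpq ((List.cons.inj e2).1.trans (List.cons.inj e1).1.symm)
        · exact hx rfl
      rw [Equiv.Perm.mul_apply, Equiv.Perm.mul_apply, dl_ne hx, hs', dl_ne hy]

/-- every element is a section of an element which fixes the letter -/
lemma B_lift {h : Pm} (hh : h ∈ Basilica) (x : Bool) :
    ∃ g ∈ Basilica, ∀ u, g (x :: u) = x :: h u := by
  let T : Subgroup Pm :=
    { carrier := {h | ∃ g ∈ Basilica, ∀ u, g (x :: u) = x :: h u}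
      mul_mem' := by
        rintro h h' ⟨g, hg, h1⟩ ⟨g', hg', h2⟩
        exact ⟨g * g', mul_mem hg hg', fun u => by simp [h1, h2]⟩
      one_mem' := ⟨1, one_mem _, fun u => rfl⟩
      inv_mem' := by
        rintro h ⟨g, hg, h1⟩
        refine ⟨g⁻¹, inv_mem hg, fun u => ?_⟩
        rw [Equiv.Perm.inv_eq_iff_eq, h1]; simp }
  have hT : Basilica ≤ T := by
    unfold Basilica
    rw [closure_le]
    have hbb : b * b ∈ Basilica := mul_mem b_mem b_mem
    cases x
    · have hA : a ∈ T := ⟨b * b, hbb, fun u => by simp⟩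
      have hB : a * b * a⁻¹ ∈ T :=
        ⟨b * a * b⁻¹, mul_mem (mul_mem b_mem a_mem) (inv_mem b_mem), fun u => by simp⟩
      have hB' : b ∈ T := by
        have := T.mul_mem (T.mul_mem (T.inv_mem hA) hB) hA
        have e : a⁻¹ * (a * b * a⁻¹) * a = b := by group
        rwa [e] at this
      rintro z (rfl | hz)
      · exact hA
      · rw [Set.mem_singleton_iff] at hz; subst hz; exact hB'
    · rintro z (rfl | hz)
      · exact ⟨b * b, hbb, fun u => by simp⟩
      · rw [Set.mem_singleton_iff] at hz; subst hz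
        exact ⟨a, a_mem, fun u => by simp⟩
  exact hT hh

/-- level transitivity -/
lemma B_trans {w w' : List Bool} (h : w.length = w'.length) : ∃ g ∈ Basilica, g w = w' := by
  induction w generalizing w' with
  | nil =>
    cases w' with
    | nil => exact ⟨1, one_mem _, rfl⟩
    | cons _ _ => simp at h
  | cons x w ih =>
    cases w' with
    | nil => simp at h
    | cons y w' =>
      obtain ⟨k, hk, hkw⟩ := ih (by simpa using h)
      obtain ⟨g, hg, hgs⟩ := B_lift hk x
      have h1 : g (x :: w) = x :: w' := by rw [hgs, hkw]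
      cases x <;> cases y
      · exact ⟨g, hg, h1⟩
      · exact ⟨b * g, mul_mem b_mem hg, by simp [h1]⟩
      · exact ⟨b⁻¹ * g, mul_mem (inv_mem b_mem) hg, by simp [h1]⟩
      · exact ⟨g, hg, h1⟩

/-! ### germs -/

/-- the tail of a ray -/
lemma Ray.tail {ξ : ℕ → W} (h : Ray ξ) : ∃ (x : Bool) (η : ℕ → W), Ray η ∧
    ∀ j, ξ (j + 1) = x :: η j := by
  have h1 : (ξ 1).length = 1 := h.len 1
  obtain ⟨x, hx⟩ := List.length_eq_one_iff.1 h1
  refine ⟨x, fun j => (ξ (j + 1)).tail, ?_, ?_⟩
  · refine ⟨fun j => ?_, fun j => ?_⟩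
    · rw [List.length_tail, h.len]; rfl
    · obtain ⟨t, ht⟩ := h.pre (j + 1)
      refine ⟨t, ?_⟩
      rw [← ht, List.tail_append_of_ne_nil]
      intro h2
      have := h.len (j + 1)
      rw [h2] at this; simp at this
  · intro j
    have h2 : ξ 1 <+: ξ (j + 1) := h.mono (by omega)
    rw [hx] at h2
    obtain ⟨t, ht⟩ := h2
    show ξ (j + 1) = x :: (ξ (j + 1)).tail
    rw [← ht]; rfl

lemma germ_aux (n : ℕ) : ∀ (g : Pm), WL n g → ∀ ξ : ℕ → W, Ray ξ → (∀ j, g (ξ j) = ξ j) →
    ∃ j, ∀ u, ξ j <+: u → g u = u := by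
  induction n using Nat.strong_induction_on with
  | _ n ih =>
    intro g hg ξ hξ hfix
    by_contra hcon
    have key : ∀ j, ∀ g : Pm, WL n g → ∀ ξ : ℕ → W, Ray ξ → (∀ j, g (ξ j) = ξ j) →
        (¬ ∃ j, ∀ u, ξ j <+: u → g u = u) → ∀ u, ¬ ξ j <+: u → g u = u := by
      intro j
      induction j with
      | zero =>
        intro g _ ξ hξ _ _ u hu
        exfalso
        apply hu
        have : ξ 0 = [] := List.length_eq_zero_iff.1 (hξ.len 0)
        rw [this]; exact List.nil_prefix
      | succ j ihj =>
        intro g hg ξ hξ hfix hcon u hu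
        obtain ⟨x, η, hη, hx⟩ := hξ.tail
        obtain ⟨p, q, g0, g1, n0, n1, h0, h1, hn, hpq, hnil, hf, ht⟩ := hg.sec
        -- the section at `x`
        have main : ∀ (gx gy : Pm) (nx ny : ℕ) (r : Bool), WL nx gx → WL ny gy → nx + ny ≤ n →
            (∀ u, g (x :: u) = r :: gx u) → (∀ u, g ((!x) :: u) = (!r) :: gy u) → g u = u := by
          intro gx gy nx ny r hgx hgy hnn hsx hsy
          have hr : r = x := by
            have := hfix 1
            rw [show (1 : ℕ) = 0 + 1 from rfl, hx, hsx] at this
            exact (List.cons.inj this).1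
          subst hr
          have hfx : ∀ j, gx (η j) = η j := by
            intro j
            have := hfix (j + 1)
            rw [hx, hsx] at this
            exact (List.cons.inj this).2
          have hcx : ¬ ∃ j, ∀ u, η j <+: u → gx u = u := by
            rintro ⟨j, hj⟩
            apply hcon
            refine ⟨j + 1, fun u hu => ?_⟩
            rw [hx] at hu
            cases u with
            | nil => simp at hu
            | cons y u =>
              rw [List.cons_prefix_cons] at hu
              obtain ⟨rfl, hu⟩ := hu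
              rw [hsx, hj u hu]
          have hnx : nx = n := by
            by_contra hne
            exact hcx (ih nx (by omega) gx hgx η hη hfx)
          have hny : ny = 0 := by omega
          subst hnx hny
          have hgy1 := hgy.zero
          subst hgy1
          cases u with
          | nil => exact hnil
          | cons y u =>
            by_cases hy : y = r
            · subst hy
              rw [hsx, ihj gx hgx η hη hfx hcx u]
              intro h2
              apply hu
              rw [hx, List.cons_prefix_cons]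
              exact ⟨rfl, h2⟩
            · have : y = !r := by cases y <;> cases r <;> simp_all
              subst this
              rw [hsy]; rfl
        cases x
        · refine main g0 g1 n0 n1 p h0 h1 hn hf ?_
          intro u
          have : q = !p := by cases p <;> cases q <;> simp_all
          rw [← this]; exact ht u
        · refine main g1 g0 n1 n0 q h1 h0 (by omega) ht ?_
          intro u
          have : p = !q := by cases p <;> cases q <;> simp_all
          rw [← this]; exact hf u
    apply hcon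
    refine ⟨0, fun u _ => ?_⟩
    by_cases hu : ξ u.length <+: u
    · have : ξ u.length = u := eq_of_pre hu (hξ.len _)
      rw [← this, hfix]
    · exact key _ g hg ξ hξ hfix hcon u hu

lemma germ (g : BG) (ξ : ℕ → W) (h : Ray ξ) (hfix : ∀ j, g • ξ j = ξ j) : g ∈ Zn h := by
  obtain ⟨n, hn⟩ := exists_WL g.2
  exact germ_aux n g hn ξ h hfix

end Pool.Agent.KS6_52.Bas
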