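import Pool.Agent.KS6_52.Bas.Gam

/-!
# The Basilica group satisfies the hypotheses of the abstract theorem
-/

namespace Pool.Agent.KS6_52.Bas

open Subgroup
open scoped commutatorElement

/-! ### iterated lifts -/

/-- the lift at the vertex `w` -/
def upw : W → Subgroup BG → Subgroup BG
  | [], K => K
  | x :: w, K => up x (upw w K)

lemma up_K0 {x : Bool} {K : Subgroup BG} (h : K ≤ K0) : up x K ≤ K0 :=
  (up_le_Phi x K).trans (Phi_K0_le h)

lemma upw_K0 (w : W) {K : Subgroup BG} (h : K ≤ K0) : upw w K ≤ K0 := by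
  induction w with
  | nil => exact h
  | cons x w ih => exact up_K0 ih

lemma D_up {x : Bool} {K : Subgroup BG} (hK : K ≤ K0) : up x (D K) ≤ D (up x K) := by
  rintro g ⟨k, hk, e⟩
  have h1 : D K ≤ upc x (D (up x K)) := by
    unfold D
    rw [commutator_le]
    intro k hk k' hk'
    obtain ⟨g, -, e⟩ := exists_lift (hK hk) x
    obtain ⟨g', -, e'⟩ := exists_lift (hK hk') x
    refine ⟨⁅g, g'⁆, commutator_mem_commutator ⟨k, hk, e⟩ ⟨k', hk', e'⟩, ?_⟩
    rw [commutatorElement_def, commutatorElement_def]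
    show (g : Pm) * (g' : Pm) * (g : Pm)⁻¹ * (g' : Pm)⁻¹ =
      dl x ((k : Pm) * (k' : Pm) * (k : Pm)⁻¹ * (k' : Pm)⁻¹)
    rw [e, e', dl_mul, dl_mul, dl_mul, dl_inv, dl_inv]
  obtain ⟨g', hg', e'⟩ := h1 hk
  have : g = g' := Subtype.ext (e.trans e'.symm)
  rw [this]; exact hg'

lemma upw_mono (w : W) {K K' : Subgroup BG} (h : K ≤ K') : upw w K ≤ upw w K' := by
  induction w with
  | nil => exact h
  | cons x w ih => exact up_mono ih

lemma D_upw (w : W) {K : Subgroup BG} (hK : K ≤ K0) : upw w (D K) ≤ D (upw w K) := by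
  induction w with
  | nil => exact le_rfl
  | cons x w ih => exact (up_mono ih).trans (D_up (upw_K0 w hK))

lemma upw_Rist (w : W) (K : Subgroup BG) : upw w K ≤ Rist BG w := by
  induction w with
  | nil => intro g _ u hu; exact absurd List.nil_prefix hu
  | cons x w ih =>
    rintro g ⟨k, hk, e⟩ u hu
    rw [smul_eq, e]
    cases u with
    | nil => rfl
    | cons y u =>
      by_cases hy : y = x
      · subst hy
        rw [dl_self]
        have h1 : ¬ w <+: u := by
          intro h; apply hu; rw [List.cons_prefix_cons]; exact ⟨rfl, h⟩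
        have h2 := ih hk u h1
        rw [smul_eq] at h2
        rw [h2]
      · exact dl_ne hy _ _

lemma up_ne_bot {x : Bool} {K : Subgroup BG} (hK : K ≤ K0) (h : K ≠ ⊥) : up x K ≠ ⊥ := by
  intro h1
  apply h
  rw [eq_bot_iff]
  intro k hk
  obtain ⟨g, -, e⟩ := exists_lift (hK hk) x
  have h2 : g ∈ up x K := ⟨k, hk, e⟩
  rw [h1, Subgroup.mem_bot] at h2
  subst h2
  rw [Subgroup.mem_bot]
  apply Subtype.ext
  apply dl_inj (x := x)
  rw [← e]; simp

lemma upw_ne_bot (w : W) {K : Subgroup BG} (hK : K ≤ K0) (h : K ≠ ⊥) : upw w K ≠ ⊥ := by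
  induction w with
  | nil => exact h
  | cons x w ih => exact up_ne_bot (upw_K0 w hK) ih

/-! ### non-trivial normal subgroups -/

lemma exists_moved {N : Subgroup BG} (h : N ≠ ⊥) : ∃ g ∈ N, ∃ w : W, g • w ≠ w := by
  by_contra hcon
  push Not at hcon
  apply h
  rw [eq_bot_iff]
  intro g hg
  rw [Subgroup.mem_bot]
  apply FaithfulSMul.eq_of_smul_eq_smul (α := W)
  intro w
  rw [hcon g hg w, one_smul]

lemma iter_D_le {n : ℕ} {M : Subgroup BG} (h : ∀ w : W, w.length = n → D (upw w K0) ≤ M) :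
    Phi^[n] (D K0) ≤ M := by
  induction n generalizing M with
  | zero => exact h [] rfl
  | succ n ih =>
    rw [Function.iterate_succ_apply']
    refine Phi_le fun x => ?_
    have h1 : Phi^[n] (D K0) ≤ upc x M := by
      apply ih
      intro w hw k hk
      have h2 : upw w K0 ≤ K0 := upw_K0 w le_rfl
      obtain ⟨g, -, e⟩ := exists_lift (h2 (D_le _ hk)) x
      exact ⟨g, h (x :: w) (by simp [hw]) (D_up h2 ⟨k, hk, e⟩), e⟩
    rintro g ⟨k, hk, e⟩
    obtain ⟨g', hg', e'⟩ := h1 hk
    have : g = g' := Subtype.ext (e.trans e'.symm)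
    rw [this]; exact hg'

lemma exists_iter_le {M : Subgroup BG} (hM : M.Normal) (h : M ≠ ⊥) : ∃ n, Phi^[n] (D K0) ≤ M := by
  obtain ⟨g, hg, w, hw⟩ := exists_moved h
  refine ⟨w.length, iter_D_le fun w' hw' => ?_⟩
  obtain ⟨t, ht, htw⟩ := B_trans hw'.symm
  have h1 : (⟨t, ht⟩ * g * ⟨t, ht⟩⁻¹ : BG) • w' ≠ w' := by
    have e : (⟨t, ht⟩ : BG) • w = w' := htw
    rw [mul_smul, mul_smul, ← e, inv_smul_smul]
    intro h2
    exact hw (smul_left_cancel _ h2)
  exact comm_le_of_moved (upw_Rist w' K0) (fun k _ f hf => hM.conj_mem f hf k)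
    (hM.conj_mem g hg _) h1

lemma iter_mono {n : ℕ} {K K' : Subgroup BG} (h : K ≤ K') : Phi^[n] K ≤ Phi^[n] K' := by
  induction n with
  | zero => exact h
  | succ n ih =>
    rw [Function.iterate_succ_apply', Function.iterate_succ_apply']
    exact Phi_mono ih

lemma Phi_G3 : Phi G3 ≤ D K0 := by
  refine Phi_le fun x => ?_
  rintro g ⟨k, hk, e⟩
  obtain ⟨g', hg', e'⟩ := G3_upc x hk
  have : g = g' := Subtype.ext (e.trans e'.symm)
  rw [this]; exact hg'

lemma poly (M : Subgroup BG) (hM : M.Normal) (h : M ≠ ⊥) (H : Subgroup BG) (hMH : M ≤ H)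
    (hH : Cd H) : ∃ N : Subgroup BG, N.Normal ∧ Cm H N := by
  obtain ⟨n, hn⟩ := exists_iter_le hM h
  have h1 : Phi^[n + 1] G3 ≤ H := by
    rw [Function.iterate_succ_apply]
    exact ((iter_mono Phi_G3).trans hn).trans hMH
  obtain ⟨N, hN, -, hNH, hi⟩ := PP_G3 (n + 1) H h1 hH
  exact ⟨N, hN, (Cm.of_le hNH hi).symm⟩

/-! ### not solvable -/

lemma K0_not_comm : D K0 ≠ ⊥ := by
  intro h
  obtain ⟨g, hg, e⟩ := exists_lift cG_mem true
  have h1 : ⁅cG, g⁆ ∈ D K0 := commutator_mem_commutator cG_mem hg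
  rw [h, Subgroup.mem_bot, commutatorElement_def, mul_inv_eq_one, mul_inv_eq_iff_eq_mul] at h1
  have h2 : c * dl true c = dl true c * c := by
    have := congrArg (fun z : BG => (z : Pm)) h1
    change (cG : Pm) * (g : Pm) = (g : Pm) * (cG : Pm) at this
    rwa [e, cG_coe] at this
  have h3 : ∀ u, b (c u) = c (b u) := by
    intro u
    have := congrArg (fun z : Pm => z (true :: u)) h2
    simpa using this
  have h4 := h3 [false, true, false]
  revert h4
  simp

/-- a non-trivial normal subgroup is not abelian -/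
lemma D_ne_bot {N : Subgroup BG} (hN : N.Normal) (h : N ≠ ⊥) : D N ≠ ⊥ := by
  intro hD
  obtain ⟨g, hg, w, hw⟩ := exists_moved h
  have hcomm : ∀ x ∈ N, ∀ y ∈ N, x * y = y * x := by
    intro x hx y hy
    have h1 : ⁅x, y⁆ ∈ D N := commutator_mem_commutator hx hy
    rw [hD, Subgroup.mem_bot, commutatorElement_def, mul_inv_eq_one, mul_inv_eq_iff_eq_mul] at h1
    exact h1
  have h1 : D (upw w K0) = ⊥ := by
    rw [eq_bot_iff]
    unfold D
    rw [commutator_le]
    intro x hx y hy
    rw [Subgroup.mem_bot, commutatorElement_def, mul_inv_eq_one, mul_inv_eq_iff_eq_mul]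
    have hp : ∀ z ∈ upw w K0, g * z * g⁻¹ * z⁻¹ ∈ N := by
      intro z _
      have := N.mul_mem hg (hN.conj_mem _ (N.inv_mem hg) z)
      simpa [mul_assoc] using this
    have hact : ∀ z ∈ upw w K0, ∀ u : W, w <+: u → (g * z * g⁻¹ * z⁻¹) • u = z⁻¹ • u := by
      intro z hz u hu
      rw [mul_smul]
      have h2 : g * z * g⁻¹ ∈ Rist BG (g • w) := by
        rw [← cj_Rist]; exact conj_mem_cj (upw_Rist w K0 hz)
      apply h2
      intro h3
      have h4 : w <+: z⁻¹ • u := by
        have := TreeAct.pre z⁻¹ hu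
        rwa [Rist_fix ((Rist BG w).inv_mem (upw_Rist w K0 hz))] at this
      rcases List.prefix_or_prefix_of_prefix h3 h4 with h | h
      · exact hw (eq_of_pre h (TreeAct.len g w))
      · exact hw (eq_of_pre h (TreeAct.len g w).symm).symm
    have hst : ∀ z ∈ upw w K0, ∀ u : W, w <+: u → w <+: z⁻¹ • u := by
      intro z hz u hu
      have := TreeAct.pre z⁻¹ hu
      rwa [Rist_fix ((Rist BG w).inv_mem (upw_Rist w K0 hz))] at this
    have h2 : x⁻¹ * y⁻¹ = y⁻¹ * x⁻¹ := by
      apply FaithfulSMul.eq_of_smul_eq_smul (α := W)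
      intro u
      by_cases hu : w <+: u
      · have h3 := congrArg (fun z : BG => z • u) (hcomm _ (hp x hx) _ (hp y hy))
        rw [mul_smul _ (g * y * g⁻¹ * y⁻¹), mul_smul _ (g * x * g⁻¹ * x⁻¹) u, hact x hx u hu,
          hact y hy u hu, hact x hx _ (hst y hy u hu), hact y hy _ (hst x hx u hu)] at h3
        rw [mul_smul, mul_smul]
        exact h3
      · have hfix : ∀ z ∈ upw w K0, z⁻¹ • u = u := by
          intro z hz
          exact (Rist BG w).inv_mem (upw_Rist w K0 hz) u hu
        rw [mul_smul, mul_smul, hfix x hx, hfix y hy, hfix x hx]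
    have h3 := congrArg (fun z : BG => z⁻¹) h2
    simp only [mul_inv_rev, inv_inv] at h3
    exact h3.symm
  exact upw_ne_bot w (D_le K0) K0_not_comm (le_bot_iff.1 ((D_upw w le_rfl).trans h1.le))

lemma nonsolv (u : W) : D (D (D (Rist BG u))) ≠ ⊥ := by
  intro h
  have h1 : D (D (D K0)) ≠ ⊥ :=
    D_ne_bot (D_normal (D_normal K0_normal)) (D_ne_bot (D_normal K0_normal) K0_not_comm)
  have hD1 : D K0 ≤ K0 := D_le K0
  have hD2 : D (D K0) ≤ K0 := (D_le _).trans hD1
  have hD3 : D (D (D K0)) ≤ K0 := (D_le _).trans hD2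
  apply upw_ne_bot u hD3 h1
  rw [eq_bot_iff]
  calc upw u (D (D (D K0))) ≤ D (upw u (D (D K0))) := D_upw u hD2
    _ ≤ D (D (upw u (D K0))) := D_mono (D_upw u hD1)
    _ ≤ D (D (D (upw u K0))) := D_mono (D_mono (D_upw u le_rfl))
    _ ≤ D (D (D (Rist BG u))) := D_mono (D_mono (D_mono (upw_Rist u K0)))
    _ ≤ ⊥ := h.le

/-! ### the stabilizers of rays -/

/-- `Q n N`: all iterated sections of depth `n` contain the derived subgroup -/
def Q : ℕ → Subgroup BG → Prop
  | 0, N => K0 ≤ N
  | n + 1, N => ∀ x, Q n (dn x N)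

lemma upc_le_dn {x : Bool} {N : Subgroup BG} : upc x N ≤ dn x N := by
  rintro k ⟨g, hg, e⟩
  exact ⟨g, hg, fun u => by rw [e, dl_self]⟩

lemma Q_of_iter {n : ℕ} {N : Subgroup BG} (h : Phi^[n] (D K0) ≤ N) : Q (n + 2) N := by
  induction n generalizing N with
  | zero =>
    intro x y
    have h0 : D K0 ≤ N := h
    have h1 : G3 ≤ dn x N := by
      intro k hk
      obtain ⟨g, hg, e⟩ := G3_upc x hk
      exact ⟨g, h0 hg, fun u => by rw [e, dl_self]⟩
    exact (K0_dn y).trans (dn_mono h1)
  | succ n ih =>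
    intro x
    apply ih
    rw [Function.iterate_succ_apply'] at h
    have h2 : Phi^[n] (D K0) ≤ K0 := (iter_mono (D_le K0)).trans (iter_step Step_Phi le_rfl n).2
    intro k hk
    obtain ⟨g, -, e⟩ := exists_lift (h2 hk) x
    exact ⟨g, h (up_le_Phi x _ ⟨k, hk, e⟩), fun u => by rw [e, dl_self]⟩

lemma cj_Triv (g : BG) (w : W) {z : BG} (hz : z ∈ Triv BG w) : g * z * g⁻¹ ∈ Triv BG (g • w) := by
  intro u hu
  have h1 : w <+: g⁻¹ • u := by
    have := TreeAct.pre g⁻¹ hu
    rwa [inv_smul_smul] at this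
  rw [mul_smul, mul_smul, hz _ h1, smul_inv_smul]

lemma Zn_of_Triv {ξ : ℕ → W} (h : Ray ξ) {j : ℕ} {w : W} (hw : w.length = j) {z : BG}
    (hz : z ∈ Triv BG w) : ∃ g : BG, g * z * g⁻¹ ∈ (Zn h : Subgroup BG) := by
  obtain ⟨g, hg, e⟩ := B_trans (w := w) (w' := ξ j) (by rw [hw, h.len])
  refine ⟨⟨g, hg⟩, j, ?_⟩
  have := cj_Triv ⟨g, hg⟩ w hz
  have e2 : (⟨g, hg⟩ : BG) • w = ξ j := e
  rwa [e2] at this

lemma base_index {N : Subgroup BG} (hN : K0 ≤ N) {ξ : ℕ → W} (h : Ray ξ) :
    (N ⊔ Zn h).index ≠ 0 := by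
  set T : Subgroup BG := N ⊔ Zn h with hT
  have hK : K0 ≤ T := hN.trans le_sup_left
  have hTn : T.Normal := by
    refine ⟨fun x hx g => ?_⟩
    have h1 : ⁅g, x⁆ ∈ T := hK (commutator_mem_commutator trivial trivial)
    have := T.mul_mem h1 hx
    rw [commutatorElement_def] at this
    simpa using this
  have h2 : ∀ z w, z ∈ Triv BG w → z ∈ T := by
    intro z w hz
    obtain ⟨g, hg⟩ := Zn_of_Triv h rfl hz
    have h3 : g * z * g⁻¹ ∈ T := le_sup_right (α := Subgroup BG) hg
    have := hTn.conj_mem _ h3 g⁻¹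
    simpa [mul_assoc] using this
  have ha : aG ∈ T := by
    apply h2 aG [false]
    intro u hu
    cases u with
    | nil => rfl
    | cons x u =>
      rw [List.cons_prefix_cons] at hu
      obtain ⟨rfl, -⟩ := hu
      rfl
  have hb : bG * bG ∈ T := by
    apply h2 (bG * bG) [false, false]
    intro u hu
    cases u with
    | nil => rfl
    | cons x u =>
      rw [List.cons_prefix_cons] at hu
      obtain ⟨rfl, hu⟩ := hu
      cases u with
      | nil => rfl
      | cons y u =>
        rw [List.cons_prefix_cons] at hu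
        obtain ⟨rfl, -⟩ := hu
        rfl
  have h4 : ∀ g : BG, g ∈ T ∨ bG⁻¹ * g ∈ T := by
    intro g
    have hg : g ∈ closure ({aG, bG} : Set BG) := by rw [gen_top]; trivial
    refine Subgroup.closure_induction_left (p := fun g _ => g ∈ T ∨ bG⁻¹ * g ∈ T)
      (Or.inl T.one_mem) ?_ ?_ hg
    · rintro x hx y - hy
      rcases hx with rfl | hx
      · rcases hy with hy | hy
        · exact Or.inl (T.mul_mem ha hy)
        · right
          have := T.mul_mem (hTn.conj_mem _ ha bG⁻¹) hy
          simpa [mul_assoc] using this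
      · rw [Set.mem_singleton_iff] at hx; subst hx
        rcases hy with hy | hy
        · right; simpa using hy
        · left
          have := T.mul_mem hb hy
          simpa [mul_assoc] using this
    · rintro x hx y - hy
      rcases hx with rfl | hx
      · rcases hy with hy | hy
        · exact Or.inl (T.mul_mem (T.inv_mem ha) hy)
        · right
          have := T.mul_mem (hTn.conj_mem _ (T.inv_mem ha) bG⁻¹) hy
          simpa [mul_assoc] using this
      · rw [Set.mem_singleton_iff] at hx; subst hx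
        rcases hy with hy | hy
        · right
          have := T.mul_mem (T.inv_mem hb) hy
          simpa [mul_assoc] using this
        · left; exact hy
  have : Finite (BG ⧸ T) := by
    apply Finite.of_surjective (fun x : Bool => if x then ((1 : BG) : BG ⧸ T) else (bG : BG ⧸ T))
    intro y
    obtain ⟨g, rfl⟩ := QuotientGroup.mk_surjective y
    rcases h4 g with h | h
    · refine ⟨true, ?_⟩
      show ((1 : BG) : BG ⧸ T) = _
      rw [QuotientGroup.eq]; simpa using h
    · refine ⟨false, ?_⟩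
      show (bG : BG ⧸ T) = _
      rw [QuotientGroup.eq]; exact h
  exact Subgroup.index_ne_zero_of_finite

/-- sections of the elements which fix the letters -/
lemma exists_sec (x : Bool) (g : St BG 1) : ∃ k : BG, ∀ u, ((g : BG) : Pm) (x :: u) =
    x :: (k : Pm) u := by
  obtain ⟨y, k, hk, hs⟩ := B_sec g.1.2 x
  have h1 : ((g : BG) : Pm) [x] = [x] := g.2 [x] rfl
  rw [hs] at h1
  obtain rfl : y = x := (List.cons.inj h1).1
  exact ⟨⟨k, hk⟩, hs⟩

/-- the section map on the stabilizer of the first level -/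
noncomputable def psi (x : Bool) : St BG 1 →* BG where
  toFun g := (exists_sec x g).choose
  map_one' := by
    apply Subtype.ext
    ext1 u
    have := (exists_sec x 1).choose_spec u
    exact ((List.cons.inj this).2).symm
  map_mul' g h := by
    apply Subtype.ext
    ext1 u
    have h1 := (exists_sec x (g * h)).choose_spec u
    have h2 := (exists_sec x h).choose_spec u
    have h3 := (exists_sec x g).choose_spec (((exists_sec x h).choose : Pm) u)
    have h4 : (((g * h : St BG 1) : BG) : Pm) (x :: u) =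
        ((g : BG) : Pm) (((h : BG) : Pm) (x :: u)) := rfl
    rw [h1, h2, h3] at h4
    exact (List.cons.inj h4).2

lemma psi_spec (x : Bool) (g : St BG 1) (u : W) :
    ((g : BG) : Pm) (x :: u) = x :: (psi x g : Pm) u := (exists_sec x g).choose_spec u

lemma Q_index {n : ℕ} {N : Subgroup BG} (hN : N.Normal) (hQ : Q n N) {ξ : ℕ → W} (h : Ray ξ) :
    (N ⊔ Zn h).index ≠ 0 := by
  induction n generalizing N ξ with
  | zero => exact base_index hQ h
  | succ n ih =>
    obtain ⟨x, η, hη, hx⟩ := h.tail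
    have h1 := ih (dn_normal (x := x) hN) (hQ x) hη
    have h2 : (dn x N ⊔ Zn hη).comap (psi x) ≤ (N ⊔ Zn h).subgroupOf (St BG 1) := by
      intro g hg
      rw [mem_comap] at hg
      have hdn := dn_normal (x := x) hN
      rw [← SetLike.mem_coe, Subgroup.normal_mul] at hg
      obtain ⟨k, hk, z, hz, e⟩ := hg
      obtain ⟨t, ht, hts⟩ := hk
      obtain ⟨j, hj⟩ := hz
      rw [mem_subgroupOf]
      have h3 : t⁻¹ * (g : BG) ∈ Zn h := by
        refine ⟨j + 1, fun u hu => ?_⟩
        rw [hx] at hu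
        cases u with
        | nil => simp at hu
        | cons y u =>
          rw [List.cons_prefix_cons] at hu
          obtain ⟨rfl, hu⟩ := hu
          show (t : Pm)⁻¹ (((g : BG) : Pm) (x :: u)) = x :: u
          rw [psi_spec, ← e, Equiv.Perm.inv_eq_iff_eq, hts]
          show x :: (k : Pm) ((z : Pm) u) = _
          have := hj u hu
          rw [smul_eq] at this
          rw [this]
      have h4 := mul_mem (le_sup_left (a := N) (b := Zn h) ht) (le_sup_right (a := N) (b := Zn h) h3)
      simpa using h4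
    have h3 : ((dn x N ⊔ Zn hη).comap (psi x)).index ≠ 0 := by
      rw [index_comap]
      exact relIndex_of_index h1 _
    have h4 : (N ⊔ Zn h).relIndex (St BG 1) ≠ 0 := by
      intro h0
      have h7 := Subgroup.index_dvd_of_le h2
      have h8 : ((N ⊔ Zn h).subgroupOf (St BG 1)).index = 0 := h0
      rw [h8] at h7
      exact h3 (Nat.eq_zero_of_zero_dvd h7)
    have h5 : (St BG 1).relIndex ⊤ ≠ 0 := by
      rw [relIndex_top_right]; exact St_index 1
    have h6 := relIndex_ne_zero_trans h4 h5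
    rwa [relIndex_top_right] at h6

lemma zfin (N : Subgroup BG) (hN : N.Normal) (h : N ≠ ⊥) (ξ : ℕ → W) (hr : Ray ξ) :
    (N ⊔ Zn hr).index ≠ 0 := by
  obtain ⟨n, hn⟩ := exists_iter_le hN h
  exact Q_index hN (Q_of_iter hn) hr

/-! ### centralizers -/

lemma Z0 (u : W) : ∀ k : Pm, k ∈ Basilica → k * a = a * k → k * b = b * k → k u = u := by
  induction u with
  | nil => intro k hk _ _; exact B_nil hk
  | cons x u ih =>
    intro k hk ha hb
    obtain ⟨n, hn⟩ := exists_WL hk
    obtain ⟨p, q, k0, k1, n0, n1, h0, h1, -, hpq, -, hf, ht⟩ := hn.sec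
    have hA : ∀ v, k (a v) = a (k v) := fun v => congrArg (fun z : Pm => z v) ha
    have hB : ∀ v, k (b v) = b (k v) := fun v => congrArg (fun z : Pm => z v) hb
    have hp : p = false := by
      by_contra hp
      obtain rfl : p = true := by simpa using hp
      have h2 := hA [false]
      rw [a_f, hf, a_t] at h2
      have h3 : (k0 []) = b (k0 []) := (List.cons.inj h2).2
      have h4 := hA [false, false]
      rw [a_f, hf, a_t] at h4
      have h5 : k0 [false] = b (k0 [false]) := (List.cons.inj h4).2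
      have h6 : (k0 [false]).length = 1 := by rw [B_len h0.mem]; rfl
      obtain ⟨y, hy⟩ := List.length_eq_one_iff.1 h6
      rw [hy] at h5
      cases y <;> simp at h5
    obtain rfl : q = true := by
      subst hp; cases q
      · exact absurd rfl hpq
      · rfl
    subst hp
    -- commutes with `b`
    have e1 : ∀ v, k1 v = k0 v := by
      intro v
      have := hB (false :: v)
      rw [b_f, ht, hf, b_f] at this
      exact (List.cons.inj this).2
    have e2 : ∀ v, k0 (a v) = a (k1 v) := by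
      intro v
      have := hB (true :: v)
      rw [b_t, ht, hf, b_t] at this
      exact (List.cons.inj this).2
    have e3 : ∀ v, k1 (b v) = b (k1 v) := by
      intro v
      have := hA (true :: v)
      rw [a_t, ht, ht, a_t] at this
      exact (List.cons.inj this).2
    have hk01 : k1 = k0 := Equiv.ext e1
    subst hk01
    have h5 : k1 u = u := ih k1 h1.mem (Equiv.ext e2) (Equiv.ext e3)
    cases x
    · rw [hf, h5]
    · rw [ht, h5]

lemma Z0' {k : BG} (ha : k * aG = aG * k) (hb : k * bG = bG * k) : k = 1 := by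
  apply Subtype.ext
  ext1 u
  exact Z0 u k k.2 (congrArg Subtype.val ha) (congrArg Subtype.val hb)

/-- the two sections of an element of the stabilizer -/
lemma eq_one_of_psi {g : St BG 1} (h : ∀ x, psi x g = 1) : (g : BG) = 1 := by
  apply Subtype.ext
  ext1 u
  cases u with
  | nil => exact B_nil (g : BG).2
  | cons x u => rw [psi_spec, h]; rfl

lemma Z1 {h : BG} (h1 : h ∈ St BG 1) (hb : h * bG = bG * h) (hc : h * cG = cG * h) : h = 1 := by
  have hs : ∀ x u, (h : Pm) (x :: u) = x :: (psi x ⟨h, h1⟩ : Pm) u := fun x u =>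
    psi_spec x ⟨h, h1⟩ u
  set k0 := psi false ⟨h, h1⟩ with hk0
  set k1 := psi true ⟨h, h1⟩ with hk1
  have hB : ∀ v, (h : Pm) (b v) = b ((h : Pm) v) := fun v => congrArg (fun z : BG => (z : Pm) v) hb
  have hC : ∀ v, (h : Pm) (c v) = c ((h : Pm) v) := fun v => by
    have := congrArg (fun z : BG => (z : Pm) v) hc
    change (h : Pm) ((cG : Pm) v) = (cG : Pm) ((h : Pm) v) at this
    rwa [cG_coe] at this
  have e1 : ∀ v, (k1 : Pm) v = (k0 : Pm) v := by
    intro v
    have := hB (false :: v)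
    rw [b_f, hs, hs, b_f] at this
    exact (List.cons.inj this).2
  have e2 : ∀ v, (k0 : Pm) (a v) = a ((k1 : Pm) v) := by
    intro v
    have := hB (true :: v)
    rw [b_t, hs, hs, b_t] at this
    exact (List.cons.inj this).2
  have e3 : ∀ v, (k1 : Pm) (b v) = b ((k1 : Pm) v) := by
    intro v
    have := hC (true :: v)
    rw [c_t, hs, hs, c_t] at this
    exact (List.cons.inj this).2
  have hk01 : k1 = k0 := Subtype.ext (Equiv.ext e1)
  have h2 : k1 = 1 := by
    apply Z0'
    · apply Subtype.ext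
      ext1 v
      show (k1 : Pm) (a v) = a ((k1 : Pm) v)
      rw [← e2, ← hk01]
    · exact Subtype.ext (Equiv.ext e3)
  have := eq_one_of_psi (g := ⟨h, h1⟩) (by
    intro x
    cases x
    · rw [← hk0, ← hk01, h2]
    · rw [← hk1, h2])
  exact this

/-- commuting with `dl x e` -/
lemma psi_comm {h : BG} (h1 : h ∈ St BG 1) {x : Bool} {e g : BG} (he : (e : Pm) = dl x (g : Pm))
    (hc : h * e = e * h) : psi x ⟨h, h1⟩ * g = g * psi x ⟨h, h1⟩ := by
  have hs : ∀ u, (h : Pm) (x :: u) = x :: (psi x ⟨h, h1⟩ : Pm) u := fun u =>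
    psi_spec x ⟨h, h1⟩ u
  have hC : ∀ v, (h : Pm) ((e : Pm) v) = (e : Pm) ((h : Pm) v) := fun v =>
    congrArg (fun z : BG => (z : Pm) v) hc
  apply Subtype.ext
  ext1 v
  have := hC (x :: v)
  rw [he, dl_self, hs, hs, dl_self] at this
  exact (List.cons.inj this).2

lemma psi_St {h : BG} {n : ℕ} (h1 : h ∈ St BG 1) (hn : h ∈ St BG (n + 1)) (x : Bool) :
    psi x ⟨h, h1⟩ ∈ St BG n := by
  intro u hu
  have h2 : h • (x :: u) = x :: u := hn (x :: u) (by simp [hu])
  rw [smul_eq] at h2 ⊢
  have h3 := psi_spec x ⟨h, h1⟩ u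
  change (h : Pm) (x :: u) = _ at h3
  rw [h2] at h3
  exact ((List.cons.inj h3).2).symm

lemma St_succ_le (n : ℕ) : St BG (n + 1) ≤ St BG n := by
  intro g hg u hu
  have h1 := hg (u ++ [false]) (by simp [hu])
  have h2 : g • u <+: g • (u ++ [false]) := TreeAct.pre g (List.prefix_append _ _)
  rw [h1] at h2
  have h3 : u <+: u ++ [false] := List.prefix_append _ _
  exact (List.prefix_of_prefix_length_le h2 h3 (by rw [TreeAct.len])).eq_of_length
    (by rw [TreeAct.len])

lemma St_le_one (n : ℕ) : St BG (n + 1) ≤ St BG 1 := by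
  induction n with
  | zero => exact le_rfl
  | succ n ih => exact (St_succ_le (n + 1)).trans ih

lemma Z2 {h e0 e1 : BG} (h2 : h ∈ St BG 2) (hc : h * cG = cG * h)
    (he0 : (e0 : Pm) = dl false (cG : Pm)) (hc0 : h * e0 = e0 * h)
    (he1 : (e1 : Pm) = dl true (cG : Pm)) (hc1 : h * e1 = e1 * h) : h = 1 := by
  have h1 : h ∈ St BG 1 := St_le_one 1 h2
  have hs : ∀ x u, (h : Pm) (x :: u) = x :: (psi x ⟨h, h1⟩ : Pm) u := fun x u =>
    psi_spec x ⟨h, h1⟩ u
  have p0 := psi_comm h1 he0 hc0
  have p1 := psi_comm h1 he1 hc1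
  have s0 := psi_St h1 h2 false
  have s1 := psi_St h1 h2 true
  set k0 := psi false ⟨h, h1⟩ with hk0
  set k1 := psi true ⟨h, h1⟩ with hk1
  have hC : ∀ v, (h : Pm) (c v) = c ((h : Pm) v) := fun v => by
    have := congrArg (fun z : BG => (z : Pm) v) hc
    change (h : Pm) ((cG : Pm) v) = (cG : Pm) ((h : Pm) v) at this
    rwa [cG_coe] at this
  have q1 : k1 = 1 := by
    apply Z1 s1 _ p1
    apply Subtype.ext
    ext1 v
    have := hC (true :: v)
    rw [c_t, hs, hs, c_t] at this
    exact (List.cons.inj this).2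
  have q0 : aG⁻¹ * k0 * aG = 1 := by
    apply Z1
    · have := (St_normal (G := BG) 1).conj_mem _ s0 aG⁻¹
      simpa using this
    · have h3 : k0 * (aG * bG⁻¹ * aG⁻¹) = (aG * bG⁻¹ * aG⁻¹) * k0 := by
        apply Subtype.ext
        ext1 v
        have := hC (false :: v)
        rw [← cG_coe, cG_f, hs, hs, cG_f] at this
        exact (List.cons.inj this).2
      have h4 : k0 * (aG * bG * aG⁻¹) = (aG * bG * aG⁻¹) * k0 := by
        have h5 : aG * bG * aG⁻¹ = (aG * bG⁻¹ * aG⁻¹)⁻¹ := by group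
        rw [h5]
        exact (Commute.inv_right (show Commute k0 (aG * bG⁻¹ * aG⁻¹) from h3))
      calc aG⁻¹ * k0 * aG * bG = aG⁻¹ * (k0 * (aG * bG * aG⁻¹)) * aG := by group
        _ = bG * (aG⁻¹ * k0 * aG) := by rw [h4]; group
    · have h3 : aG * cG = cG * aG := by
        apply Subtype.ext
        show a * (cG : Pm) = (cG : Pm) * a
        rw [cG_coe, ac]
      have h4 : aG⁻¹ * cG = cG * aG⁻¹ := (Commute.inv_left (show Commute aG cG from h3))
      calc aG⁻¹ * k0 * aG * cG = aG⁻¹ * k0 * (aG * cG) := by group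
        _ = aG⁻¹ * (k0 * cG) * aG := by rw [h3]; group
        _ = (aG⁻¹ * cG) * k0 * aG := by rw [p0]; group
        _ = cG * (aG⁻¹ * k0 * aG) := by rw [h4]; group
  have q0' : k0 = 1 := by
    have : k0 = aG * (aG⁻¹ * k0 * aG) * aG⁻¹ := by group
    rw [this, q0]; group
  have := eq_one_of_psi (g := ⟨h, h1⟩) (by
    intro x
    cases x
    · rw [← hk0, q0']
    · rw [← hk1, q1])
  exact this

lemma cent_BG (n : ℕ) : ∃ E : Finset BG, (∀ e ∈ E, e ∈ K0 ∧ ∃ w : W, w.length = n ∧ e ∈ Rist BG w) ∧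
    ∃ m, ∀ h ∈ St BG (m + 1), (∀ e ∈ E, h * e = e * h) → h = 1 := by
  classical
  induction n with
  | zero =>
    obtain ⟨e0, h0, he0⟩ := exists_lift cG_mem false
    obtain ⟨e1, h1, he1⟩ := exists_lift cG_mem true
    have hR : ∀ e : BG, e ∈ Rist BG [] := fun e u hu => absurd List.nil_prefix hu
    refine ⟨{cG, e0, e1}, ?_, 1, ?_⟩
    · intro e he
      refine ⟨?_, [], rfl, hR e⟩
      simp only [Finset.mem_insert, Finset.mem_singleton] at he
      rcases he with rfl | rfl | rfl
      · exact cG_mem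
      · exact h0
      · exact h1
    · intro h hh hc
      exact Z2 hh (hc cG (by simp)) he0 (hc e0 (by simp)) he1 (hc e1 (by simp))
  | succ n ih =>
    obtain ⟨E, hE, m, hm⟩ := ih
    have h1 : ∀ (k : BG) (x : Bool), ∃ g : BG, k ∈ K0 → g ∈ K0 ∧ (g : Pm) = dl x (k : Pm) := by
      intro k x
      by_cases hk : k ∈ K0
      · obtain ⟨g, hg, e⟩ := exists_lift hk x
        exact ⟨g, fun _ => ⟨hg, e⟩⟩
      · exact ⟨1, fun h => absurd h hk⟩
    choose lf hlf using h1
    refine ⟨(E.image fun k => lf k false) ∪ (E.image fun k => lf k true), ?_, m + 1, ?_⟩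
    · have key : ∀ k ∈ E, ∀ x, lf k x ∈ K0 ∧ ∃ w : W, w.length = n + 1 ∧ lf k x ∈ Rist BG w := by
        intro k hk x
        obtain ⟨hk0, w, hw, hr⟩ := hE k hk
        obtain ⟨h2, h3⟩ := hlf k x hk0
        refine ⟨h2, x :: w, by simp [hw], fun u hu => ?_⟩
        rw [smul_eq, h3]
        cases u with
        | nil => rfl
        | cons y u =>
          by_cases hy : y = x
          · subst hy
            rw [dl_self]
            have h1 : ¬ w <+: u := by
              intro h; apply hu; rw [List.cons_prefix_cons]; exact ⟨rfl, h⟩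
            have h2 := hr u h1
            rw [smul_eq] at h2
            rw [h2]
          · exact dl_ne hy _ _
      intro e he
      rw [Finset.mem_union, Finset.mem_image, Finset.mem_image] at he
      rcases he with ⟨k, hk, rfl⟩ | ⟨k, hk, rfl⟩
      · exact key k hk _
      · exact key k hk _
    · intro h hh hc
      have hh1 : h ∈ St BG 1 := St_le_one _ hh
      have key : ∀ x, psi x ⟨h, hh1⟩ = 1 := by
        intro x
        apply hm _ (psi_St hh1 hh x)
        intro e he
        obtain ⟨hk0, -⟩ := hE e he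
        apply psi_comm hh1 (hlf e x hk0).2
        apply hc
        rw [Finset.mem_union, Finset.mem_image, Finset.mem_image]
        cases x
        · exact Or.inl ⟨e, he, rfl⟩
        · exact Or.inr ⟨e, he, rfl⟩
      exact eq_one_of_psi (g := ⟨h, hh1⟩) key

/-- the Basilica group satisfies all hypotheses -/
theorem hyp_BG : Hyp BG where
  fg := by
    classical
    refine ⟨{aG, aG⁻¹, bG, bG⁻¹}, ?_, ?_⟩
    · intro s hs
      simp only [Finset.mem_insert, Finset.mem_singleton] at hs ⊢
      rcases hs with rfl | rfl | rfl | rfl <;> simp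
    · rw [eq_top_iff, ← gen_top]
      apply Subgroup.closure_mono
      intro x hx
      rcases hx with rfl | hx
      · simp
      · rw [Set.mem_singleton_iff] at hx; subst hx; simp
  germ := germ
  cent := by
    intro n
    obtain ⟨E, hE, m, hm⟩ := cent_BG n
    exact ⟨E, fun e he => (hE e he).2, m + 1, hm⟩
  zfin := zfin
  nonsolv := nonsolv
  poly := poly

theorem basilica_main {H : Subgroup BG} (hH : Cd H) : ∃ N : Subgroup BG, N.Normal ∧ Cm H N :=
  abstract_main hyp_BG hH

end Pool.Agent.KS6_52.Bas
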