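import Pool.Agent.KS6_52.Bas.Lifts

/-!
# The Basilica group: the third term of the lower central series, and the chain of steps
-/

namespace Pool.Agent.KS6_52.Bas

open Subgroup
open scoped commutatorElement

lemma all_BG {P : Subgroup BG} (ha : aG ∈ P) (hb : bG ∈ P) : P = ⊤ := by
  rw [eq_top_iff, ← gen_top, Subgroup.closure_le]
  rintro x (rfl | hx)
  · exact ha
  · rw [Set.mem_singleton_iff] at hx; subst hx; exact hb

/-- the elements which commute with `g` modulo `U` -/
def cz {G : Type*} [Group G] (U : Subgroup G) [U.Normal] (g : G) : Subgroup G :=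
  (centralizer {(g : G ⧸ U)}).comap (QuotientGroup.mk' U)

lemma mem_cz {G : Type*} [Group G] {U : Subgroup G} [U.Normal] {g x : G} :
    x ∈ cz U g ↔ (g : G ⧸ U) * (x : G ⧸ U) = (x : G ⧸ U) * (g : G ⧸ U) := by
  unfold cz
  rw [mem_comap, mem_centralizer_singleton_iff, QuotientGroup.mk'_apply]
  exact eq_comm

lemma mem_cz_of_eq {G : Type*} [Group G] {U : Subgroup G} [U.Normal] {g x : G} (h : g * x = x * g) :
    x ∈ cz U g := by
  rw [mem_cz, ← QuotientGroup.mk_mul, h, QuotientGroup.mk_mul]

lemma mem_cz_of_mem {G : Type*} [Group G] {U : Subgroup G} [U.Normal] {g x : G}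
    (h : ⁅x, g⁆ ∈ U) : x ∈ cz U g := by
  rw [mem_cz, ← QuotientGroup.mk_mul, ← QuotientGroup.mk_mul, QuotientGroup.eq]
  rw [commutatorElement_def] at h
  have h2 := (inferInstance : U.Normal).conj_mem _ h (g * x)⁻¹
  convert h2 using 1
  group

lemma comm_of_cent {G : Type*} [Group G] {U K : Subgroup G} [U.Normal] {x y : G}
    (hx : x ∈ cent U K) (hy : y ∈ K) : ⁅x, y⁆ ∈ U := by
  have h3 := (cent U K).inv_mem hx
  have h4 := h3 y⁻¹ (K.inv_mem hy)
  rw [← QuotientGroup.mk_mul, ← QuotientGroup.mk_mul, eq_comm, QuotientGroup.eq] at h4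
  have h5 : ⁅x, y⁆ = (y⁻¹ * x⁻¹)⁻¹ * (x⁻¹ * y⁻¹) := by rw [commutatorElement_def]; group
  rw [h5]; exact h4

/-- the third term of the lower central series -/
def G3 : Subgroup BG := ⁅K0, ⊤⁆

lemma G3_normal : G3.Normal := by
  have := K0_normal
  unfold G3; infer_instance

lemma D_normal {G : Type*} [Group G] {K : Subgroup G} (h : K.Normal) : (D K).Normal := by
  unfold D; infer_instance

lemma G3_le : G3 ≤ K0 := by
  have := K0_normal
  exact commutator_le_left K0 ⊤

lemma upc_tf {N : Subgroup BG} (hN : N.Normal) : upc false N ≤ upc true N := by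
  rintro k ⟨g, hg, e⟩
  refine ⟨bG * g * bG⁻¹, hN.conj_mem g hg _, ?_⟩
  show b * (g : Pm) * b⁻¹ = _
  rw [e, R2]

lemma dn_tf {N : Subgroup BG} (hN : N.Normal) : dn false N ≤ dn true N := by
  rintro k ⟨g, hg, e⟩
  refine ⟨bG * g * bG⁻¹, hN.conj_mem g hg _, fun u => ?_⟩
  show b ((g : Pm) (b⁻¹ (true :: u))) = _
  have : b⁻¹ (true :: u) = false :: u := by rw [Equiv.Perm.inv_eq_iff_eq]; rfl
  rw [this, e]; rfl

lemma cG_f (u : List Bool) : (cG : Pm) (false :: u) = false :: (a * b⁻¹ * a⁻¹ : Pm) u := by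
  rw [cG_coe, c_f]; rfl

lemma cG_t (u : List Bool) : (cG : Pm) (true :: u) = true :: b u := by
  rw [cG_coe, c_t]

/-- `Φ(Γ₃) ≤ K₀'` -/
lemma G3_upc (x : Bool) : G3 ≤ upc x (D K0) := by
  have key : G3 ≤ upc false (D K0) := by
    have hU : (upc false (D K0)).Normal := upc_normal (D_normal K0_normal)
    have hC := cent_normal (upc false (D K0)) K0 K0_normal
    set U := upc false (D K0) with hUdef
    -- `s = a b⁻¹ a⁻¹` centralizes `K0` modulo `U`
    have h1 : aG * bG⁻¹ * aG⁻¹ ∈ cent U K0 := by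
      intro k hk
      have h2 : k ∈ cz U (aG * bG⁻¹ * aG⁻¹) := by
        apply mem_cz_of_mem
        obtain ⟨g, hg, e⟩ := exists_lift hk false
        refine ⟨⁅g, cG⁆, commutator_mem_commutator hg cG_mem, ?_⟩
        rw [commutatorElement_def, commutatorElement_def]
        show (g : Pm) * (cG : Pm) * (g : Pm)⁻¹ * (cG : Pm)⁻¹ = dl false ((k : Pm) *
          (a * b⁻¹ * a⁻¹) * (k : Pm)⁻¹ * (a * b⁻¹ * a⁻¹)⁻¹)
        have h3 := conj_dl cG.2 cG_f ((k : Pm)⁻¹)
        rw [e, mul_assoc, mul_assoc, ← mul_assoc (cG : Pm), ← dl_inv, h3, ← dl_mul]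
        congr 1
      exact mem_cz.1 h2
    have h2 : bG ∈ cent U K0 := by
      have h3 := hC.conj_mem _ h1 aG⁻¹
      have h4 := (cent U K0).inv_mem h3
      convert h4 using 1
      group
    have hT := cent_normal U ⊤ inferInstance
    have h3 : cG ∈ cent U ⊤ := by
      have h4 : cz U cG = ⊤ := by
        apply all_BG
        · apply mem_cz_of_eq
          apply Subtype.ext
          show (cG : Pm) * a = a * (cG : Pm)
          rw [cG_coe, ac]
        · rw [mem_cz]; exact (h2 cG cG_mem).symm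
      intro x _
      rw [← mem_cz, h4]; trivial
    have h5 := K0_le hT h3
    unfold G3
    rw [commutator_le]
    intro x hx y hy
    exact comm_of_cent (h5 hx) hy
  cases x
  · exact key
  · exact key.trans (upc_tf (D_normal K0_normal))

/-- the section map is onto `K0` -/
lemma K0_dn (x : Bool) : K0 ≤ dn x G3 := by
  have key : K0 ≤ dn false G3 := by
    have hV : (dn false G3).Normal := dn_normal G3_normal
    apply K0_le hV
    have h0 : ⁅cG, bG⁆ ∈ G3 := commutator_mem_commutator cG_mem trivial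
    have h1 : ((⁅cG, bG⁆ : BG) : Pm) = c * dl true c * c := by
      have h2 : b * c⁻¹ * b⁻¹ = dl true c * c := by
        have := congrArg (fun z : Pm => z⁻¹) bcb
        simp only [mul_inv_rev, inv_inv] at this
        rw [← this]; group
      rw [commutatorElement_def]
      show (cG : Pm) * b * (cG : Pm)⁻¹ * b⁻¹ = _
      rw [cG_coe]
      calc c * b * c⁻¹ * b⁻¹ = c * (b * c⁻¹ * b⁻¹) := by group
        _ = _ := by rw [h2]; group
    have h3 : aG * (bG * bG)⁻¹ * aG⁻¹ ∈ dn false G3 := by
      refine ⟨_, h0, fun u => ?_⟩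
      rw [h1]
      show c (dl true c (c (false :: u))) = false :: a ((b * b)⁻¹ (a⁻¹ u))
      rw [c_f, dl_tf, c_f]
      simp
    have h4 : bG * bG ∈ dn false G3 := by
      have h5 := (dn false G3).inv_mem (hV.conj_mem _ h3 aG⁻¹)
      convert h5 using 1
      simp [mul_assoc]
    have h6 : aG * (bG * (aG * bG * aG⁻¹)) * aG⁻¹ ∈ dn false G3 := by
      refine ⟨bG * ⁅cG, bG⁆ * bG⁻¹, G3_normal.conj_mem _ h0 _, fun u => ?_⟩
      show b (((⁅cG, bG⁆ : BG) : Pm) (b⁻¹ (false :: u))) = false :: a (b (a (b (a⁻¹ (a⁻¹ u)))))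
      rw [h1]
      have h7 : b⁻¹ (false :: u) = true :: a⁻¹ u := by
        rw [Equiv.Perm.inv_eq_iff_eq]; simp
      rw [h7]
      show b (c (dl true c (c (true :: a⁻¹ u)))) = _
      rw [c_t, dl_self, c_t, b_t]
      have h8 : ∀ v, c (b v) = a (b (a⁻¹ v)) := by
        intro v
        unfold c
        simp
      rw [h8]
    have h7 : bG * (aG * bG * aG⁻¹) ∈ dn false G3 := by
      have h5 := hV.conj_mem _ h6 aG⁻¹
      convert h5 using 1
      group
    have h8 := (dn false G3).mul_mem (hV.conj_mem _ h7 bG⁻¹) ((dn false G3).inv_mem h4)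
    convert h8 using 1
    unfold cG
    rw [commutatorElement_def]
    group
  cases x
  · exact key
  · exact key.trans (dn_tf G3_normal)

/-! ### the steps -/

lemma Step_top : Step K0 ⊤ := by
  classical
  refine ⟨K0_normal, inferInstance, le_top, le_rfl, {aG, bG}, fun _ _ => trivial, ?_, ?_⟩
  · rw [Finset.coe_pair, gen_top, top_sup_eq]
  · intro g x hx
    refine ⟨x, hx, ?_⟩
    have : x⁻¹ * (g * x * g⁻¹) = ⁅x⁻¹, g⁆ := by rw [commutatorElement_def]; group
    rw [this]
    exact commutator_mem_commutator trivial trivial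

lemma sup_normal_of {G : Type*} [Group G] {L : Subgroup G} (hL : L.Normal) {X : Set G}
    (h : ∀ g, ∀ x ∈ X, g * x * g⁻¹ ∈ closure X ⊔ L) : (closure X ⊔ L).Normal := by
  have h1 : ∀ g, closure X ⊔ L ≤ cj g⁻¹ (closure X ⊔ L) := by
    intro g
    refine sup_le ?_ ?_
    · rw [Subgroup.closure_le]
      intro x hx
      rw [SetLike.mem_coe, mem_cj, inv_inv]
      exact h g x hx
    · intro x hx
      rw [mem_cj, inv_inv]
      exact le_sup_right (α := Subgroup G) (hL.conj_mem x hx g)
  refine ⟨fun x hx g => ?_⟩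
  have := h1 g hx
  rwa [mem_cj, inv_inv] at this

lemma Step_G3 : Step G3 K0 := by
  classical
  refine ⟨G3_normal, K0_normal, G3_le, commutator_mono le_rfl le_top, {cG}, ?_, ?_, ?_⟩
  · intro x hx
    rw [Finset.mem_singleton] at hx; subst hx; exact cG_mem
  · rw [Finset.coe_singleton]
    apply K0_le
    · apply sup_normal_of G3_normal
      intro g x hx
      rw [Set.mem_singleton_iff] at hx; subst hx
      have h1 : g * cG * g⁻¹ = cG * ⁅cG⁻¹, g⁆ := by rw [commutatorElement_def]; group
      rw [h1]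
      exact mul_mem (le_sup_left (α := Subgroup BG) (Subgroup.subset_closure (Set.mem_singleton _)))
        (le_sup_right (α := Subgroup BG)
          (commutator_mem_commutator (K0.inv_mem cG_mem) trivial))
    · exact le_sup_left (α := Subgroup BG) (Subgroup.subset_closure (Set.mem_singleton _))
  · intro g x hx
    refine ⟨x, hx, ?_⟩
    rw [Finset.mem_singleton] at hx; subst hx
    have h1 : cG⁻¹ * (g * cG * g⁻¹) = ⁅cG⁻¹, g⁆ := by rw [commutatorElement_def]; group
    rw [h1]
    exact commutator_mem_commutator (K0.inv_mem cG_mem) trivial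

/-- conjugates of `c` are `c` or `c⁻¹` modulo `Φ(K₀)` -/
lemma conj_c (g : BG) : cG⁻¹ * (g * cG * g⁻¹) ∈ Phi K0 ∨ cG * (g * cG * g⁻¹) ∈ Phi K0 := by
  have hN : (Phi K0).Normal := Phi_normal K0_normal
  let Q := BG ⧸ Phi K0
  have h1 : ∀ g : BG, ((g : Q) * (cG : Q) * (g : Q)⁻¹ = (cG : Q) ∨
      (g : Q) * (cG : Q) * (g : Q)⁻¹ = (cG : Q)⁻¹) := by
    intro g
    let T : Subgroup BG :=
      { carrier := {g | (g : Q) * (cG : Q) * (g : Q)⁻¹ = (cG : Q) ∨
          (g : Q) * (cG : Q) * (g : Q)⁻¹ = (cG : Q)⁻¹}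
        mul_mem' := by
          intro x y hx hy
          have e : ((x * y : BG) : Q) * (cG : Q) * ((x * y : BG) : Q)⁻¹ =
              (x : Q) * ((y : Q) * (cG : Q) * (y : Q)⁻¹) * (x : Q)⁻¹ := by
            rw [QuotientGroup.mk_mul]; group
          show _ ∨ _
          rw [e]
          rcases hy with hy | hy <;> rw [hy]
          · exact hx
          · have e2 : (x : Q) * (cG : Q)⁻¹ * (x : Q)⁻¹ = ((x : Q) * (cG : Q) * (x : Q)⁻¹)⁻¹ := by
              group
            rw [e2]
            rcases hx with hx | hx <;> rw [hx]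
            · exact Or.inr rfl
            · exact Or.inl (inv_inv _)
        one_mem' := by
          left; simp
        inv_mem' := by
          intro x hx
          show _ ∨ _
          rcases hx with hx | hx
          · left
            have e3 : (cG : Q) = (x : Q)⁻¹ * ((x : Q) * (cG : Q) * (x : Q)⁻¹) * (x : Q) := by
              group
            rw [hx] at e3
            rw [QuotientGroup.mk_inv, inv_inv]
            exact e3.symm
          · right
            have e3 : (cG : Q)⁻¹ = (x : Q)⁻¹ * ((x : Q) * (cG : Q) * (x : Q)⁻¹)⁻¹ * (x : Q) := by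
              group
            rw [hx, inv_inv] at e3
            rw [QuotientGroup.mk_inv, inv_inv]
            exact e3.symm }
    have hT : T = ⊤ := by
      apply all_BG
      · left
        rw [mul_inv_eq_iff_eq_mul, ← QuotientGroup.mk_mul, ← QuotientGroup.mk_mul]
        congr 1
        apply Subtype.ext
        show a * (cG : Pm) = (cG : Pm) * a
        rw [cG_coe, ac]
      · right
        obtain ⟨g, hg, e⟩ := exists_lift cG_mem true
        have h2 : bG * cG * bG⁻¹ = cG⁻¹ * g⁻¹ := by
          apply Subtype.ext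
          show b * (cG : Pm) * b⁻¹ = (cG : Pm)⁻¹ * (g : Pm)⁻¹
          rw [e, cG_coe, bcb]
        rw [← QuotientGroup.mk_mul, ← QuotientGroup.mk_inv, ← QuotientGroup.mk_mul, h2,
          QuotientGroup.mk_mul, (QuotientGroup.eq_one_iff (g⁻¹)).2, mul_one, QuotientGroup.mk_inv]
        exact (Phi K0).inv_mem (up_le_Phi true K0 ⟨cG, cG_mem, e⟩)
    have : g ∈ T := by rw [hT]; trivial
    exact this
  rcases h1 g with h | h
  · left
    rw [← QuotientGroup.eq, eq_comm]
    exact h
  · right
    rw [← QuotientGroup.eq_one_iff]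
    show (cG : Q) * ((g : Q) * (cG : Q) * (g : Q)⁻¹) = 1
    rw [h, mul_inv_cancel]

lemma Step_Phi : Step (Phi K0) K0 := by
  classical
  have hN : (Phi K0).Normal := Phi_normal K0_normal
  have hc : cG ∈ closure ({cG, cG⁻¹} : Set BG) ⊔ Phi K0 :=
    le_sup_left (α := Subgroup BG) (Subgroup.subset_closure (by simp))
  have h1 : ∀ g, g * cG * g⁻¹ ∈ closure ({cG, cG⁻¹} : Set BG) ⊔ Phi K0 := by
    intro g
    rcases conj_c g with h | h
    · have := mul_mem hc (le_sup_right (α := Subgroup BG) h)
      simpa using this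
    · have := mul_mem (inv_mem hc) (le_sup_right (α := Subgroup BG) h)
      simpa using this
  have hK : K0 ≤ closure ({cG, cG⁻¹} : Set BG) ⊔ Phi K0 := by
    apply K0_le _ hc
    apply sup_normal_of hN
    intro g x hx
    rcases hx with rfl | hx
    · exact h1 g
    · rw [Set.mem_singleton_iff] at hx; subst hx
      have : g * cG⁻¹ * g⁻¹ = (g * cG * g⁻¹)⁻¹ := by group
      rw [this]; exact inv_mem (h1 g)
  refine ⟨hN, K0_normal, Phi_K0_le le_rfl, ?_, {cG, cG⁻¹}, ?_, ?_, ?_⟩
  · have h2 : K0 ≤ cz (Phi K0) cG := by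
      refine hK.trans (sup_le ?_ ?_)
      · rw [Subgroup.closure_le]
        rintro x (rfl | hx)
        · exact mem_cz_of_eq rfl
        · rw [Set.mem_singleton_iff] at hx; subst hx
          exact mem_cz_of_eq (by group)
      · intro x hx
        rw [mem_cz, (QuotientGroup.eq_one_iff x).2 hx]; simp
    have h3 : cG ∈ cent (Phi K0) K0 := fun x hx => mem_cz.1 (h2 hx)
    have h4 := K0_le (cent_normal _ _ K0_normal) h3
    rw [commutator_le]
    intro x hx y hy
    exact comm_of_cent (h4 hx) hy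
  · intro x hx
    rw [Finset.mem_insert, Finset.mem_singleton] at hx
    rcases hx with rfl | rfl
    · exact cG_mem
    · exact K0.inv_mem cG_mem
  · rw [Finset.coe_pair]; exact hK
  · intro g x hx
    rw [Finset.mem_insert, Finset.mem_singleton] at hx
    rcases hx with rfl | rfl
    · rcases conj_c g with h | h
      · exact ⟨cG, by simp, h⟩
      · exact ⟨cG⁻¹, by simp, by simpa using h⟩
    · rcases conj_c g with h | h
      · refine ⟨cG⁻¹, by simp, ?_⟩
        have := hN.conj_mem _ (inv_mem h) cG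
        convert this using 1
        group
      · refine ⟨cG, by simp, ?_⟩
        have := hN.conj_mem _ (inv_mem h) cG⁻¹
        convert this using 1
        group

lemma iter_step {L K : Subgroup BG} (hs : Step L K) (hK : K ≤ K0) (n : ℕ) :
    Step (Phi^[n] L) (Phi^[n] K) ∧ Phi^[n] K ≤ K0 := by
  induction n with
  | zero => exact ⟨hs, hK⟩
  | succ n ih =>
    rw [Function.iterate_succ_apply', Function.iterate_succ_apply']
    exact ⟨ih.1.Phi ih.2, Phi_K0_le ih.2⟩

lemma PP_FGm (n : ℕ) : PP (Phi^[n] K0) ∧ FGm (Phi^[n] K0) := by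
  induction n with
  | zero =>
    have h : FGm K0 := FGm_step Step_top FGm_top
    exact ⟨PP_step Step_top PP_top h, h⟩
  | succ n ih =>
    have hs := (iter_step Step_Phi le_rfl n).1
    rw [← Function.iterate_succ_apply] at hs
    have h := FGm_step hs ih.2
    exact ⟨PP_step hs ih.1 h, h⟩

lemma PP_G3 (n : ℕ) : PP (Phi^[n] G3) := by
  have hs := (iter_step Step_G3 le_rfl n).1
  exact PP_step hs (PP_FGm n).1 (FGm_step hs (PP_FGm n).2)

end Pool.Agent.KS6_52.Bas
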