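import Pool.Agent.KS6_52.Bas.Facts

/-!
# The Basilica group: lifts of subgroups
-/

namespace Pool.Agent.KS6_52.Bas

open Subgroup
open scoped commutatorElement

/-- generators in the group -/
def aG : BG := ⟨a, a_mem⟩
/-- generators in the group -/
def bG : BG := ⟨b, b_mem⟩
/-- the commutator -/
def cG : BG := ⁅aG, bG⁆

lemma cG_coe : (cG : Pm) = c := by
  unfold cG c; rw [commutatorElement_def]; rfl

/-- the derived subgroup -/
def K0 : Subgroup BG := D ⊤

lemma K0_normal : K0.Normal := by unfold K0 D; infer_instance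

lemma cG_mem : cG ∈ K0 := commutator_mem_commutator trivial trivial

lemma gen_top : closure ({aG, bG} : Set BG) = ⊤ := by
  have h := Subgroup.closure_closure_coe_preimage (k := ({a, b} : Set Pm))
  refine Eq.trans ?_ h
  have h2 : ({aG, bG} : Set BG) = ((↑) : BG → Pm) ⁻¹' ({a, b} : Set Pm) := by
    ext x
    constructor
    · rintro (rfl | hx)
      · exact Or.inl rfl
      · rw [Set.mem_singleton_iff] at hx; subst hx; exact Or.inr rfl
    · rintro (hx | hx)
      · exact Or.inl (Subtype.ext hx)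
      · exact Or.inr (Subtype.ext hx)
  exact congrArg Subgroup.closure h2


/-- a normal subgroup which contains the commutators of the generators contains the derived
subgroup -/
lemma derived_le {G : Type*} [Group G] {S : Set G} (hS : closure S = ⊤) {U : Subgroup G}
    (hU : U.Normal) (h : ∀ s ∈ S, ∀ t ∈ S, ⁅s, t⁆ ∈ U) : ⁅(⊤ : Subgroup G), ⊤⁆ ≤ U := by
  have h1 : ∀ s ∈ S, s ∈ cent U (⊤ : Subgroup G) := by
    intro s hs
    let T : Subgroup G := (centralizer {(s : G ⧸ U)}).comap (QuotientGroup.mk' U)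
    have hT : closure S ≤ T := by
      rw [closure_le]
      intro t ht
      show QuotientGroup.mk' U t ∈ centralizer _
      rw [mem_centralizer_singleton_iff, QuotientGroup.mk'_apply, ← QuotientGroup.mk_mul,
        ← QuotientGroup.mk_mul, QuotientGroup.eq]
      have h2 := h s hs t ht
      have h3 := hU.conj_mem _ h2 (t * s)⁻¹
      rw [commutatorElement_def] at h3
      convert h3 using 1
      group
    intro x _
    have h3 : QuotientGroup.mk' U x ∈ centralizer {(s : G ⧸ U)} := hT (by rw [hS]; trivial)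
    rw [mem_centralizer_singleton_iff] at h3
    exact h3.symm
  have h2 : (⊤ : Subgroup G) ≤ cent U ⊤ := by
    rw [← hS, closure_le]
    rw [hS]
    exact h1
  rw [commutator_le]
  intro x _ y _
  have h3 := (h2 (show x⁻¹ ∈ (⊤ : Subgroup G) from trivial)) y⁻¹ trivial
  rw [← QuotientGroup.mk_mul, ← QuotientGroup.mk_mul, eq_comm, QuotientGroup.eq] at h3
  have h4 : ⁅x, y⁆ = (y⁻¹ * x⁻¹)⁻¹ * (x⁻¹ * y⁻¹) := by rw [commutatorElement_def]; group
  rw [h4]; exact h3

lemma K0_le {U : Subgroup BG} (hU : U.Normal) (h : cG ∈ U) : K0 ≤ U := by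
  refine derived_le gen_top hU ?_
  have h1 : ⁅bG, aG⁆ ∈ U := by
    have := U.inv_mem h
    unfold cG at this
    rwa [commutatorElement_inv] at this
  rintro s (rfl | hs) t (rfl | ht)
  · simp
  · rw [Set.mem_singleton_iff] at ht; subst ht; exact h
  · rw [Set.mem_singleton_iff] at hs; subst hs; exact h1
  · rw [Set.mem_singleton_iff] at hs ht; subst hs ht; simp

/-- the elements of the form `dl x k`, `k ∈ K` -/
def up (x : Bool) (K : Subgroup BG) : Subgroup BG where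
  carrier := {g | ∃ k ∈ K, (g : Pm) = dl x (k : Pm)}
  mul_mem' := by
    rintro g h ⟨k, hk, e⟩ ⟨k', hk', e'⟩
    exact ⟨k * k', K.mul_mem hk hk', by
      rw [Subgroup.coe_mul, Subgroup.coe_mul, dl_mul, e, e']⟩
  one_mem' := ⟨1, K.one_mem, by simp⟩
  inv_mem' := by
    rintro g ⟨k, hk, e⟩
    exact ⟨k⁻¹, K.inv_mem hk, by rw [Subgroup.coe_inv, Subgroup.coe_inv, dl_inv, e]⟩

/-- the sections at `x` of the elements of `N` which fix the letter `x` -/
def dn (x : Bool) (N : Subgroup BG) : Subgroup BG where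
  carrier := {h | ∃ g ∈ N, ∀ u, (g : Pm) (x :: u) = x :: (h : Pm) u}
  mul_mem' := by
    rintro h h' ⟨g, hg, e⟩ ⟨g', hg', e'⟩
    exact ⟨g * g', N.mul_mem hg hg', fun u => by simp [e, e']⟩
  one_mem' := ⟨1, N.one_mem, fun u => rfl⟩
  inv_mem' := by
    rintro h ⟨g, hg, e⟩
    refine ⟨g⁻¹, N.inv_mem hg, fun u => ?_⟩
    rw [Subgroup.coe_inv, Equiv.Perm.inv_eq_iff_eq, e]; simp

/-- the elements `k` with `dl x k ∈ N` -/
def upc (x : Bool) (N : Subgroup BG) : Subgroup BG where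
  carrier := {k | ∃ g ∈ N, (g : Pm) = dl x (k : Pm)}
  mul_mem' := by
    rintro g h ⟨k, hk, e⟩ ⟨k', hk', e'⟩
    exact ⟨k * k', N.mul_mem hk hk', by
      rw [Subgroup.coe_mul, Subgroup.coe_mul, dl_mul, e, e']⟩
  one_mem' := ⟨1, N.one_mem, by simp⟩
  inv_mem' := by
    rintro g ⟨k, hk, e⟩
    exact ⟨k⁻¹, N.inv_mem hk, by rw [Subgroup.coe_inv, Subgroup.coe_inv, dl_inv, e]⟩

lemma conj_lift {k g : Pm} (hg : g ∈ Basilica) {x : Bool} {h : Pm}
    (hs : ∀ u, g (x :: u) = x :: h u) : g * dl x k * g⁻¹ = dl x (h * k * h⁻¹) :=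
  conj_dl hg hs k

lemma upc_normal {x : Bool} {N : Subgroup BG} (hN : N.Normal) : (upc x N).Normal := by
  refine ⟨fun k hk h => ?_⟩
  obtain ⟨g, hg, e⟩ := hk
  obtain ⟨t, ht, hts⟩ := B_lift h.2 x
  refine ⟨⟨t, ht⟩ * g * ⟨t, ht⟩⁻¹, hN.conj_mem g hg _, ?_⟩
  show t * (g : Pm) * t⁻¹ = _
  rw [e, conj_lift ht hts]; rfl

lemma dn_normal {x : Bool} {N : Subgroup BG} (hN : N.Normal) : (dn x N).Normal := by
  refine ⟨fun k hk h => ?_⟩
  obtain ⟨g, hg, e⟩ := hk
  obtain ⟨t, ht, hts⟩ := B_lift h.2 x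
  refine ⟨⟨t, ht⟩ * g * ⟨t, ht⟩⁻¹, hN.conj_mem g hg _, fun u => ?_⟩
  show t ((g : Pm) (t⁻¹ (x :: u))) = x :: (h : Pm) ((k : Pm) ((h : Pm)⁻¹ u))
  have h1 : t⁻¹ (x :: u) = x :: (h : Pm)⁻¹ u := by
    rw [Equiv.Perm.inv_eq_iff_eq, hts]; simp
  rw [h1, e, hts]

lemma dn_mono {x : Bool} {N N' : Subgroup BG} (h : N ≤ N') : dn x N ≤ dn x N' := by
  rintro k ⟨g, hg, e⟩; exact ⟨g, h hg, e⟩

lemma bG_coe : (bG : Pm) = b := rfl
lemma aG_coe : (aG : Pm) = a := rfl

/-- `K0` can be lifted -/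
lemma K0_lift (x : Bool) : K0 ≤ upc x K0 := by
  have h1 : ∃ g ∈ K0, (g : Pm) = dl true c⁻¹ := by
    refine ⟨⁅aG, bG * bG⁆, commutator_mem_commutator trivial trivial, ?_⟩
    rw [commutatorElement_def, ← ab2]; rfl
  apply K0_le (upc_normal K0_normal)
  have h2 : cG⁻¹ ∈ upc x K0 := by
    obtain ⟨g, hg, e⟩ := h1
    cases x
    · refine ⟨bG⁻¹ * g * bG, ?_, ?_⟩
      · have := K0_normal.conj_mem g hg bG⁻¹
        rwa [inv_inv] at this
      · show b⁻¹ * (g : Pm) * b = dl false ((cG : Pm)⁻¹)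
        rw [e, cG_coe, ← R2 c⁻¹]; group
    · exact ⟨g, hg, by rw [e, Subgroup.coe_inv, cG_coe]⟩
  simpa using (upc x K0).inv_mem h2

lemma exists_lift {k : BG} (hk : k ∈ K0) (x : Bool) : ∃ g ∈ K0, (g : Pm) = dl x (k : Pm) :=
  K0_lift x hk

/-- the subgroup generated by the lifts at both letters -/
def Phi (K : Subgroup BG) : Subgroup BG := up false K ⊔ up true K

lemma up_mono {x : Bool} {K K' : Subgroup BG} (h : K ≤ K') : up x K ≤ up x K' := by
  rintro g ⟨k, hk, e⟩; exact ⟨k, h hk, e⟩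

lemma up_le_Phi (x : Bool) (K : Subgroup BG) : up x K ≤ Phi K := by
  cases x
  · exact le_sup_left
  · exact le_sup_right

lemma Phi_le {K T : Subgroup BG} (h : ∀ x, up x K ≤ T) : Phi K ≤ T := sup_le (h false) (h true)

lemma Phi_mono {K K' : Subgroup BG} (h : K ≤ K') : Phi K ≤ Phi K' :=
  Phi_le fun x => (up_mono h).trans (up_le_Phi x K')

lemma Phi_K0_le {K : Subgroup BG} (h : K ≤ K0) : Phi K ≤ K0 := by
  refine Phi_le fun x => ?_
  rintro g ⟨k, hk, e⟩
  obtain ⟨g', hg', e'⟩ := exists_lift (h hk) x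
  have : g = g' := Subtype.ext (e.trans e'.symm)
  rw [this]; exact hg'

lemma conj_up {K : Subgroup BG} (hK : K.Normal) {x : Bool} {g : BG} (hg : g ∈ up x K) (t : BG) :
    ∃ y, t * g * t⁻¹ ∈ up y K := by
  obtain ⟨k, hk, e⟩ := hg
  obtain ⟨y, s, hs, hts⟩ := B_sec t.2 x
  refine ⟨y, ⟨s, hs⟩ * k * ⟨s, hs⟩⁻¹, hK.conj_mem k hk _, ?_⟩
  show (t : Pm) * (g : Pm) * (t : Pm)⁻¹ = dl y (s * (k : Pm) * s⁻¹)
  rw [e, conj_dl t.2 hts]

lemma Phi_normal {K : Subgroup BG} (hK : K.Normal) : (Phi K).Normal := by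
  apply normal_of_cj_le
  intro t
  have h : Phi K ≤ cj t⁻¹ (Phi K) := by
    refine Phi_le fun x g hg => ?_
    rw [mem_cj, inv_inv]
    obtain ⟨y, hy⟩ := conj_up hK hg t
    exact up_le_Phi y K hy
  have h2 := cj_mono t h
  rwa [← cj_mul, mul_inv_cancel, cj_one] at h2

/-- elements lifted at different letters commute -/
lemma up_comm {K K' : Subgroup BG} {x y : Bool} (hxy : x ≠ y) {g g' : BG} (hg : g ∈ up x K)
    (hg' : g' ∈ up y K') : g * g' = g' * g := by
  obtain ⟨k, hk, e⟩ := hg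
  obtain ⟨k', hk', e'⟩ := hg'
  apply Subtype.ext
  rw [Subgroup.coe_mul, Subgroup.coe_mul, e, e']
  cases x <;> cases y
  · exact absurd rfl hxy
  · exact dl_comm _ _
  · exact (dl_comm _ _).symm
  · exact absurd rfl hxy

lemma commutator_sup_le {G : Type*} [Group G] {L A B : Subgroup G} (hL : L.Normal)
    (h1 : ⁅A, A⁆ ≤ L) (h2 : ⁅B, B⁆ ≤ L) (h3 : ∀ a ∈ A, ∀ b ∈ B, a * b = b * a) :
    ⁅A ⊔ B, A ⊔ B⁆ ≤ L := by
  have key : A ⊔ B ≤ cent L (A ⊔ B) := by
    have hA : A ⊔ B ≤ cent L A := by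
      refine sup_le (le_cent h1) ?_
      intro b hb x hx
      rw [← QuotientGroup.mk_mul, ← QuotientGroup.mk_mul, h3 x hx b hb]
    have hB : A ⊔ B ≤ cent L B := by
      refine sup_le ?_ (le_cent h2)
      intro a ha x hx
      rw [← QuotientGroup.mk_mul, ← QuotientGroup.mk_mul, h3 a ha x hx]
    intro g hg x hx
    let T : Subgroup G := (centralizer {(g : G ⧸ L)}).comap (QuotientGroup.mk' L)
    have hT : A ⊔ B ≤ T := by
      refine sup_le ?_ ?_
      · intro x hx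
        show QuotientGroup.mk' L x ∈ centralizer _
        rw [mem_centralizer_singleton_iff]
        exact (hA hg x hx).symm
      · intro x hx
        show QuotientGroup.mk' L x ∈ centralizer _
        rw [mem_centralizer_singleton_iff]
        exact (hB hg x hx).symm
    have h4 : QuotientGroup.mk' L x ∈ centralizer {(g : G ⧸ L)} := hT hx
    rw [mem_centralizer_singleton_iff] at h4
    exact h4.symm
  rw [commutator_le]
  intro x hx y hy
  have h3 := key ((A ⊔ B).inv_mem hx) y⁻¹ ((A ⊔ B).inv_mem hy)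
  rw [← QuotientGroup.mk_mul, ← QuotientGroup.mk_mul, eq_comm, QuotientGroup.eq] at h3
  have h4 : ⁅x, y⁆ = (y⁻¹ * x⁻¹)⁻¹ * (x⁻¹ * y⁻¹) := by rw [commutatorElement_def]; group
  rw [h4]; exact h3

/-- lift of a step -/
lemma Step.Phi {L K : Subgroup BG} (hs : Step L K) (hK : K ≤ K0) : Step (Phi L) (Phi K) := by
  classical
  refine ⟨Phi_normal hs.nL, Phi_normal hs.nK, Phi_mono hs.le, ?_, ?_⟩
  · have h1 : ∀ x, ⁅up x K, up x K⁆ ≤ Bas.Phi L := by
      intro x
      rw [commutator_le]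
      rintro g ⟨k, hk, e⟩ g' ⟨k', hk', e'⟩
      apply up_le_Phi x L
      refine ⟨⁅k, k'⁆, hs.comm (commutator_mem_commutator hk hk'), ?_⟩
      rw [commutatorElement_def, commutatorElement_def]
      show (g : Pm) * (g' : Pm) * (g : Pm)⁻¹ * (g' : Pm)⁻¹ =
        dl x ((k : Pm) * (k' : Pm) * (k : Pm)⁻¹ * (k' : Pm)⁻¹)
      rw [e, e', dl_mul, dl_mul, dl_mul, dl_inv, dl_inv]
    exact commutator_sup_le (Phi_normal hs.nL) (h1 false) (h1 true)
      (fun a ha b hb => up_comm (by decide) ha hb)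
  · obtain ⟨X, hX1, hX2, hX3⟩ := hs.gen
    have h1 : ∀ (k : BG) (x : Bool), ∃ g : BG, k ∈ K0 → (g : Pm) = dl x (k : Pm) := by
      intro k x
      by_cases hk : k ∈ K0
      · obtain ⟨g, -, e⟩ := exists_lift hk x
        exact ⟨g, fun _ => e⟩
      · exact ⟨1, fun h => absurd h hk⟩
    choose lf hlf using h1
    let X' : Finset BG := (X.image fun k => lf k false) ∪ (X.image fun k => lf k true)
    have hX' : ∀ k ∈ X, ∀ x, lf k x ∈ X' := by
      intro k hk x
      rw [Finset.mem_union, Finset.mem_image, Finset.mem_image]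
      cases x
      · exact Or.inl ⟨k, hk, rfl⟩
      · exact Or.inr ⟨k, hk, rfl⟩
    have hX'' : ∀ g ∈ X', ∃ k ∈ X, ∃ x, g = lf k x := by
      intro g hg
      rw [Finset.mem_union, Finset.mem_image, Finset.mem_image] at hg
      rcases hg with ⟨k, hk, rfl⟩ | ⟨k, hk, rfl⟩
      · exact ⟨k, hk, _, rfl⟩
      · exact ⟨k, hk, _, rfl⟩
    refine ⟨X', ?_, ?_, ?_⟩
    · intro g hg
      obtain ⟨k, hk, x, rfl⟩ := hX'' g hg
      exact up_le_Phi x K ⟨k, hX1 k hk, hlf k x (hK (hX1 k hk))⟩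
    · refine Phi_le fun x => ?_
      rintro g ⟨k, hk, e⟩
      have h2 : closure (X : Set BG) ⊔ L ≤ upc x (closure (X' : Set BG) ⊔ Bas.Phi L) := by
        refine sup_le ?_ ?_
        · rw [closure_le]
          intro k hk
          exact ⟨lf k x, le_sup_left (α := Subgroup BG) (Subgroup.subset_closure (hX' k hk x)),
            hlf k x (hK (hX1 k hk))⟩
        · intro k hk
          obtain ⟨g, -, e⟩ := exists_lift (hK (hs.le hk)) x
          exact ⟨g, le_sup_right (α := Subgroup BG) (up_le_Phi x L ⟨k, hk, e⟩), e⟩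
      obtain ⟨g', hg', e'⟩ := h2 (hX2 hk)
      have : g = g' := Subtype.ext (e.trans e'.symm)
      rw [this]; exact hg'
    · intro t g hg
      obtain ⟨k, hk, x, rfl⟩ := hX'' g hg
      obtain ⟨y, s, hs', hts⟩ := B_sec t.2 x
      obtain ⟨k', hk', h3⟩ := hX3 ⟨s, hs'⟩ k hk
      refine ⟨lf k' y, hX' k' hk' y, ?_⟩
      apply up_le_Phi y L
      refine ⟨_, h3, ?_⟩
      show (lf k' y : Pm)⁻¹ * ((t : Pm) * (lf k x : Pm) * (t : Pm)⁻¹) =
        dl y ((k' : Pm)⁻¹ * (s * (k : Pm) * s⁻¹))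
      rw [hlf k' y (hK (hX1 k' hk')), hlf k x (hK (hX1 k hk)), conj_dl t.2 hts,
        dl_mul y (k' : Pm)⁻¹, dl_inv]

end Pool.Agent.KS6_52.Bas
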