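import Pool.Agent.KS6_52.Bas.Tree

/-!
# Limits of elements of a commensurated subgroup
-/

namespace Pool.Agent.KS6_52.Bas

open Subgroup Filter
open scoped commutatorElement

set_option linter.unusedSectionVars false

lemma exists_ult {α : Type*} (U : Ultrafilter ℕ) (f : ℕ → α) {T : Set α} (hT : T.Finite)
    (h : ∀ n, f n ∈ T) : ∃ a, ∀ᶠ n in (U : Filter ℕ), f n = a := by
  have := (Ultrafilter.eventually_exists_mem_iff (f := U) (P := fun a n => f n = a) hT).1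
    (Eventually.of_forall fun n => ⟨f n, h n, rfl⟩)
  obtain ⟨a, -, ha⟩ := this
  exact ⟨a, ha⟩

variable {G : Type*} [Group G] [MulAction G W] [TreeAct G] [FaithfulSMul G W]

/-- limit of a sequence of elements of `H` supported in smaller and smaller subtrees -/
structure Lim (H : Subgroup G) where
  U : Ultrafilter ℕ
  k : ℕ → G
  ξ : ℕ → W
  ray : Ray ξ
  y : Equiv.Perm (G ⧸ H)
  hk : ∀ n, k n ∈ H
  hy : ∀ x, ∀ᶠ n in (U : Filter ℕ), y x = k n • x
  hR : ∀ j, ∀ᶠ n in (U : Filter ℕ), k n ∈ Rist G (ξ j)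

lemma exists_lim {H : Subgroup G} (hH : Cd H) (k : ℕ → G) (w : ℕ → W)
    (hk : ∀ n, k n ∈ H) (hR : ∀ n, k n ∈ Rist G (w n)) (hw : ∀ n, (w n).length = n)
    (S : Finset G) (s : ℕ → G) (hsS : ∀ n, s n ∈ S) (hs : ∀ n, k n ∉ cj (s n) H) :
    ∃ (L : Lim H) (t : G), t ∈ S ∧ L.y (t : G ⧸ H) ≠ (t : G ⧸ H) := by
  classical
  let U : Ultrafilter ℕ := Filter.hyperfilter ℕ
  have hU : ∀ j : ℕ, ∀ᶠ n in (U : Filter ℕ), j ≤ n := by
    intro j
    have : ∀ᶠ n in Filter.cofinite, j ≤ n := by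
      rw [Nat.cofinite_eq_atTop]
      exact eventually_ge_atTop j
    exact Filter.hyperfilter_le_cofinite this
  obtain ⟨t, ht⟩ := exists_ult U s S.finite_toSet hsS
  have h1 : ∀ x : G ⧸ H, ∃ x', ∀ᶠ n in (U : Filter ℕ), k n • x = x' := fun x =>
    exists_ult U _ (orbit_finite hH x) (fun n => ⟨⟨k n, hk n⟩, rfl⟩)
  have h2 : ∀ x : G ⧸ H, ∃ x', ∀ᶠ n in (U : Filter ℕ), (k n)⁻¹ • x = x' := fun x =>
    exists_ult U _ (orbit_finite hH x) (fun n => ⟨⟨(k n)⁻¹, H.inv_mem (hk n)⟩, rfl⟩)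
  choose yf hyf using h1
  choose yi hyi using h2
  let y : Equiv.Perm (G ⧸ H) :=
    { toFun := yf
      invFun := yi
      left_inv := by
        intro x
        obtain ⟨n, h3, h4⟩ := ((hyf x).and (hyi (yf x))).exists
        rw [← h4, ← h3, inv_smul_smul]
      right_inv := by
        intro x
        obtain ⟨n, h3, h4⟩ := ((hyi x).and (hyf (yi x))).exists
        rw [← h4, ← h3, smul_inv_smul] }
  have h3 : ∀ j, ∃ v, ∀ᶠ n in (U : Filter ℕ), (w n).take j = v := fun j =>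
    exists_ult U _ (List.finite_length_le Bool j) (fun n => by
      show ((w n).take j).length ≤ j
      rw [List.length_take]; exact min_le_left _ _)
  choose ξ hξ using h3
  have hray : Ray ξ := by
    refine ⟨fun j => ?_, fun j => ?_⟩
    · obtain ⟨n, h4, h5⟩ := ((hξ j).and (hU j)).exists
      rw [← h4, List.length_take, hw n]
      exact min_eq_left h5
    · obtain ⟨n, h4, h5⟩ := ((hξ j).and (hξ (j + 1))).exists
      rw [← h4, ← h5]
      exact List.take_prefix_take_left (Nat.le_succ j)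
  refine ⟨⟨U, k, ξ, hray, y, hk, ?_, ?_⟩, t, ?_, ?_⟩
  · intro x
    exact (hyf x).mono fun n h => h.symm
  · intro j
    refine (hξ j).mono fun n h => ?_
    refine Rist_mono ?_ (hR n)
    rw [← h]; exact List.take_prefix _ _
  · obtain ⟨n, h4⟩ := ht.exists
    rw [← h4]; exact hsS n
  · intro h
    obtain ⟨n, h4, h5⟩ := (ht.and (hyf (t : G ⧸ H))).exists
    apply hs n
    rw [mem_cj, h4, mul_assoc, ← QuotientGroup.eq, ← smul_mk, h5]
    exact h.symm

namespace Lim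

variable {H : Subgroup G} (L : Lim H)

/-- the action of `g` on the cosets -/
def lam (H : Subgroup G) (g : G) : Equiv.Perm (G ⧸ H) := MulAction.toPermHom G (G ⧸ H) g

@[simp] lemma lam_apply (g : G) (x : G ⧸ H) : lam H g x = g • x := rfl

@[simp] lemma lam_inv_apply (g : G) (x : G ⧸ H) : (lam H g)⁻¹ x = g⁻¹ • x := rfl

lemma lam_mul (g h : G) : lam H (g * h) = lam H g * lam H h := map_mul _ _ _

lemma lam_inv (g : G) : lam H g⁻¹ = (lam H g)⁻¹ := map_inv _ _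

/-- the conjugates of the limit -/
def Y (g : G) : Equiv.Perm (G ⧸ H) := lam H g * L.y * (lam H g)⁻¹

lemma Y_one : L.Y 1 = L.y := by
  ext x
  show (1 : G) • L.y ((1 : G)⁻¹ • x) = L.y x
  rw [one_smul, inv_one, one_smul]

lemma evY (g : G) (x : G ⧸ H) :
    ∀ᶠ n in (L.U : Filter ℕ), L.Y g x = (g * L.k n * g⁻¹) • x := by
  refine (L.hy (g⁻¹ • x)).mono fun n h => ?_
  show g • L.y (g⁻¹ • x) = _
  rw [h, mul_smul, mul_smul]

lemma lamY (g g' : G) : lam H g * L.Y g' * (lam H g)⁻¹ = L.Y (g * g') := by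
  unfold Y; rw [lam_mul]; group

lemma Y_mul_of_triv {g z : G} (hz : z ∈ Zn L.ray) : L.Y (g * z) = L.Y g := by
  obtain ⟨j, hj⟩ := hz
  ext x
  obtain ⟨n, h1, h2, h3⟩ := ((L.evY (g * z) x).and ((L.evY g x).and (L.hR j))).exists
  rw [h1, h2]
  have := comm_Triv hj h3
  congr 1
  rw [mul_inv_rev, show g * z * L.k n * (z⁻¹ * g⁻¹) = g * (z * L.k n) * z⁻¹ * g⁻¹ by group, this]
  group

variable (germ : ∀ (g : G) (ξ : ℕ → W) (h : Ray ξ), (∀ j, g • ξ j = ξ j) → g ∈ Zn h)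

include germ in
lemma commY (g g' : G) : L.Y g * L.Y g' = L.Y g' * L.Y g := by
  by_cases h : ∀ j, g • L.ξ j = g' • L.ξ j
  · have hz : g⁻¹ * g' ∈ Zn L.ray := germ _ _ _ fun j => by
      rw [mul_smul, ← h j, inv_smul_smul]
    have : L.Y g' = L.Y g := by
      rw [← L.Y_mul_of_triv (g := g) hz]; congr 1; group
    rw [this]
  · push Not at h
    obtain ⟨j, hj⟩ := h
    ext x
    obtain ⟨n, h1, h2, h3, h4, h5⟩ := ((L.evY g' x).and ((L.evY g (L.Y g' x)).and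
      ((L.evY g x).and ((L.evY g' (L.Y g x)).and (L.hR j))))).exists
    have h6 : g * L.k n * g⁻¹ ∈ Rist G (g • L.ξ j) := by rw [← cj_Rist]; exact conj_mem_cj h5
    have h7 : g' * L.k n * g'⁻¹ ∈ Rist G (g' • L.ξ j) := by rw [← cj_Rist]; exact conj_mem_cj h5
    have h8 := comm_Rist' (by rw [TreeAct.len, TreeAct.len]) hj h6 h7
    show L.Y g (L.Y g' x) = L.Y g' (L.Y g x)
    rw [h2, h4, h1, h3, smul_smul, smul_smul, h8]

/-- the group generated by the conjugates of the limit -/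
def P : Subgroup (Equiv.Perm (G ⧸ H)) := closure (Set.range L.Y)

lemma Y_mem (g : G) : L.Y g ∈ L.P := subset_closure ⟨g, rfl⟩

include germ in
lemma commP {p q : Equiv.Perm (G ⧸ H)} (hp : p ∈ L.P) (hq : q ∈ L.P) : p * q = q * p := by
  have h1 : L.P ≤ centralizer (Set.range L.Y) := by
    unfold P
    rw [closure_le]
    rintro _ ⟨g, rfl⟩
    rw [SetLike.mem_coe, mem_centralizer_iff]
    rintro _ ⟨g', rfl⟩
    exact L.commY germ g' g
  have h2 : L.P ≤ centralizer {p} := by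
    conv_lhs => unfold P
    rw [closure_le]
    rintro _ ⟨g, rfl⟩
    rw [SetLike.mem_coe, mem_centralizer_singleton_iff]
    have := h1 hp
    rw [mem_centralizer_iff] at this
    exact this _ ⟨g, rfl⟩
  have := h2 hq
  rw [mem_centralizer_singleton_iff] at this
  exact this.symm

lemma lamP (g : G) {p : Equiv.Perm (G ⧸ H)} (hp : p ∈ L.P) :
    lam H g * p * (lam H g)⁻¹ ∈ L.P := by
  refine closure_induction (p := fun p _ => lam H g * p * (lam H g)⁻¹ ∈ L.P) ?_ ?_ ?_ ?_ hp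
  · rintro _ ⟨g', rfl⟩
    rw [lamY]; exact L.Y_mem _
  · simp
  · rintro p q - - h1 h2
    have := L.P.mul_mem h1 h2
    convert this using 1; group
  · rintro p - h1
    have := L.P.inv_mem h1
    convert this using 1; group

lemma approx {p : Equiv.Perm (G ⧸ H)} (hp : p ∈ L.P) :
    ∀ F : Finset (G ⧸ H), ∃ g : G, ∀ x ∈ F, g • x = p x := by
  classical
  refine closure_induction
    (p := fun p _ => ∀ F : Finset (G ⧸ H), ∃ g : G, ∀ x ∈ F, g • x = p x) ?_ ?_ ?_ ?_ hp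
  · rintro _ ⟨g, rfl⟩ F
    have : ∀ᶠ n in (L.U : Filter ℕ), ∀ x ∈ F, L.Y g x = (g * L.k n * g⁻¹) • x :=
      (Filter.eventually_all_finset F).2 fun x _ => L.evY g x
    obtain ⟨n, hn⟩ := this.exists
    exact ⟨_, fun x hx => (hn x hx).symm⟩
  · intro F; exact ⟨1, fun x _ => by simp⟩
  · rintro p q - - h1 h2 F
    obtain ⟨g, hg⟩ := h2 F
    obtain ⟨g', hg'⟩ := h1 (F.image q)
    refine ⟨g' * g, fun x hx => ?_⟩
    rw [mul_smul, hg x hx, hg' _ (Finset.mem_image_of_mem _ hx)]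
    rfl
  · rintro p - h1 F
    obtain ⟨g, hg⟩ := h1 (F.image ⇑p⁻¹)
    refine ⟨g⁻¹, fun x hx => ?_⟩
    rw [inv_smul_eq_iff, hg _ (Finset.mem_image_of_mem _ hx)]
    simp

/-- base point -/
def o (H : Subgroup G) : G ⧸ H := ((1 : G) : G ⧸ H)

lemma smul_o_eq_iff {g : G} : g • o H = o H ↔ g ∈ H := by
  unfold o
  rw [smul_mk, mul_one, eq_comm, QuotientGroup.eq]
  simp

lemma mk_eq_smul_o (g : G) : (g : G ⧸ H) = g • o H := by
  unfold o; rw [smul_mk, mul_one]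

/-- the larger subgroup -/
def Hp : Subgroup G where
  carrier := {g | ∃ p ∈ L.P, g • o H = p (o H)}
  mul_mem' := by
    rintro g g' ⟨p, hp, h⟩ ⟨p', hp', h'⟩
    refine ⟨lam H g * p' * (lam H g)⁻¹ * p, L.P.mul_mem (L.lamP g hp') hp, ?_⟩
    show _ = lam H g (p' ((lam H g)⁻¹ (p (o H))))
    rw [← h, mul_smul, h', lam_apply, lam_inv_apply, inv_smul_smul]
  one_mem' := ⟨1, one_mem _, by simp⟩
  inv_mem' := by
    rintro g ⟨p, hp, h⟩
    refine ⟨(lam H g⁻¹ * p * (lam H g⁻¹)⁻¹)⁻¹, L.P.inv_mem (L.lamP _ hp), ?_⟩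
    rw [Equiv.Perm.eq_inv_iff_eq]
    show lam H g⁻¹ (p ((lam H g⁻¹)⁻¹ (g⁻¹ • o H))) = _
    rw [lam_inv_apply, inv_inv, smul_inv_smul, ← h, lam_apply, inv_smul_smul]

lemma le_Hp : H ≤ L.Hp := fun g hg => ⟨1, one_mem _, by rw [smul_o_eq_iff.2 hg]; rfl⟩

/-- an element of `Hp`, corrected by an element of `P`, can be approximated by elements of `H` -/
lemma Hp_approx {h : G} (hh : h ∈ L.Hp) : ∃ p ∈ L.P, h • o H = p (o H) ∧
    ∀ x : G ⧸ H, ∃ h' ∈ H, h' • x = p⁻¹ (h • x) := by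
  classical
  obtain ⟨p, hp, h1⟩ := hh
  refine ⟨p, hp, h1, fun x => ?_⟩
  obtain ⟨g, hg⟩ := L.approx (L.P.inv_mem hp) {h • o H, h • x}
  refine ⟨g * h, ?_, ?_⟩
  · rw [← smul_o_eq_iff, mul_smul, hg _ (by simp), h1]; simp
  · rw [mul_smul, hg _ (by simp)]

/-- the projection on the cosets of the larger subgroup -/
def π : G ⧸ H → G ⧸ L.Hp := quotientMapOfLE L.le_Hp

lemma π_mk (g : G) : L.π (g : G ⧸ H) = (g : G ⧸ L.Hp) := rfl

lemma π_smul (g : G) (x : G ⧸ H) : L.π (g • x) = g • L.π x := by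
  induction x using QuotientGroup.induction_on with
  | H a => rfl

lemma π_P {p : Equiv.Perm (G ⧸ H)} (hp : p ∈ L.P) (x : G ⧸ H) : L.π (p x) = L.π x := by
  induction x using QuotientGroup.induction_on with
  | H a =>
    obtain ⟨b, hb⟩ := QuotientGroup.mk_surjective (p (a : G ⧸ H))
    rw [← hb, π_mk, π_mk, eq_comm, QuotientGroup.eq]
    refine ⟨lam H a⁻¹ * p * (lam H a⁻¹)⁻¹, L.lamP _ hp, ?_⟩
    show _ = lam H a⁻¹ (p ((lam H a⁻¹)⁻¹ (o H)))
    rw [lam_inv_apply, inv_inv, ← mk_eq_smul_o a, ← hb, lam_apply, mul_smul, ← mk_eq_smul_o b]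

lemma orbit_subset (t : G) :
    MulAction.orbit L.Hp (t : G ⧸ L.Hp) ⊆ L.π '' (MulAction.orbit H (t : G ⧸ H)) := by
  rintro _ ⟨⟨h, hh⟩, rfl⟩
  obtain ⟨p, hp, h1, h2⟩ := L.Hp_approx hh
  obtain ⟨h', hh', h3⟩ := h2 (t : G ⧸ H)
  refine ⟨h' • (t : G ⧸ H), ⟨⟨h', hh'⟩, rfl⟩, ?_⟩
  rw [h3, L.π_P (L.P.inv_mem hp), π_smul, π_mk]
  rfl

lemma relIndex_le (hH : Cd H) (t : G) :
    (cj t L.Hp).relIndex L.Hp ≤ (cj t H).relIndex H := by
  rw [relIndex_cj, relIndex_cj]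
  have hf := orbit_finite hH (t : G ⧸ H)
  exact (Set.ncard_le_ncard (L.orbit_subset t) (hf.image _)).trans (Set.ncard_image_le hf)

lemma Hp_cd (hH : Cd H) : Cd L.Hp := by
  intro t
  rw [relIndex_cj]
  have hf := orbit_finite hH (t : G ⧸ H)
  exact Set.ncard_ne_zero_of_mem (MulAction.mem_orbit_self _)
    ((hf.image _).subset (L.orbit_subset t))

lemma relIndex_lt (hH : Cd H) {t : G} (ht : L.y (t : G ⧸ H) ≠ (t : G ⧸ H)) :
    (cj t L.Hp).relIndex L.Hp < (cj t H).relIndex H := by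
  rw [relIndex_cj, relIndex_cj]
  have hf := orbit_finite hH (t : G ⧸ H)
  refine (Set.ncard_le_ncard (L.orbit_subset t) (hf.image _)).trans_lt ?_
  refine lt_of_le_of_ne (Set.ncard_image_le hf) fun h => ?_
  have hinj := (Set.ncard_image_iff hf).1 h
  apply ht
  obtain ⟨n, hn⟩ := (L.hy (t : G ⧸ H)).exists
  refine hinj ?_ (MulAction.mem_orbit_self _) ?_
  · rw [hn]; exact ⟨⟨L.k n, L.hk n⟩, rfl⟩
  · rw [← L.Y_one, L.π_P (L.Y_mem _)]

end Lim

end Pool.Agent.KS6_52.Bas
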