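import Pool.Agent.KS6_52.Bas.Basic

/-!
# Commensurated subgroups and steps of a normal series
-/

namespace Pool.Agent.KS6_52.Bas

open Subgroup
open scoped commutatorElement

lemma fg_of_comm {Q : Type*} [CommGroup Q] [hQ : Group.FG Q] (U : Subgroup Q) : U.FG := by
  rw [Subgroup.fg_iff_add_fg]
  have h1 : AddGroup.FG (Additive Q) := inferInstance
  have h2 : Module.Finite ℤ (Additive Q) := Module.Finite.iff_addGroup_fg.2 h1
  have h3 : IsNoetherian ℤ (Additive Q) := inferInstance
  have h4 := h3.noetherian (AddSubgroup.toIntSubmodule (Subgroup.toAddSubgroup U))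
  rw [Submodule.fg_iff_addSubgroup_fg] at h4
  simpa using h4

universe u

variable {G : Type u} [Group G]

lemma mem_sup_normal {H M : Subgroup G} (hM : M.Normal) {x : G} (hx : x ∈ H ⊔ M) :
    ∃ h ∈ H, ∃ m ∈ M, x = h * m := by
  rw [← SetLike.mem_coe, Subgroup.mul_normal] at hx
  obtain ⟨h, hh, m, hm, rfl⟩ := hx
  exact ⟨h, hh, m, hm, rfl⟩

/-- if the derived subgroup lies in a subgroup, then this subgroup is normal -/
lemma subgroupOf_normal {A B : Subgroup G} (h : ⁅A, A⁆ ≤ B) :
    (B.subgroupOf A).Normal := by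
  refine ⟨fun n hn g => ?_⟩
  rw [mem_subgroupOf] at *
  have h1 : ⁅(g : G), (n : G)⁆ ∈ B := h (commutator_mem_commutator g.2 n.2)
  have h2 := B.mul_mem h1 hn
  rw [commutatorElement_def] at h2
  simpa [mul_assoc] using h2

/-- the quotient `A / B` is commutative and finitely generated -/
lemma quotient_facts {A B : Subgroup G} (h : ⁅A, A⁆ ≤ B) (hBA : B ≤ A) {X : Finset G}
    (hX : (X : Set G) ⊆ A) (hg : A ≤ closure (X : Set G) ⊔ B) :
    ∃ (Q : Type u) (_ : CommGroup Q) (f : A →* Q), Group.FG Q ∧ Function.Surjective f ∧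
      ∀ a, f a = 1 ↔ (a : G) ∈ B := by
  have hn := subgroupOf_normal h
  let Q := A ⧸ B.subgroupOf A
  have hcomm : ∀ x y : Q, x * y = y * x := by
    intro x y
    induction x using QuotientGroup.induction_on with
    | H x =>
      induction y using QuotientGroup.induction_on with
      | H y =>
        rw [← QuotientGroup.mk_mul, ← QuotientGroup.mk_mul, QuotientGroup.eq, mem_subgroupOf]
        have h1 : ⁅(y : G)⁻¹, (x : G)⁻¹⁆ ∈ B :=
          h (commutator_mem_commutator (A.inv_mem y.2) (A.inv_mem x.2))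
        rw [commutatorElement_def] at h1
        push_cast
        simpa [mul_assoc] using h1
  let cg : CommGroup Q := { (inferInstance : Group Q) with mul_comm := hcomm }
  refine ⟨Q, cg, QuotientGroup.mk' _, ?_, QuotientGroup.mk'_surjective _, fun a => ?_⟩
  · rw [Group.fg_iff]
    refine ⟨(QuotientGroup.mk' (B.subgroupOf A)) '' {a | (a : G) ∈ X}, ?_, ?_⟩
    · rw [← MonoidHom.map_closure, eq_top_iff]
      rintro q -
      obtain ⟨a, rfl⟩ := QuotientGroup.mk'_surjective _ q
      have h1 : A ≤ ((closure {a : A | (a : G) ∈ X}) ⊔ B.subgroupOf A).map A.subtype := by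
        refine hg.trans (sup_le ?_ ?_)
        · rw [closure_le]
          intro x hx
          exact ⟨⟨x, hX hx⟩, le_sup_left (α := Subgroup A) (subset_closure hx), rfl⟩
        · intro x hx
          exact ⟨⟨x, hBA hx⟩, le_sup_right (α := Subgroup A) (mem_subgroupOf.2 hx), rfl⟩
      obtain ⟨a', ha', haa⟩ := h1 a.2
      have h2 : a' = a := Subtype.ext haa
      subst h2
      obtain ⟨u, hu, v, hv, rfl⟩ := mem_sup_normal hn ha'
      refine ⟨u, hu, ?_⟩
      rw [map_mul]
      have : QuotientGroup.mk' (B.subgroupOf A) v = 1 := (QuotientGroup.eq_one_iff v).2 hv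
      rw [this, mul_one]
    · apply Set.Finite.image
      exact Set.Finite.preimage (Subtype.coe_injective.injOn) X.finite_toSet
  · rw [QuotientGroup.mk'_apply, QuotientGroup.eq_one_iff, mem_subgroupOf]

/-- a finitely generated abelian torsion group is finite -/
lemma torsion_finite {A B : Subgroup G} (h : ⁅A, A⁆ ≤ B) (hBA : B ≤ A) {X : Finset G}
    (hX : (X : Set G) ⊆ A) (hg : A ≤ closure (X : Set G) ⊔ B)
    (ht : ∀ a ∈ A, ∃ k : ℕ, 0 < k ∧ a ^ k ∈ B) : B.relIndex A ≠ 0 := by
  obtain ⟨Q, cg, f, hfg, hs, hf⟩ := quotient_facts h hBA hX hg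
  have htor : IsMulTorsion Q := by
    intro q
    obtain ⟨a, rfl⟩ := hs q
    obtain ⟨k, hk, hak⟩ := ht a a.2
    rw [isOfFinOrder_iff_pow_eq_one]
    refine ⟨k, hk, ?_⟩
    rw [← map_pow, hf]
    exact_mod_cast hak
  have hfin : Finite Q := CommGroup.finite_of_fg_isMulTorsion Q htor
  have hker : f.ker = B.subgroupOf A := by
    ext a; rw [MonoidHom.mem_ker, hf, mem_subgroupOf]
  have : f.ker.FiniteIndex := by
    have : Finite f.range := inferInstance
    exact finiteIndex_ker f
  unfold relIndex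
  rw [← hker]
  exact this.index_ne_zero

/-- subgroups of finitely generated abelian groups are finitely generated -/
lemma sub_fg {A B : Subgroup G} (h : ⁅A, A⁆ ≤ B) (hBA : B ≤ A) {X : Finset G}
    (hX : (X : Set G) ⊆ A) (hg : A ≤ closure (X : Set G) ⊔ B) {V : Subgroup G} (hV : V ≤ A) :
    ∃ F : Finset G, (F : Set G) ⊆ V ∧ V ≤ closure (F : Set G) ⊔ B := by
  classical
  obtain ⟨Q, cg, f, hfg, hs, hf⟩ := quotient_facts h hBA hX hg
  obtain ⟨T, hT, hTf⟩ := (Subgroup.fg_iff _).1 (fg_of_comm ((V.subgroupOf A).map f))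
  have h1 : ∀ t : Q, ∃ v : G, t ∈ T → v ∈ V ∧ ∃ hv : v ∈ A, f ⟨v, hv⟩ = t := by
    intro t
    by_cases ht : t ∈ T
    · have : t ∈ (V.subgroupOf A).map f := by rw [← hT]; exact subset_closure ht
      obtain ⟨v, hv, rfl⟩ := this
      exact ⟨v, fun _ => ⟨mem_subgroupOf.1 hv, v.2, rfl⟩⟩
    · exact ⟨1, fun h => absurd h ht⟩
  choose r hr using h1
  refine ⟨hTf.toFinset.image r, ?_, ?_⟩
  · intro x hx
    rw [Finset.coe_image] at hx
    obtain ⟨t, ht, rfl⟩ := hx
    rw [SetLike.mem_coe]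
    exact (hr t (by simpa using ht)).1
  · intro v hv
    have h2 : f ⟨v, hV hv⟩ ∈ closure T := by
      rw [hT]; exact ⟨⟨v, hV hv⟩, mem_subgroupOf.2 hv, rfl⟩
    have h3 : closure T ≤ ((closure ((hTf.toFinset.image r : Finset G) : Set G)).subgroupOf
        A).map f := by
      rw [closure_le]
      intro t ht
      obtain ⟨h4, h5, h6⟩ := hr t ht
      refine ⟨⟨r t, h5⟩, ?_, h6⟩
      rw [SetLike.mem_coe, mem_subgroupOf]
      apply Subgroup.subset_closure
      rw [Finset.coe_image]
      exact ⟨t, by simpa using ht, rfl⟩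
    obtain ⟨c, hc, hcv⟩ := h3 h2
    rw [SetLike.mem_coe, mem_subgroupOf] at hc
    have h7 : f (c⁻¹ * ⟨v, hV hv⟩) = 1 := by rw [map_mul, map_inv, hcv]; simp
    rw [hf] at h7
    have h8 : v = (c : G) * ((c⁻¹ * ⟨v, hV hv⟩ : A) : G) := by push_cast; group
    rw [h8]
    exact (Subgroup.closure _ ⊔ B).mul_mem (le_sup_left (α := Subgroup G) hc)
      (le_sup_right (α := Subgroup G) h7)

end Pool.Agent.KS6_52.Bas
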