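import Pool.Agent.KS6_52.Bas.Basic

/-!
# Groups acting on the rooted binary tree
-/

namespace Pool.Agent.KS6_52.Bas

open Subgroup
open scoped commutatorElement

set_option linter.unusedSectionVars false

/-- the vertices of the binary tree: words -/
abbrev W := List Bool

/-- the action on words is by automorphisms of the rooted tree -/
class TreeAct (G : Type*) [Group G] [MulAction G W] : Prop where
  len : ∀ (g : G) (u : W), (g • u).length = u.length
  pre : ∀ (g : G) {u v : W}, u <+: v → g • u <+: g • v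

section

variable (G : Type*) [Group G] [MulAction G W]

/-- rigid stabilizer of `w` -/
def Rist (w : W) : Subgroup G where
  carrier := {g | ∀ u : W, ¬ w <+: u → g • u = u}
  mul_mem' {a b} ha hb u hu := by rw [mul_smul, hb u hu, ha u hu]
  one_mem' u _ := one_smul _ _
  inv_mem' {a} ha u hu := by rw [inv_smul_eq_iff, ha u hu]

/-- the elements which act trivially on the subtree of `w` -/
def Triv (w : W) : Subgroup G where
  carrier := {g | ∀ u : W, w <+: u → g • u = u}
  mul_mem' {a b} ha hb u hu := by rw [mul_smul, hb u hu, ha u hu]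
  one_mem' u _ := one_smul _ _
  inv_mem' {a} ha u hu := by rw [inv_smul_eq_iff, ha u hu]

/-- the stabilizer of the level `n` -/
def St (n : ℕ) : Subgroup G where
  carrier := {g | ∀ u : W, u.length = n → g • u = u}
  mul_mem' {a b} ha hb u hu := by rw [mul_smul, hb u hu, ha u hu]
  one_mem' u _ := one_smul _ _
  inv_mem' {a} ha u hu := by rw [inv_smul_eq_iff, ha u hu]

end

/-- an infinite ray in the tree -/
structure Ray (ξ : ℕ → W) : Prop where
  len : ∀ j, (ξ j).length = j
  pre : ∀ j, ξ j <+: ξ (j + 1)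

lemma Ray.mono {ξ : ℕ → W} (h : Ray ξ) {i j : ℕ} (hij : i ≤ j) : ξ i <+: ξ j := by
  induction j, hij using Nat.le_induction with
  | base => exact List.prefix_refl _
  | succ j _ ih => exact ih.trans (h.pre j)

lemma eq_of_pre {u v : W} (h : u <+: v) (hl : u.length = v.length) : u = v :=
  h.eq_of_length hl

lemma incomp {u v : W} (hl : u.length = v.length) (h : u ≠ v) : ¬ u <+: v := fun h' =>
  h (eq_of_pre h' hl)

section

variable {G : Type*} [Group G] [MulAction G W] [TreeAct G]

lemma pre_iff (g : G) {u v : W} : g • u <+: g • v ↔ u <+: v := by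
  constructor
  · intro h
    have := TreeAct.pre g⁻¹ h
    simpa using this
  · exact TreeAct.pre g

lemma Rist_fix {w : W} {r : G} (hr : r ∈ Rist G w) : r • w = w := by
  by_contra h
  have h1 : ¬ w <+: r • w := incomp (TreeAct.len r w).symm (Ne.symm h)
  have h2 : r • (r • w) = r • w := hr _ h1
  exact h (smul_left_cancel r h2)

lemma Triv_fix {w : W} {r : G} (hr : r ∈ Triv G w) : r • w = w := hr w (List.prefix_refl _)

lemma Rist_mono {w w' : W} (h : w <+: w') : Rist G w' ≤ Rist G w := by
  intro r hr u hu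
  exact hr u fun h' => hu (h.trans h')

lemma Triv_mono {w w' : W} (h : w <+: w') : Triv G w ≤ Triv G w' := by
  intro r hr u hu
  exact hr u (h.trans hu)

lemma cj_Rist (g : G) (w : W) : cj g (Rist G w) = Rist G (g • w) := by
  ext x
  rw [mem_cj]
  constructor
  · intro h u hu
    have := h (g⁻¹ • u) (by
      intro h'
      apply hu
      have := TreeAct.pre g h'
      simpa using this)
    rw [mul_smul, mul_smul, smul_inv_smul, inv_smul_eq_iff, smul_inv_smul] at this
    exact this
  · intro h u hu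
    have := h (g • u) (by rwa [pre_iff])
    rw [mul_smul, mul_smul, this, inv_smul_smul]

lemma St_normal (n : ℕ) : (St G n).Normal := by
  apply normal_of_cj_le
  intro g x hx
  rw [mem_cj] at hx
  intro u hu
  have := hx (g⁻¹ • u) (by rw [TreeAct.len, hu])
  rw [mul_smul, mul_smul, smul_inv_smul, inv_smul_eq_iff, smul_inv_smul] at this
  exact this

lemma level_finite (n : ℕ) : {u : W | u.length = n}.Finite := List.finite_length_eq Bool n

lemma St_index (n : ℕ) : (St G n).index ≠ 0 := by
  have : Finite {u : W // u.length = n} := level_finite n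
  let f : G → ({u : W // u.length = n} → W) := fun g u => g • (u : W)
  have hf : (Set.range f).Finite := by
    have h1 : Set.range f ⊆ Set.pi Set.univ (fun _ => {u : W | u.length = n}) := by
      rintro _ ⟨g, rfl⟩ u -
      show (g • (u : W)).length = n
      rw [TreeAct.len, u.2]
    exact (Set.Finite.pi' fun _ => level_finite n).subset (by
      intro x hx u; exact h1 hx u trivial)
  have : (St G n).FiniteIndex := by
    rw [Subgroup.finiteIndex_iff_finite_quotient]
    have hfin : Finite (Set.range f) := hf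
    let φ : G ⧸ St G n → Set.range f := fun x => ⟨f x.out, ⟨_, rfl⟩⟩
    apply Finite.of_injective φ
    intro x y hxy
    have h2 : f x.out = f y.out := congrArg Subtype.val hxy
    rw [← Quotient.out_eq' x, ← Quotient.out_eq' y]
    apply QuotientGroup.eq.2
    intro u hu
    have := congrFun h2 ⟨u, hu⟩
    change x.out • u = y.out • u at this
    rw [mul_smul, inv_smul_eq_iff]
    exact this.symm
  exact this.index_ne_zero

/-- the elements which act trivially near a ray -/
def Zn {ξ : ℕ → W} (h : Ray ξ) : Subgroup G where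
  carrier := {g | ∃ j, g ∈ Triv G (ξ j)}
  mul_mem' := by
    rintro a b ⟨i, hi⟩ ⟨j, hj⟩
    exact ⟨max i j, (Triv G _).mul_mem (Triv_mono (h.mono (le_max_left _ _)) hi)
      (Triv_mono (h.mono (le_max_right _ _)) hj)⟩
  one_mem' := ⟨0, one_mem _⟩
  inv_mem' := by
    rintro a ⟨i, hi⟩
    exact ⟨i, inv_mem hi⟩

variable [FaithfulSMul G W]

lemma comm_Rist {w w' : W} (h1 : ¬ w <+: w') (h2 : ¬ w' <+: w) {r r' : G} (hr : r ∈ Rist G w)
    (hr' : r' ∈ Rist G w') : r * r' = r' * r := by
  apply FaithfulSMul.eq_of_smul_eq_smul (α := W)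
  intro u
  have aux : ∀ {w w' : W}, ¬ w <+: w' → ¬ w' <+: w → ∀ {r r' : G}, r ∈ Rist G w →
      r' ∈ Rist G w' → w <+: u → (r * r') • u = (r' * r) • u := by
    intro w w' h1 h2 r r' hr hr' hu
    have h3 : ∀ v : W, w <+: v → ¬ w' <+: v := by
      intro v hv hv'
      rcases List.prefix_or_prefix_of_prefix hv hv' with h | h
      · exact h1 h
      · exact h2 h
    have h4 : w <+: r • u := by
      have := TreeAct.pre r hu
      rwa [Rist_fix hr] at this
    rw [mul_smul, mul_smul, hr' u (h3 u hu), hr' _ (h3 _ h4)]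
  by_cases hu : w <+: u
  · exact aux h1 h2 hr hr' hu
  · by_cases hu' : w' <+: u
    · exact (aux h2 h1 hr' hr hu').symm
    · rw [mul_smul, mul_smul, hr' u hu', hr u hu, hr' u hu']

lemma comm_Rist' {w w' : W} (hl : w.length = w'.length) (h : w ≠ w') {r r' : G}
    (hr : r ∈ Rist G w) (hr' : r' ∈ Rist G w') : r * r' = r' * r :=
  comm_Rist (incomp hl h) (incomp hl.symm h.symm) hr hr'

lemma comm_Triv {w : W} {z r : G} (hz : z ∈ Triv G w) (hr : r ∈ Rist G w) : z * r = r * z := by
  apply FaithfulSMul.eq_of_smul_eq_smul (α := W)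
  intro u
  by_cases hu : w <+: u
  · have h4 : w <+: r • u := by
      have := TreeAct.pre r hu
      rwa [Rist_fix hr] at this
    rw [mul_smul, mul_smul, hz u hu, hz _ h4]
  · have h4 : ¬ w <+: z • u := by
      intro h
      apply hu
      have h5 : z • w <+: z • u := by rwa [Triv_fix hz]
      exact (pre_iff z).1 h5
    rw [mul_smul, mul_smul, hr u hu, hr _ h4]

/-- The commutator trick. -/
lemma comm_le_of_moved {F K : Subgroup G} {w : W} (hK : K ≤ Rist G w)
    (hn : ∀ k ∈ K, ∀ f ∈ F, k * f * k⁻¹ ∈ F) {f : G} (hf : f ∈ F) (hfw : f • w ≠ w) :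
    ⁅K, K⁆ ≤ F := by
  have key : ∀ x ∈ K, ∀ y ∈ K, ⁅x⁻¹, y⁆ ∈ F := by
    intro x hx y hy
    have hp : f * x * f⁻¹ * x⁻¹ ∈ F := by
      have := F.mul_mem hf (hn x hx _ (F.inv_mem hf))
      simpa [mul_assoc] using this
    set p := f * x * f⁻¹ * x⁻¹ with hpdef
    have h2 : p * y * p⁻¹ * y⁻¹ ∈ F := by
      have := F.mul_mem hp (hn y hy _ (F.inv_mem hp))
      simpa [mul_assoc] using this
    have h3 : f * x * f⁻¹ ∈ Rist G (f • w) := by
      rw [← cj_Rist]; exact conj_mem_cj (hK hx)
    have h4 : x⁻¹ * y * x ∈ Rist G w := hK (K.mul_mem (K.mul_mem (K.inv_mem hx) hy) hx)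
    have h5 := comm_Rist' (TreeAct.len f w) hfw h3 h4
    have h6 : p * y * p⁻¹ * y⁻¹ = ⁅x⁻¹, y⁆ := by
      calc p * y * p⁻¹ * y⁻¹ = ((f * x * f⁻¹) * (x⁻¹ * y * x)) * (f * x * f⁻¹)⁻¹ * y⁻¹ := by
            rw [hpdef]; group
        _ = ⁅x⁻¹, y⁆ := by rw [h5, commutatorElement_def]; group
    rwa [h6] at h2
  rw [commutator_le]
  intro x hx y hy
  have := key x⁻¹ (K.inv_mem hx) y hy
  rwa [inv_inv] at this

end

end Pool.Agent.KS6_52.Bas
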